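import Mathlib

set_option autoImplicit false

open MeasureTheory Filter Topology Polynomial

namespace Pool.Agent.Helper23.PlaneWave

theorem tendsto_integral_of_lower (h : ℂ → ℂ) (C R : ℝ) (hC : 0 ≤ C)
    (hd : ∀ z : ℂ, z.im ≤ 0 → DifferentiableAt ℂ h z)
    (hb : ∀ z : ℂ, R ≤ ‖z‖ → ‖h z‖ ≤ C / ‖z‖ ^ 2) :
    Tendsto (fun T : ℝ => ∫ x in (-T)..T, h (x : ℂ)) atTop (𝓝 0) := by
  have key : ∀ T : ℝ, max R 1 ≤ T → ‖∫ x in (-T)..T, h (x : ℂ)‖ ≤ 4 * C / T := by
    intro T hT
    have hT1 : 1 ≤ T := le_trans (le_max_right _ _) hT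
    have hTR : R ≤ T := le_trans (le_max_left _ _) hT
    have hT0 : 0 < T := by linarith
    have hrect := Complex.integral_boundary_rect_eq_zero_of_differentiableOn h (⟨-T, -T⟩ : ℂ)
      (⟨T, 0⟩ : ℂ) (by
        intro z hz
        refine (hd z ?_).differentiableWithinAt
        rw [Complex.mem_reProdIm] at hz
        have := hz.2
        rw [Set.uIcc_of_le (by simp; linarith)] at this
        exact this.2)
    simp only at hrect
    have e1 : ∫ x in (-T)..T, h (x : ℂ) = (∫ x in (-T)..T, h ((x : ℂ) + ((-T : ℝ) : ℂ) * Complex.I))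
        + Complex.I • (∫ y in (-T)..0, h (((T : ℝ) : ℂ) + (y : ℂ) * Complex.I))
        - Complex.I • (∫ y in (-T)..0, h (((-T : ℝ) : ℂ) + (y : ℂ) * Complex.I)) := by
      have h2 : ∫ x in (-T)..T, h ((x : ℂ) + ((0 : ℝ) : ℂ) * Complex.I) =
          ∫ x in (-T)..T, h (x : ℂ) := by simp
      rw [h2] at hrect
      linear_combination (-1 : ℂ) * hrect
    have hnorm : ∀ z : ℂ, T ≤ ‖z‖ → ‖h z‖ ≤ C / T ^ 2 := by
      intro z hz
      refine (hb z (hTR.trans hz)).trans ?_
      gcongr
    have b1 : ‖∫ x in (-T)..T, h ((x : ℂ) + ((-T : ℝ) : ℂ) * Complex.I)‖ ≤ C / T ^ 2 * |T - (-T)| := by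
      apply intervalIntegral.norm_integral_le_of_norm_le_const
      intro x _
      apply hnorm
      have := Complex.abs_im_le_norm ((x : ℂ) + ((-T : ℝ) : ℂ) * Complex.I)
      simp at this
      rw [abs_of_pos hT0] at this
      simpa using this
    have b2 : ‖∫ y in (-T)..0, h (((T : ℝ) : ℂ) + (y : ℂ) * Complex.I)‖ ≤ C / T ^ 2 * |0 - (-T)| := by
      apply intervalIntegral.norm_integral_le_of_norm_le_const
      intro y _
      apply hnorm
      have := Complex.abs_re_le_norm (((T : ℝ) : ℂ) + (y : ℂ) * Complex.I)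
      simp at this
      rw [abs_of_pos hT0] at this
      simpa using this
    have b3 : ‖∫ y in (-T)..0, h (((-T : ℝ) : ℂ) + (y : ℂ) * Complex.I)‖ ≤ C / T ^ 2 * |0 - (-T)| := by
      apply intervalIntegral.norm_integral_le_of_norm_le_const
      intro y _
      apply hnorm
      have := Complex.abs_re_le_norm (((-T : ℝ) : ℂ) + (y : ℂ) * Complex.I)
      simp at this
      rw [abs_of_pos hT0] at this
      simpa using this
    rw [e1]
    refine (norm_sub_le _ _).trans ?_
    refine (add_le_add (norm_add_le _ _) le_rfl).trans ?_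
    rw [norm_smul, norm_smul, Complex.norm_I, one_mul, one_mul]
    have h1 : |T - (-T)| = 2 * T := by rw [abs_of_pos (by linarith)]; ring
    have h2 : |0 - (-T)| = T := by rw [abs_of_pos (by linarith)]; ring
    rw [h1] at b1
    rw [h2] at b2 b3
    have : C / T ^ 2 * (2 * T) + C / T ^ 2 * T + C / T ^ 2 * T = 4 * C / T := by
      field_simp; ring
    linarith
  refine squeeze_zero_norm' ?_ (tendsto_const_nhds.div_atTop tendsto_id : Tendsto (fun T : ℝ => 4 * C / T) atTop (𝓝 0))
  filter_upwards [eventually_ge_atTop (max R 1)] with T hT using key T hT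


theorem sub_mem_slitPlane {α : ℂ} (hα : α.im ≠ 0) (x : ℝ) : (x : ℂ) - α ∈ Complex.slitPlane := by
  rw [Complex.mem_slitPlane_iff]
  right
  simpa using hα

theorem sub_ne_zero_of_im {α : ℂ} (hα : α.im ≠ 0) (x : ℝ) : (x : ℂ) - α ≠ 0 :=
  Complex.slitPlane_ne_zero (sub_mem_slitPlane hα x)

theorem integral_inv_sub {α : ℂ} (hα : α.im ≠ 0) (a b : ℝ) :
    ∫ x in a..b, ((x : ℂ) - α)⁻¹ = Complex.log ((b : ℂ) - α) - Complex.log ((a : ℂ) - α) := by
  apply intervalIntegral.integral_eq_sub_of_hasDerivAt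
    (f := fun x : ℝ => Complex.log ((x : ℂ) - α))
  · intro x _
    have h1 : HasDerivAt (fun x : ℝ => (x : ℂ) - α) 1 x := by
      have := (Complex.ofRealCLM.hasDerivAt (x := x)).sub_const α
      simpa using this
    have h2 := h1.clog_real (sub_mem_slitPlane hα x)
    simpa using h2
  · apply Continuous.intervalIntegrable
    apply Continuous.inv₀ (by fun_prop)
    intro x
    exact sub_ne_zero_of_im hα x

theorem tendsto_div_atTop (α : ℂ) : Tendsto (fun T : ℝ => α / (T : ℂ)) atTop (𝓝 0) := by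
  have h1 : Tendsto (fun T : ℝ => ((T : ℝ) : ℂ)⁻¹) atTop (𝓝 0) := by
    have := (Complex.continuous_ofReal.tendsto (0 : ℝ)).comp (tendsto_inv_atTop_zero (𝕜 := ℝ))
    simpa [Function.comp_def] using this
  have := h1.const_mul α
  simpa [div_eq_mul_inv] using this

theorem tendsto_integral_inv_upper {α : ℂ} (hα : 0 < α.im) :
    Tendsto (fun T : ℝ => ∫ x in (-T)..T, ((x : ℂ) - α)⁻¹) atTop (𝓝 (Real.pi * Complex.I)) := by
  have hne : α.im ≠ 0 := hα.ne'
  have e : (fun T : ℝ => Complex.log (1 - α / (T : ℂ)) - Complex.log (-1 - α / (T : ℂ)))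
      =ᶠ[atTop] (fun T : ℝ => ∫ x in (-T)..T, ((x : ℂ) - α)⁻¹) := by
    filter_upwards [eventually_gt_atTop (0 : ℝ)] with T hT
    have hTc : (T : ℂ) ≠ 0 := by exact_mod_cast hT.ne'
    rw [integral_inv_sub hne]
    have h1 : (T : ℂ) - α = (T : ℂ) * (1 - α / (T : ℂ)) := by field_simp
    have h2 : ((-T : ℝ) : ℂ) - α = (T : ℂ) * (-1 - α / (T : ℂ)) := by
      push_cast; field_simp
    have n1 : 1 - α / (T : ℂ) ≠ 0 := by
      intro h
      rw [h, mul_zero] at h1
      exact sub_ne_zero_of_im hne T h1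
    have n2 : -1 - α / (T : ℂ) ≠ 0 := by
      intro h
      rw [h, mul_zero] at h2
      exact sub_ne_zero_of_im hne (-T) h2
    rw [h1, h2, Complex.log_ofReal_mul hT n1, Complex.log_ofReal_mul hT n2]
    ring
  refine Tendsto.congr' e ?_
  have t1 : Tendsto (fun T : ℝ => Complex.log (1 - α / (T : ℂ))) atTop (𝓝 0) := by
    have h1 : Tendsto (fun T : ℝ => 1 - α / (T : ℂ)) atTop (𝓝 1) := by
      simpa using (tendsto_div_atTop α).const_sub 1
    have h2 : ContinuousAt Complex.log 1 := continuousAt_clog (by simp)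
    have := h2.tendsto.comp h1
    simpa [Function.comp_def] using this
  have t2 : Tendsto (fun T : ℝ => Complex.log (-1 - α / (T : ℂ))) atTop
      (𝓝 (-(Real.pi * Complex.I))) := by
    have h1 : Tendsto (fun T : ℝ => -1 - α / (T : ℂ)) atTop (𝓝[{z : ℂ | z.im < 0}] (-1)) := by
      rw [tendsto_nhdsWithin_iff]
      refine ⟨by simpa using (tendsto_div_atTop α).const_sub (-1), ?_⟩
      filter_upwards [eventually_gt_atTop (0 : ℝ)] with T hT
      have : (-1 - α / (T : ℂ)).im = -(α.im / T) := by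
        simp
      change (-1 - α / (T : ℂ)).im < 0
      rw [this]
      have : 0 < α.im / T := by positivity
      linarith
    have h2 := Complex.tendsto_log_nhdsWithin_im_neg_of_re_neg_of_im_zero
      (z := (-1 : ℂ)) (by simp) (by simp)
    have := h2.comp h1
    simpa [Function.comp_def] using this
  simpa using t1.sub t2

theorem tendsto_integral_upper {ι : Type*} [DecidableEq ι] (s : Finset ι) (α : ι → ℂ)
    (hα : ∀ i ∈ s, 0 < (α i).im) (r : ℂ[X]) (hr : r.degree < s.card) :
    Tendsto (fun T : ℝ => ∫ x in (-T)..T, r.eval (x : ℂ) / ∏ i ∈ s, ((x : ℂ) - α i)) atTop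
      (𝓝 (Real.pi * Complex.I * r.coeff (s.card - 1))) := by
  rcases s.eq_empty_or_nonempty with rfl | ⟨i0, hi0⟩
  · simp only [Finset.card_empty, Nat.cast_zero] at hr
    have : r = 0 := by
      rw [← degree_eq_bot]
      exact Nat.WithBot.lt_zero_iff.mp hr
    subst this
    simp
  set m := s.card with hm
  have hmpos : 0 < m := Finset.card_pos.mpr ⟨i0, hi0⟩
  set c := r.coeff (m - 1) with hc
  set r' : ℂ[X] := r - C c * ∏ i ∈ s.erase i0, (X - C (α i)) with hr'
  have hmonic : (∏ i ∈ s.erase i0, (X - C (α i))).Monic := monic_prod_X_sub_C _ _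
  have hdeg : (∏ i ∈ s.erase i0, (X - C (α i))).natDegree = m - 1 := by
    rw [natDegree_finsetProd_X_sub_C_eq_card, Finset.card_erase_of_mem hi0]
  have hcoef : ∀ k, m - 1 ≤ k → r'.coeff k = 0 := by
    intro k hk
    rcases hk.eq_or_lt with h | h
    · rw [hr', ← h, coeff_sub, coeff_C_mul]
      have : (∏ i ∈ s.erase i0, (X - C (α i))).coeff (m - 1) = 1 := by
        rw [← hdeg]; exact hmonic
      rw [this, mul_one, hc, sub_self]
    · rw [hr', coeff_sub, coeff_C_mul]
      have h1 : r.coeff k = 0 := by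
        apply coeff_eq_zero_of_degree_lt
        refine lt_of_lt_of_le hr ?_
        exact_mod_cast (by omega : m ≤ k)
      have h2 : (∏ i ∈ s.erase i0, (X - C (α i))).coeff k = 0 := by
        apply coeff_eq_zero_of_natDegree_lt
        rw [hdeg]; exact h
      rw [h1, h2, mul_zero, sub_zero]
  set h : ℂ → ℂ := fun z => r'.eval z / ∏ i ∈ s, (z - α i) with hh
  set S : ℝ := ∑ k ∈ Finset.range (m - 1), ‖r'.coeff k‖ with hS
  have hS0 : 0 ≤ S := Finset.sum_nonneg fun _ _ => norm_nonneg _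
  set A : ℝ := ∑ i ∈ s, ‖α i‖ with hA
  have hA0 : 0 ≤ A := Finset.sum_nonneg fun _ _ => norm_nonneg _
  have hbound : ∀ z : ℂ, max 1 (2 * A) ≤ ‖z‖ → ‖h z‖ ≤ (S * 2 ^ m) / ‖z‖ ^ 2 := by
    intro z hz
    have hz1 : 1 ≤ ‖z‖ := le_trans (le_max_left _ _) hz
    have hzA : 2 * A ≤ ‖z‖ := le_trans (le_max_right _ _) hz
    have hz0 : 0 < ‖z‖ := by linarith
    have hnum : ‖r'.eval z‖ * ‖z‖ ^ 2 ≤ S * ‖z‖ ^ m := by
      have e1 : r'.eval z = ∑ k ∈ Finset.range (m - 1), r'.coeff k * z ^ k := by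
        rw [eval_eq_sum_range' (n := r'.natDegree + 1 + (m - 1)) (by omega)]
        symm
        apply Finset.sum_subset (Finset.range_mono (by omega))
        intro k _ hk
        rw [Finset.mem_range, not_lt] at hk
        rw [hcoef k hk, zero_mul]
      rw [e1, hS, Finset.sum_mul]
      refine (mul_le_mul_of_nonneg_right (norm_sum_le _ _) (by positivity)).trans ?_
      rw [Finset.sum_mul]
      apply Finset.sum_le_sum
      intro k hk
      rw [Finset.mem_range] at hk
      rw [norm_mul, norm_pow, mul_assoc, ← pow_add]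
      apply mul_le_mul_of_nonneg_left _ (norm_nonneg _)
      apply pow_le_pow_right₀ hz1
      omega
    have hden : (‖z‖ / 2) ^ m ≤ ‖∏ i ∈ s, (z - α i)‖ := by
      rw [norm_prod, hm, ← Finset.prod_const]
      apply Finset.prod_le_prod
      · intro i _; positivity
      · intro i hi
        have h1 : ‖α i‖ ≤ A := Finset.single_le_sum (f := fun i => ‖α i‖)
          (fun _ _ => norm_nonneg _) hi
        have h2 := norm_sub_norm_le z (α i)
        linarith
    have hden0 : 0 < (‖z‖ / 2) ^ m := by positivity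
    rw [hh]
    simp only
    rw [norm_div, div_le_div_iff₀ (lt_of_lt_of_le hden0 hden) (by positivity)]
    calc ‖r'.eval z‖ * ‖z‖ ^ 2 ≤ S * ‖z‖ ^ m := hnum
      _ = S * 2 ^ m * (‖z‖ / 2) ^ m := by
          rw [div_pow]; field_simp
      _ ≤ S * 2 ^ m * ‖∏ i ∈ s, (z - α i)‖ := by gcongr
  have hdiff : ∀ z : ℂ, z.im ≤ 0 → DifferentiableAt ℂ h z := by
    intro z hz
    apply DifferentiableAt.div
    · exact r'.differentiable z
    · fun_prop
    · rw [Finset.prod_ne_zero_iff]
      intro i hi h0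
      have : z = α i := sub_eq_zero.mp h0
      rw [this] at hz
      exact absurd (hα i hi) (not_lt.mpr hz)
  have t1 := tendsto_integral_of_lower h (S * 2 ^ m) (max 1 (2 * A)) (by positivity) hdiff hbound
  have t2 := (tendsto_integral_inv_upper (hα i0 hi0)).const_mul c
  have t3 := t1.add t2
  have e : (fun T : ℝ => (∫ x in (-T)..T, h (x : ℂ)) + c * ∫ x in (-T)..T, ((x : ℂ) - α i0)⁻¹) =
      fun T : ℝ => ∫ x in (-T)..T, r.eval (x : ℂ) / ∏ i ∈ s, ((x : ℂ) - α i) := by
    funext T
    rw [← intervalIntegral.integral_const_mul, ← intervalIntegral.integral_add]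
    · apply intervalIntegral.integral_congr
      intro x _
      simp only [hh, hr', eval_sub, eval_mul, eval_C, eval_prod, eval_X]
      rw [← Finset.mul_prod_erase s _ hi0]
      have n1 : (x : ℂ) - α i0 ≠ 0 := sub_ne_zero_of_im (hα i0 hi0).ne' x
      have n2 : ∏ i ∈ s.erase i0, ((x : ℂ) - α i) ≠ 0 := by
        rw [Finset.prod_ne_zero_iff]
        intro i hi
        exact sub_ne_zero_of_im (hα i (Finset.mem_of_mem_erase hi)).ne' x
      field_simp
      ring
    · apply Continuous.intervalIntegrable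
      apply Continuous.div
      · exact r'.continuous.comp Complex.continuous_ofReal
      · fun_prop
      · intro x
        rw [Finset.prod_ne_zero_iff]
        intro i hi
        exact sub_ne_zero_of_im (hα i hi).ne' x
    · apply Continuous.intervalIntegrable
      apply Continuous.mul continuous_const
      apply Continuous.inv₀ (by fun_prop)
      intro x
      exact sub_ne_zero_of_im (hα i0 hi0).ne' x
  rw [e] at t3
  convert t3 using 2
  ring

theorem tendsto_integral_lower {ι : Type*} [DecidableEq ι] (s : Finset ι) (α : ι → ℂ)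
    (hα : ∀ i ∈ s, (α i).im < 0) (r : ℂ[X]) (hr : r.degree < s.card) :
    Tendsto (fun T : ℝ => ∫ x in (-T)..T, r.eval (x : ℂ) / ∏ i ∈ s, ((x : ℂ) - α i)) atTop
      (𝓝 (-(Real.pi * Complex.I * r.coeff (s.card - 1)))) := by
  have h1 := tendsto_integral_upper s (fun i => (starRingEnd ℂ) (α i))
    (fun i hi => by simpa using hα i hi) (r.map (starRingEnd ℂ))
    (lt_of_le_of_lt degree_map_le hr)
  have h2 := (Complex.continuous_conj.tendsto _).comp h1
  have e : ((starRingEnd ℂ) ∘ fun T : ℝ => ∫ x in (-T)..T,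
      (r.map (starRingEnd ℂ)).eval (x : ℂ) / ∏ i ∈ s, ((x : ℂ) - (starRingEnd ℂ) (α i))) =
      fun T : ℝ => ∫ x in (-T)..T, r.eval (x : ℂ) / ∏ i ∈ s, ((x : ℂ) - α i) := by
    funext T
    simp only [Function.comp_apply]
    rw [intervalIntegral.intervalIntegral_eq_integral_uIoc,
      intervalIntegral.intervalIntegral_eq_integral_uIoc, Complex.real_smul, Complex.real_smul,
      map_mul, Complex.conj_ofReal, ← integral_conj]
    congr 2
    funext x
    rw [map_div₀, map_prod]
    congr 1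
    · have : ((x : ℝ) : ℂ) = (starRingEnd ℂ) (x : ℂ) := (Complex.conj_ofReal x).symm
      rw [this, eval_map, eval₂_at_apply]
      simp
    · apply Finset.prod_congr rfl
      intro i _
      simp
  rw [e] at h2
  convert h2 using 2
  simp

theorem polynomial_pv_zero (q : ℂ[X]) (L : ℂ)
    (h : Tendsto (fun T : ℝ => ∫ x in (-T)..T, q.eval (x : ℂ)) atTop (𝓝 L)) : L = 0 := by
  set W : ℂ[X] := ∑ k ∈ Finset.range (q.natDegree + 1),
    C (q.coeff k / (k + 1)) * (X ^ (k + 1) - (-X) ^ (k + 1)) with hW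
  have e : ∀ T : ℝ, ∫ x in (-T)..T, q.eval (x : ℂ) = W.eval (T : ℂ) := by
    intro T
    have h1 : ∀ x : ℝ, q.eval (x : ℂ) = ∑ k ∈ Finset.range (q.natDegree + 1),
        q.coeff k * (x : ℂ) ^ k := fun x => eval_eq_sum_range (x : ℂ)
    simp_rw [h1]
    rw [intervalIntegral.integral_finsetSum]
    · rw [hW, eval_finsetSum]
      apply Finset.sum_congr rfl
      intro k _
      rw [intervalIntegral.integral_const_mul]
      have h2 : ∫ x in (-T)..T, (x : ℂ) ^ k =
          ((T : ℂ) ^ (k + 1) - (-(T : ℂ)) ^ (k + 1)) / (k + 1) := by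
        have h3 : ∫ x in (-T)..T, (x : ℂ) ^ k = ((∫ x in (-T)..T, x ^ k : ℝ) : ℂ) := by
          rw [← intervalIntegral.integral_ofReal]
          congr 1
          funext x
          push_cast
          rfl
        rw [h3, integral_pow]
        push_cast
        rfl
      rw [h2]
      simp
      ring
    · intro k _
      apply Continuous.intervalIntegrable
      fun_prop
  simp_rw [e] at h
  by_cases hdeg : 0 < W.degree
  · exfalso
    have h1 : Tendsto (fun T : ℝ => ‖(T : ℂ)‖) atTop atTop := by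
      simp only [Complex.norm_real, Real.norm_eq_abs]
      exact tendsto_abs_atTop_atTop
    have h2 := Polynomial.tendsto_norm_atTop W hdeg h1
    exact not_tendsto_nhds_of_tendsto_atTop h2 _ h.norm
  · have h1 : W = C (W.coeff 0) := eq_C_of_degree_le_zero (not_lt.mp hdeg)
    have h2 : W.coeff 0 = 0 := by
      rw [coeff_zero_eq_eval_zero, hW, eval_finsetSum]
      apply Finset.sum_eq_zero
      intro k _
      simp
    rw [h2, C_0] at h1
    rw [h1] at h
    simp only [eval_zero] at h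
    exact (tendsto_nhds_unique h tendsto_const_nhds)

theorem exists_bezout {R : Type*} [CommRing R] {ι κ : Type*} (s : Finset ι) (t : Finset κ)
    (α : ι → R) (β : κ → R) :
    ∃ S T : R[X], S * ∏ i ∈ s, (X - C (α i)) + T * ∏ j ∈ t, (X - C (β j)) =
      C (∏ i ∈ s, ∏ j ∈ t, (α i - β j)) := by
  classical
  induction s using Finset.induction_on with
  | empty => exact ⟨1, 0, by simp⟩
  | insert i s hi ih =>
    obtain ⟨S, T, hST⟩ := ih
    obtain ⟨q, hq⟩ := X_sub_C_dvd_sub_C_eval (a := α i) (p := ∏ j ∈ t, (X - C (β j)))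
    rw [eval_prod] at hq
    simp only [eval_sub, eval_X, eval_C] at hq
    refine ⟨-(S * q), S * ∏ i ∈ s, (X - C (α i)) + T * ∏ j ∈ t, (X - C (β j)) -
      T * (X - C (α i)) * q, ?_⟩
    rw [Finset.prod_insert hi, Finset.prod_insert hi, C_mul, ← hST]
    have : C (∏ j ∈ t, (α i - β j)) = ∏ j ∈ t, (X - C (β j)) - (X - C (α i)) * q := by
      rw [← hq]; ring
    rw [this]
    ring

theorem slice {R : Type*} [CommRing R] [Nontrivial R] {ι κ : Type*} [Fintype ι] [Fintype κ]
    (α : ι → R) (β : κ → R) (p : R[X]) :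
    ∃ G : R, ∀ φ : R →+* ℂ, (∀ i, 0 < (φ (α i)).im) → (∀ j, (φ (β j)).im < 0) →
      Integrable (fun t : ℝ => (p.map φ).eval (t : ℂ) /
        ((∏ i, ((t : ℂ) - φ (α i))) * ∏ j, ((t : ℂ) - φ (β j)))) →
      ∫ t : ℝ, (p.map φ).eval (t : ℂ) /
        ((∏ i, ((t : ℂ) - φ (α i))) * ∏ j, ((t : ℂ) - φ (β j))) =
        Real.pi * (Complex.I * φ G / ∏ i, ∏ j, (φ (α i) - φ (β j))) := by
  classical
  obtain ⟨S, T, hST⟩ := exists_bezout Finset.univ Finset.univ α β
  set A := ∏ i, (X - C (α i)) with hA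
  set B := ∏ j, (X - C (β j)) with hB
  have hAm : A.Monic := monic_prod_X_sub_C _ _
  have hBm : B.Monic := monic_prod_X_sub_C _ _
  have hAd : A.degree = (Fintype.card ι : WithBot ℕ) := by
    rw [degree_eq_natDegree hAm.ne_zero, hA, natDegree_finsetProd_X_sub_C_eq_card]
    simp
  have hBd : B.degree = (Fintype.card κ : WithBot ℕ) := by
    rw [degree_eq_natDegree hBm.ne_zero, hB, natDegree_finsetProd_X_sub_C_eq_card]
    simp
  set r1 := (p * T) %ₘ A with hr1
  set r2 := (p * S) %ₘ B with hr2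
  refine ⟨r1.coeff (Fintype.card ι - 1) - r2.coeff (Fintype.card κ - 1), ?_⟩
  intro φ hα hβ hint
  set q := (p * T) /ₘ A + (p * S) /ₘ B with hq
  set E := ∏ i, ∏ j, (α i - β j) with hE
  have key : C E * p = q * A * B + r1 * B + r2 * A := by
    have h1 := modByMonic_add_div (p * T) A
    have h2 := modByMonic_add_div (p * S) B
    rw [← hST, hq]
    linear_combination (-B) * h1 - A * h2
  have hφE : φ E = ∏ i, ∏ j, (φ (α i) - φ (β j)) := by
    simp [hE, map_prod]
  have hE0 : φ E ≠ 0 := by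
    rw [hφE, Finset.prod_ne_zero_iff]
    intro i _
    rw [Finset.prod_ne_zero_iff]
    intro j _ h0
    have h1 : (φ (α i) - φ (β j)).im = 0 := by rw [h0]; rfl
    rw [Complex.sub_im] at h1
    have := hα i; have := hβ j
    linarith
  have hAe : ∀ t : ℝ, (A.map φ).eval (t : ℂ) = ∏ i, ((t : ℂ) - φ (α i)) := by
    intro t
    simp [hA, Polynomial.map_prod, eval_prod]
  have hBe : ∀ t : ℝ, (B.map φ).eval (t : ℂ) = ∏ j, ((t : ℂ) - φ (β j)) := by
    intro t
    simp [hB, Polynomial.map_prod, eval_prod]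
  have hA0 : ∀ t : ℝ, ∏ i, ((t : ℂ) - φ (α i)) ≠ 0 := by
    intro t
    rw [Finset.prod_ne_zero_iff]
    intro i _
    exact sub_ne_zero_of_im (hα i).ne' t
  have hB0 : ∀ t : ℝ, ∏ j, ((t : ℂ) - φ (β j)) ≠ 0 := by
    intro t
    rw [Finset.prod_ne_zero_iff]
    intro j _
    exact sub_ne_zero_of_im (hβ j).ne t
  set w : ℝ → ℂ := fun t => (p.map φ).eval (t : ℂ) /
        ((∏ i, ((t : ℂ) - φ (α i))) * ∏ j, ((t : ℂ) - φ (β j))) with hw
  have hwe : ∀ t : ℝ, φ E * w t = (q.map φ).eval (t : ℂ) +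
      (r1.map φ).eval (t : ℂ) / ∏ i, ((t : ℂ) - φ (α i)) +
      (r2.map φ).eval (t : ℂ) / ∏ j, ((t : ℂ) - φ (β j)) := by
    intro t
    have h1 := congrArg (fun f => (f.map φ).eval (t : ℂ)) key
    simp only [Polynomial.map_mul, Polynomial.map_add, map_C, eval_mul, eval_add, eval_C,
      hAe, hBe] at h1
    simp only [hw]
    have ha := hA0 t
    have hb := hB0 t
    field_simp
    linear_combination h1
  have c1 : Continuous (fun t : ℝ => (r1.map φ).eval (t : ℂ) / ∏ i, ((t : ℂ) - φ (α i))) := by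
    apply Continuous.div _ _ hA0
    · exact (r1.map φ).continuous.comp Complex.continuous_ofReal
    · fun_prop
  have c2 : Continuous (fun t : ℝ => (r2.map φ).eval (t : ℂ) / ∏ j, ((t : ℂ) - φ (β j))) := by
    apply Continuous.div _ _ hB0
    · exact (r2.map φ).continuous.comp Complex.continuous_ofReal
    · fun_prop
  have c3 : Continuous (fun t : ℝ => (q.map φ).eval (t : ℂ)) :=
    (q.map φ).continuous.comp Complex.continuous_ofReal
  have t0 : Tendsto (fun T : ℝ => ∫ t in (-T)..T, φ E * w t) atTop (𝓝 (∫ t, φ E * w t)) :=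
    intervalIntegral_tendsto_integral (hint.const_mul _) tendsto_neg_atTop_atBot tendsto_id
  have t1 := tendsto_integral_upper Finset.univ (fun i => φ (α i)) (fun i _ => hα i)
    (r1.map φ) (by
      refine lt_of_le_of_lt degree_map_le ?_
      rw [Finset.card_univ, ← hAd]
      exact degree_modByMonic_lt _ hAm)
  have t2 := tendsto_integral_lower Finset.univ (fun j => φ (β j)) (fun j _ => hβ j)
    (r2.map φ) (by
      refine lt_of_le_of_lt degree_map_le ?_
      rw [Finset.card_univ, ← hBd]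
      exact degree_modByMonic_lt _ hBm)
  have t3 := (t0.sub t1).sub t2
  have e3 : (fun T : ℝ => (∫ t in (-T)..T, φ E * w t) -
      (∫ t in (-T)..T, (r1.map φ).eval (t : ℂ) / ∏ i, ((t : ℂ) - φ (α i))) -
      (∫ t in (-T)..T, (r2.map φ).eval (t : ℂ) / ∏ j, ((t : ℂ) - φ (β j)))) =
      fun T : ℝ => ∫ t in (-T)..T, (q.map φ).eval (t : ℂ) := by
    funext T
    simp_rw [hwe]
    rw [intervalIntegral.integral_add, intervalIntegral.integral_add]
    · ring
    · exact c3.intervalIntegrable _ _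
    · exact c1.intervalIntegrable _ _
    · exact (c3.add c1).intervalIntegrable _ _
    · exact c2.intervalIntegrable _ _
  rw [e3] at t3
  have t4 := polynomial_pv_zero _ _ t3
  rw [integral_const_mul, Finset.card_univ, Finset.card_univ, coeff_map, coeff_map] at t4
  rw [← hφE, map_sub]
  field_simp
  linear_combination t4


theorem fubini_cons {n : ℕ} (f : (Fin (n + 1) → ℝ) → ℂ) (hf : Integrable f) :
    (∀ᵐ x : Fin n → ℝ, Integrable (fun t : ℝ => f (Fin.cons t x))) ∧
    Integrable (fun x : Fin n → ℝ => ∫ t : ℝ, f (Fin.cons t x)) ∧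
    ∫ x, f x = ∫ x : Fin n → ℝ, ∫ t : ℝ, f (Fin.cons t x) := by
  have hm := (volume_preserving_piFinSuccAbove (fun _ : Fin (n + 1) => ℝ) 0).symm
  set e := (MeasurableEquiv.piFinSuccAbove (fun _ : Fin (n + 1) => ℝ) 0).symm with he
  have hec : ∀ (t : ℝ) (x : Fin n → ℝ), e (t, x) = Fin.cons t x := by
    intro t x
    simp [he, MeasurableEquiv.piFinSuccAbove_symm_apply, Fin.insertNthEquiv]
  have h1 : Integrable (fun z : ℝ × (Fin n → ℝ) => f (e z))
      ((volume : Measure ℝ).prod (volume : Measure (Fin n → ℝ))) :=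
    (hm.integrable_comp_emb e.measurableEmbedding).mpr hf
  have h2 := h1.prod_left_ae
  have h3 := h1.integral_prod_right
  simp only [hec] at h2 h3
  refine ⟨h2, h3, ?_⟩
  have h4 : ∫ x, f x = ∫ z : ℝ × (Fin n → ℝ), f (e z) := (hm.integral_comp e.measurableEmbedding f).symm
  rw [h4]
  have h5 := integral_prod_symm (fun z : ℝ × (Fin n → ℝ) => f (e z)) h1
  simp only [hec] at h5
  refine Eq.trans ?_ h5
  rw [← Measure.volume_eq_prod]
  congr 1
  funext z
  exact congrArg f (hec z.1 z.2)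

theorem eval_finSucc {A : Subfield ℂ} {n : ℕ} (P : MvPolynomial (Fin (n + 1)) A) (t : ℝ)
    (x : Fin n → ℝ) :
    MvPolynomial.aeval (fun k => (((Fin.cons t x : Fin (n + 1) → ℝ) k : ℝ) : ℂ)) P =
      ((MvPolynomial.finSuccEquiv A n P).map
        ((MvPolynomial.aeval (R := A) (fun k : Fin n => ((x k : ℝ) : ℂ)) :
          MvPolynomial (Fin n) A →ₐ[A] ℂ) : MvPolynomial (Fin n) A →+* ℂ)).eval (t : ℂ) := by
  induction P using MvPolynomial.induction_on with
  | C a =>
    rw [MvPolynomial.finSuccEquiv_apply]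
    simp
  | add p q hp hq => simp only [map_add, Polynomial.map_add, eval_add, hp, hq]
  | mul_X p i hp =>
    rw [map_mul, map_mul, Polynomial.map_mul, eval_mul, hp]
    congr 1
    refine Fin.cases ?_ (fun j => ?_) i
    · rw [MvPolynomial.finSuccEquiv_X_zero]; simp
    · rw [MvPolynomial.finSuccEquiv_X_succ]; simp


noncomputable def form {n : ℕ} (c : Fin n → ℝ) (r : ℂ) (x : Fin n → ℝ) : ℂ :=
  (∑ k, (c k : ℂ) * (x k : ℂ)) - r

theorem form_im {n : ℕ} (c : Fin n → ℝ) (r : ℂ) (x : Fin n → ℝ) : (form c r x).im = -r.im := by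
  simp [form]

theorem form_ne_zero {n : ℕ} (c : Fin n → ℝ) {r : ℂ} (hr : r.im ≠ 0) (x : Fin n → ℝ) :
    form c r x ≠ 0 := by
  intro h
  have := form_im c r x
  rw [h] at this
  simp at this
  exact hr this

theorem form_cons {n : ℕ} (c : Fin (n + 1) → ℝ) (r : ℂ) (t : ℝ) (x : Fin n → ℝ) :
    form c r (Fin.cons t x) = (c 0 : ℂ) * t + form (fun k => c k.succ) r x := by
  simp [form, Fin.sum_univ_succ]
  ring

theorem aeval_affine {A : Subfield ℂ} {n : ℕ} (x : Fin n → ℝ) (r : A) (c : Fin n → A) :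
    (MvPolynomial.aeval (R := A) (fun k : Fin n => ((x k : ℝ) : ℂ)))
      (MvPolynomial.C r - ∑ k : Fin n, MvPolynomial.C (c k) * MvPolynomial.X k) =
    (r : ℂ) - ∑ k : Fin n, (c k : ℂ) * x k := by
  have h1 : ∀ z : A, (algebraMap A ℂ) z = (z : ℂ) := fun z => rfl
  rw [map_sub, map_sum, MvPolynomial.aeval_C, h1]
  congr 1
  apply Finset.sum_congr rfl
  intro k _
  rw [map_mul, MvPolynomial.aeval_C, MvPolynomial.aeval_X, h1]

theorem planeWave (A : Subfield ℂ) (hI : Complex.I ∈ A) (n : ℕ) :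
    ∀ {ι : Type} [Fintype ι] (c : ι → Fin n → ℝ) (ρ : ι → ℂ),
      (∀ i k, (c i k : ℂ) ∈ A) → (∀ i, ρ i ∈ A) → (∀ i, (ρ i).im ≠ 0) →
      ∀ P : MvPolynomial (Fin n) A,
      Integrable (fun x : Fin n → ℝ =>
        MvPolynomial.aeval (fun k => (x k : ℂ)) P / ∏ i, form (c i) (ρ i) x) →
      ∃ a ∈ A, ∫ x : Fin n → ℝ,
        MvPolynomial.aeval (fun k => (x k : ℂ)) P / ∏ i, form (c i) (ρ i) x =
          a * (Real.pi : ℂ) ^ n := by
  classical
  induction n with
  | zero =>
    intro ι _ c ρ hc hρ him P hint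
    refine ⟨((MvPolynomial.coeff 0 P : A) : ℂ) / ∏ i, (-ρ i), ?_, ?_⟩
    · apply A.div_mem (Subtype.coe_prop _)
      apply A.prod_mem
      intro i _
      exact A.neg_mem (hρ i)
    · have h0 : ∀ x : Fin 0 → ℝ,
          MvPolynomial.aeval (fun k => (x k : ℂ)) P / ∏ i, form (c i) (ρ i) x =
          ((MvPolynomial.coeff 0 P : A) : ℂ) / ∏ i, (-ρ i) := by
        intro x
        congr 1
        · rw [MvPolynomial.eq_C_of_isEmpty P]
          simp
          rfl
        · simp [form]
      simp_rw [h0]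
      have hv : (volume : Measure (Fin 0 → ℝ)) = Measure.dirac isEmptyElim :=
        Measure.pi_of_empty _ _
      rw [hv, integral_dirac]
      simp
  | succ n ih =>
    intro ι _ c ρ hc hρ him P hint
    obtain ⟨hF1, hF2, hF3⟩ := fubini_cons _ hint
    let Z := {i : ι // c i 0 = 0}
    let W := {i : ι // ¬ c i 0 = 0}
    let U := {w : W // 0 < (ρ w.1).im / c w.1 0}
    let L := {w : W // ¬ 0 < (ρ w.1).im / c w.1 0}
    let R := MvPolynomial (Fin n) A
    let α : W → R := fun w => MvPolynomial.C ⟨ρ w.1 / c w.1 0, A.div_mem (hρ _) (hc _ _)⟩ -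
      ∑ k : Fin n, MvPolynomial.C ⟨c w.1 k.succ / c w.1 0, A.div_mem (hc _ _) (hc _ _)⟩ *
        MvPolynomial.X k
    let φ : (Fin n → ℝ) → R →+* ℂ := fun x =>
      ((MvPolynomial.aeval (R := A) (fun k : Fin n => ((x k : ℝ) : ℂ)) :
          MvPolynomial (Fin n) A →ₐ[A] ℂ) : MvPolynomial (Fin n) A →+* ℂ)
    have hφα : ∀ x w, φ x (α w) = -(form (fun k => c w.1 k.succ) (ρ w.1) x) / c w.1 0 := by
      intro x w
      have h2 : φ x (α w) = (ρ w.1 / c w.1 0) - ∑ k : Fin n, (c w.1 k.succ / c w.1 0 : ℂ) * x k :=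
        aeval_affine x ⟨ρ w.1 / c w.1 0, A.div_mem (hρ _) (hc _ _)⟩
          (fun k => ⟨c w.1 k.succ / c w.1 0, A.div_mem (hc _ _) (hc _ _)⟩)
      rw [h2, form, neg_sub, sub_div, Finset.sum_div]
      congr 1
      apply Finset.sum_congr rfl
      intro k _
      ring
    have hφim : ∀ x w, (φ x (α w)).im = (ρ w.1).im / c w.1 0 := by
      intro x w
      rw [hφα, Complex.div_ofReal_im, Complex.neg_im, form_im, neg_neg]
    obtain ⟨G, hG⟩ := slice (fun u : U => α u.1) (fun l : L => α l.1)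
      (MvPolynomial.finSuccEquiv A n P)
    have hU : ∀ x (u : U), 0 < (φ x (α u.1)).im := fun x u => by rw [hφim]; exact u.2
    have hL : ∀ x (l : L), (φ x (α l.1)).im < 0 := fun x l => by
      rw [hφim]
      refine lt_of_le_of_ne (not_lt.mp l.2) ?_
      rw [Ne, div_eq_zero_iff, not_or]
      exact ⟨him _, l.1.2⟩
    let K : ℂ := ∏ w : W, (c w.1 0 : ℂ)⁻¹
    have hK : K ∈ A := A.prod_mem fun w _ => A.inv_mem (hc _ _)
    have hK0 : K ≠ 0 := by
      rw [Finset.prod_ne_zero_iff]
      intro w _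
      exact inv_ne_zero (by exact_mod_cast w.2)
    let D : (Fin n → ℝ) → ℂ := fun x => ∏ z : Z, form (fun k => c z.1 k.succ) (ρ z.1) x
    have hD0 : ∀ x, D x ≠ 0 := by
      intro x
      rw [Finset.prod_ne_zero_iff]
      intro z _
      exact form_ne_zero _ (him _) x
    have hf : ∀ (x : Fin n → ℝ) (t : ℝ),
        MvPolynomial.aeval (fun k => (((Fin.cons t x : Fin (n + 1) → ℝ) k : ℝ) : ℂ)) P /
          ∏ i, form (c i) (ρ i) (Fin.cons t x) =
        K / D x * (((MvPolynomial.finSuccEquiv A n P).map (φ x)).eval (t : ℂ) /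
          ((∏ u : U, ((t : ℂ) - φ x (α u.1))) * ∏ l : L, ((t : ℂ) - φ x (α l.1)))) := by
      intro x t
      rw [eval_finSucc]
      have h1 : ∏ i, form (c i) (ρ i) (Fin.cons t x) =
          D x * ∏ w : W, form (c w.1) (ρ w.1) (Fin.cons t x) := by
        rw [← Fintype.prod_subtype_mul_prod_subtype (fun i => c i 0 = 0)]
        congr 1
        apply Finset.prod_congr rfl
        intro z _
        rw [form_cons, z.2]
        simp
      have h2 : ∏ w : W, form (c w.1) (ρ w.1) (Fin.cons t x) =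
          (∏ w : W, (c w.1 0 : ℂ)) * ((∏ u : U, ((t : ℂ) - φ x (α u.1))) *
            ∏ l : L, ((t : ℂ) - φ x (α l.1))) := by
        rw [Fintype.prod_subtype_mul_prod_subtype (fun w : W => 0 < (ρ w.1).im / c w.1 0)
          (fun w : W => ((t : ℂ) - φ x (α w))), ← Finset.prod_mul_distrib]
        apply Finset.prod_congr rfl
        intro w _
        have hw : (c w.1 0 : ℂ) ≠ 0 := by exact_mod_cast w.2
        rw [form_cons, hφα]
        field_simp
        ring
      rw [h1, h2]
      simp only [K, Finset.prod_inv_distrib]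
      simp only [div_eq_mul_inv, mul_inv]
      ring
    let ι' := Z ⊕ (U × L)
    let c' : ι' → Fin n → ℝ := Sum.elim (fun z k => c z.1 k.succ)
      (fun p k => -(c p.1.1.1 k.succ / c p.1.1.1 0) + c p.2.1.1 k.succ / c p.2.1.1 0)
    let ρ' : ι' → ℂ := Sum.elim (fun z => ρ z.1)
      (fun p => -(ρ p.1.1.1 / c p.1.1.1 0) + ρ p.2.1.1 / c p.2.1.1 0)
    let P' : MvPolynomial (Fin n) A := MvPolynomial.C ⟨Complex.I * K, A.mul_mem hI hK⟩ * G
    have hform : ∀ x (p : U × L), form (c' (Sum.inr p)) (ρ' (Sum.inr p)) x =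
        φ x (α p.1.1) - φ x (α p.2.1) := by
      intro x p
      rw [hφα, hφα]
      simp only [c', ρ', Sum.elim_inr, form]
      push_cast
      rw [neg_sub, neg_sub, sub_div, sub_div, Finset.sum_div, Finset.sum_div]
      simp only [add_mul, Finset.sum_add_distrib]
      have h1 : ∀ (a b : ℂ) (y : Fin n → ℂ), a = 0 → b = 0 → a = b := by
        intro a b _ ha hb; rw [ha, hb]
      have h2 : ∑ k, -((c p.1.1.1 k.succ : ℂ) / (c p.1.1.1 0 : ℂ)) * (x k : ℂ) =
          -∑ k, (c p.1.1.1 k.succ : ℂ) * (x k : ℂ) / (c p.1.1.1 0 : ℂ) := by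
        rw [← Finset.sum_neg_distrib]
        apply Finset.sum_congr rfl
        intro k _; ring
      have h3 : ∑ k, ((c p.2.1.1 k.succ : ℂ) / (c p.2.1.1 0 : ℂ)) * (x k : ℂ) =
          ∑ k, (c p.2.1.1 k.succ : ℂ) * (x k : ℂ) / (c p.2.1.1 0 : ℂ) := by
        apply Finset.sum_congr rfl
        intro k _; ring
      rw [h2, h3]
      ring
    have hg : ∀ x : Fin n → ℝ,
        MvPolynomial.aeval (fun k => (x k : ℂ)) P' / ∏ i, form (c' i) (ρ' i) x =
        K / D x * (Complex.I * φ x G / ∏ u : U, ∏ l : L, (φ x (α u.1) - φ x (α l.1))) := by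
      intro x
      rw [Fintype.prod_sum_type, Fintype.prod_prod_type]
      simp only [hform]
      simp only [P', map_mul, MvPolynomial.aeval_C, c', ρ', Sum.elim_inl]
      have h1 : ∀ z : A, (algebraMap A ℂ) z = (z : ℂ) := fun z => rfl
      rw [h1]
      simp only [D, φ, RingHom.coe_coe, div_eq_mul_inv, mul_inv]
      ring
    have hslice : ∀ᵐ x : Fin n → ℝ, ∫ t : ℝ,
        MvPolynomial.aeval (fun k => (((Fin.cons t x : Fin (n + 1) → ℝ) k : ℝ) : ℂ)) P /
          ∏ i, form (c i) (ρ i) (Fin.cons t x) =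
        (Real.pi : ℂ) * (MvPolynomial.aeval (fun k => (x k : ℂ)) P' /
          ∏ i, form (c' i) (ρ' i) x) := by
      filter_upwards [hF1] with x hx
      rw [hg]
      simp_rw [hf] at hx ⊢
      have hKD : K / D x ≠ 0 := div_ne_zero hK0 (hD0 x)
      rw [integrable_const_mul_iff (isUnit_iff_ne_zero.mpr hKD)] at hx
      rw [integral_const_mul, hG (φ x) (hU x) (hL x) hx]
      ring
    have hpi : (Real.pi : ℂ) ≠ 0 := by exact_mod_cast Real.pi_ne_zero
    have hint' : Integrable (fun x : Fin n → ℝ =>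
        MvPolynomial.aeval (fun k => (x k : ℂ)) P' / ∏ i, form (c' i) (ρ' i) x) := by
      have h1 := hF2.congr hslice
      rwa [integrable_const_mul_iff (isUnit_iff_ne_zero.mpr hpi)] at h1
    obtain ⟨a, ha, ha'⟩ := ih c' ρ' (by
        rintro (z | p) k
        · exact hc _ _
        · simp only [c', Sum.elim_inr]
          push_cast
          exact A.add_mem (A.neg_mem (A.div_mem (hc _ _) (hc _ _))) (A.div_mem (hc _ _) (hc _ _)))
      (by
        rintro (z | p)
        · exact hρ _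
        · simp only [ρ', Sum.elim_inr]
          exact A.add_mem (A.neg_mem (A.div_mem (hρ _) (hc _ _))) (A.div_mem (hρ _) (hc _ _)))
      (by
        rintro (z | p)
        · exact him _
        · have h1 := hform 0 p
          have h2 := form_im (c' (Sum.inr p)) (ρ' (Sum.inr p)) 0
          rw [h1, Complex.sub_im] at h2
          have h3 := hU 0 p.1
          have h4 := hL 0 p.2
          intro h5
          rw [h5] at h2
          linarith)
      P' hint'
    refine ⟨a, ha, ?_⟩
    rw [hF3, integral_congr_ae hslice, integral_const_mul, ha']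
    ring

end Pool.Agent.Helper23.PlaneWave
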