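import Mathlib

set_option autoImplicit false

open MeasureTheory

namespace Pool.Agent.Helper23.PeriodDefs

noncomputable abbrev RealAlg : IntermediateField ℚ ℝ := algebraicClosure ℚ ℝ

abbrev MultiPoly (n : ℕ) : Type := MvPolynomial (Fin n) RealAlg

abbrev OnePoly : Type := Polynomial RealAlg

noncomputable def evalMulti {n : ℕ} (P : MultiPoly n) (x : Fin n → ℝ) : ℝ := MvPolynomial.aeval x P

noncomputable def evalOne (q : OnePoly) (t : ℝ) : ℝ := Polynomial.aeval t q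

noncomputable def dot {n : ℕ} (u : Fin n → RealAlg) (x : Fin n → ℝ) : ℝ := ∑ k, (u k : ℝ) * x k

noncomputable def quadraticForm {n : ℕ} (M : Fin n → Fin n → RealAlg) (x : Fin n → ℝ) : ℝ :=
  ∑ i, ∑ j, (M i j : ℝ) * x i * x j

noncomputable def quadratic {n : ℕ} (M : Fin n → Fin n → RealAlg) (b : Fin n → RealAlg)
    (c : RealAlg) (x : Fin n → ℝ) : ℝ :=
  quadraticForm M x + dot b x + (c : ℝ)

def PositiveDefinite {n : ℕ} (M : Fin n → Fin n → RealAlg) : Prop :=
  ∀ x : Fin n → ℝ, x ≠ 0 → 0 < quadraticForm M x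

noncomputable def ridgeIntegrand {n m : ℕ} (P : MultiPoly n) (q : Fin m → OnePoly)
    (u : Fin m → Fin n → RealAlg) (x : Fin n → ℝ) : ℝ :=
  evalMulti P x / ∏ j, evalOne (q j) (dot (u j) x)

def IsRidgeIntegral (v : ℝ) : Prop :=
  ∃ (n m : ℕ) (P : MultiPoly n) (q : Fin m → OnePoly) (u : Fin m → Fin n → RealAlg),
    (∀ (j : Fin m) (t : ℝ), evalOne (q j) t ≠ 0) ∧
    Integrable (ridgeIntegrand P q u) ∧ v = ∫ x, ridgeIntegrand P q u x

def IsQuadricIntegral (v : ℝ) : Prop :=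
  ∃ (n m : ℕ) (P : MultiPoly n) (M : Fin n → Fin n → RealAlg) (b : Fin n → RealAlg) (c : RealAlg),
    PositiveDefinite M ∧ (∀ x, 0 < quadratic M b c x) ∧
    Integrable (fun x => evalMulti P x / √(quadratic M b c x) ^ m) ∧
    v = ∫ x, evalMulti P x / √(quadratic M b c x) ^ m

def IsEllipsoidIntegral (v : ℝ) : Prop :=
  ∃ (n m : ℕ) (P : MultiPoly n) (M : Fin n → Fin n → RealAlg) (b : Fin n → RealAlg) (c : RealAlg),
    PositiveDefinite M ∧
    v = ∫ x in {x | quadratic M b c x ≤ 0}, evalMulti P x * √(-(quadratic M b c x)) ^ m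

noncomputable def periodRing : Subalgebra RealAlg ℝ :=
  Algebra.adjoin RealAlg {v : ℝ | IsRidgeIntegral v ∨ IsQuadricIntegral v ∨ IsEllipsoidIntegral v}

end Pool.Agent.Helper23.PeriodDefs
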