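import Mathlib

set_option autoImplicit false

open MeasureTheory Filter Topology Polynomial

namespace Pool.Agent.Helper23.Quadric

theorem one_le_sqrt (t : ℝ) : 1 ≤ √(1 + t ^ 2) := by
  rw [Real.one_le_sqrt]; nlinarith [sq_nonneg t]

theorem sqrt_pos' (t : ℝ) : 0 < √(1 + t ^ 2) := lt_of_lt_of_le one_pos (one_le_sqrt t)

theorem abs_le_sqrt' (t : ℝ) : |t| ≤ √(1 + t ^ 2) := by
  apply Real.abs_le_sqrt; linarith

theorem sq_sqrt' (t : ℝ) : √(1 + t ^ 2) ^ 2 = 1 + t ^ 2 := Real.sq_sqrt (by positivity)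

theorem cont_sqrt : Continuous (fun t : ℝ => √(1 + t ^ 2)) := by fun_prop

theorem integrable_J (k m : ℕ) (h : k + 1 < m) :
    Integrable (fun t : ℝ => t ^ k / √(1 + t ^ 2) ^ m) := by
  apply Integrable.mono' integrable_inv_one_add_sq
  · apply Continuous.aestronglyMeasurable
    apply Continuous.div (by fun_prop) (by fun_prop)
    intro t; exact pow_ne_zero _ (sqrt_pos' t).ne'
  · refine Eventually.of_forall fun t => ?_
    have h0 := sqrt_pos' t
    have h1 := one_le_sqrt t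
    have h5 : (1 + t ^ 2)⁻¹ = (√(1 + t ^ 2) ^ 2)⁻¹ := by rw [sq_sqrt']
    rw [norm_div, Real.norm_eq_abs, Real.norm_eq_abs, abs_pow, abs_of_pos (pow_pos h0 m),
      h5, div_le_iff₀ (pow_pos h0 m)]
    have h2 : |t| ^ k ≤ √(1 + t ^ 2) ^ k := pow_le_pow_left₀ (abs_nonneg t) (abs_le_sqrt' t) k
    have h3 : √(1 + t ^ 2) ^ k * √(1 + t ^ 2) ^ 2 ≤ √(1 + t ^ 2) ^ m := by
      rw [← pow_add]; exact pow_le_pow_right₀ h1 (by omega)
    have h4 : √(1 + t ^ 2) ^ k ≤ (√(1 + t ^ 2) ^ 2)⁻¹ * √(1 + t ^ 2) ^ m := by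
      rw [inv_mul_eq_div, le_div_iff₀ (pow_pos h0 2)]; exact h3
    exact h2.trans h4

theorem hasDerivAt_aux (m : ℕ) (t : ℝ) :
    HasDerivAt (fun t : ℝ => t / √(1 + t ^ 2) ^ m)
      ((1 - m) / √(1 + t ^ 2) ^ m + m / √(1 + t ^ 2) ^ (m + 2)) t := by
  have h0 := sqrt_pos' t
  have h1 : HasDerivAt (fun t : ℝ => √(1 + t ^ 2)) (t / √(1 + t ^ 2)) t := by
    have h2 : HasDerivAt (fun t : ℝ => 1 + t ^ 2) (2 * t) t := by
      simpa using ((hasDerivAt_id' t).fun_pow 2).const_add 1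
    have h3 := h2.sqrt (by positivity)
    refine h3.congr_deriv ?_
    field_simp
  have h4 := (hasDerivAt_id' t).fun_div (h1.fun_pow m) (pow_ne_zero _ h0.ne')
  refine h4.congr_deriv ?_
  have hs := sq_sqrt' t
  generalize √(1 + t ^ 2) = s at h0 hs
  have e3 : t ^ 2 = s ^ 2 - 1 := by rw [hs]; ring
  rcases m with _ | m
  · simp
  · simp only [Nat.cast_add, Nat.cast_one, Nat.add_sub_cancel]
    field_simp
    rw [e3]
    ring

theorem J_zero_rec (m : ℕ) (hm : 2 ≤ m) :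
    (m : ℝ) * ∫ t : ℝ, 1 / √(1 + t ^ 2) ^ (m + 2) = (m - 1) * ∫ t : ℝ, 1 / √(1 + t ^ 2) ^ m := by
  have i1 : Integrable (fun t : ℝ => 1 / √(1 + t ^ 2) ^ m) := by
    simpa using integrable_J 0 m (by omega)
  have i2 : Integrable (fun t : ℝ => 1 / √(1 + t ^ 2) ^ (m + 2)) := by
    simpa using integrable_J 0 (m + 2) (by omega)
  have hlim : ∀ l : Filter ℝ, Tendsto (fun t : ℝ => |t|) l atTop →
      Tendsto (fun t : ℝ => t / √(1 + t ^ 2) ^ m) l (𝓝 0) := by
    intro l hl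
    have h1 : Tendsto (fun t : ℝ => (|t|)⁻¹) l (𝓝 0) := tendsto_inv_atTop_zero.comp hl
    refine squeeze_zero_norm' ?_ h1
    filter_upwards [hl.eventually_gt_atTop 0] with t ht
    have h0 := sqrt_pos' t
    have h2 := one_le_sqrt t
    have h3 := abs_le_sqrt' t
    rw [norm_div, Real.norm_eq_abs, Real.norm_eq_abs, abs_of_pos (pow_pos h0 m),
      div_le_iff₀ (pow_pos h0 m), inv_mul_eq_div, le_div_iff₀ ht]
    calc |t| * |t| ≤ √(1 + t ^ 2) * √(1 + t ^ 2) := by gcongr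
      _ = √(1 + t ^ 2) ^ 2 := by ring
      _ ≤ √(1 + t ^ 2) ^ m := pow_le_pow_right₀ h2 hm
  have hint : Integrable (fun t : ℝ =>
      (1 - m) / √(1 + t ^ 2) ^ m + m / √(1 + t ^ 2) ^ (m + 2)) := by
    have h1 := (i1.const_mul (1 - (m : ℝ))).add (i2.const_mul (m : ℝ))
    refine h1.congr (Eventually.of_forall fun t => ?_)
    simp only [Pi.add_apply]
    ring
  have key := integral_of_hasDerivAt_of_tendsto (fun t => hasDerivAt_aux m t) hint
    (hlim atBot tendsto_abs_atBot_atTop) (hlim atTop tendsto_abs_atTop_atTop)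
  have h2 : ∫ t : ℝ, ((1 - m) / √(1 + t ^ 2) ^ m + m / √(1 + t ^ 2) ^ (m + 2)) =
      (1 - m) * (∫ t : ℝ, 1 / √(1 + t ^ 2) ^ m) + m * ∫ t : ℝ, 1 / √(1 + t ^ 2) ^ (m + 2) := by
    rw [← integral_const_mul, ← integral_const_mul, ← integral_add]
    · congr 1
      funext t
      ring
    · exact i1.const_mul _
    · exact i2.const_mul _
  rw [h2] at key
  linarith

theorem J_zero_two : ∫ t : ℝ, 1 / √(1 + t ^ 2) ^ 2 = Real.pi := by
  have : (fun t : ℝ => 1 / √(1 + t ^ 2) ^ 2) = fun t => (1 + t ^ 2)⁻¹ := by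
    funext t; rw [sq_sqrt', one_div]
  rw [this, integral_univ_inv_one_add_sq]

theorem J_zero_three : ∫ t : ℝ, 1 / √(1 + t ^ 2) ^ 3 = 2 := by
  have i2 : Integrable (fun t : ℝ => 1 / √(1 + t ^ 2) ^ 3) := by
    simpa using integrable_J 0 3 (by omega)
  have hd : ∀ t : ℝ, HasDerivAt (fun t : ℝ => t / √(1 + t ^ 2)) (1 / √(1 + t ^ 2) ^ 3) t := by
    intro t
    have := hasDerivAt_aux 1 t
    simpa using this
  have hlim : Tendsto (fun t : ℝ => t / √(1 + t ^ 2)) atTop (𝓝 1) := by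
    have h1 : Tendsto (fun t : ℝ => √(1 - 1 / (1 + t ^ 2))) atTop (𝓝 1) := by
      have h2 : Tendsto (fun t : ℝ => 1 - 1 / (1 + t ^ 2)) atTop (𝓝 (1 - 0)) := by
        apply Tendsto.const_sub
        apply Tendsto.const_div_atTop
        apply tendsto_atTop_add_const_left
        exact tendsto_pow_atTop two_ne_zero
      have h3 := (Real.continuous_sqrt.tendsto _).comp h2
      simpa [Function.comp_def] using h3
    refine h1.congr' ?_
    filter_upwards [eventually_gt_atTop 0] with t ht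
    have h0 : (0 : ℝ) < 1 + t ^ 2 := by positivity
    have h4 : 1 - 1 / (1 + t ^ 2) = t ^ 2 / (1 + t ^ 2) := by field_simp; ring
    rw [h4, Real.sqrt_div (by positivity), Real.sqrt_sq ht.le]
  have hlim' : Tendsto (fun t : ℝ => t / √(1 + t ^ 2)) atBot (𝓝 (-1)) := by
    have := (hlim.comp tendsto_neg_atBot_atTop).neg
    refine this.congr fun t => ?_
    simp only [Function.comp_apply, neg_sq]
    ring
  have key := integral_of_hasDerivAt_of_tendsto hd i2 hlim' hlim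
  rw [key]; norm_num

theorem J_even (j m : ℕ) (h : 2 * j + 1 < m) :
    ∃ r : ℚ, ∫ t : ℝ, t ^ (2 * j) / √(1 + t ^ 2) ^ m = r * Real.pi ^ ((m + 1) % 2) := by
  induction j generalizing m with
  | zero =>
    simp only [mul_zero, pow_zero]
    induction m using Nat.twoStepInduction with
    | zero => omega
    | one => omega
    | more m ih1 ih2 =>
      rcases m with _ | _ | m
      · exact ⟨1, by rw [J_zero_two]; simp⟩
      · exact ⟨2, by rw [J_zero_three]; simp⟩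
      · obtain ⟨r, hr⟩ := ih1 (by omega)
        have h1 := J_zero_rec (m + 1 + 1) (by omega)
        rw [hr] at h1
        refine ⟨((m + 1 + 1 : ℕ) - 1) / (m + 1 + 1 : ℕ) * r, ?_⟩
        have h2 : ((m + 1 + 1 : ℕ) : ℝ) ≠ 0 := by positivity
        have h3 : (m + 1 + 1 + 2 + 1) % 2 = (m + 1 + 1 + 1) % 2 := by omega
        rw [h3]
        push_cast at h1 h2 ⊢
        field_simp
        linear_combination h1
  | succ j ih =>
    obtain ⟨m, rfl⟩ : ∃ m', m = m' + 2 := ⟨m - 2, by omega⟩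
    obtain ⟨r1, h1⟩ := ih m (by omega)
    obtain ⟨r2, h2⟩ := ih (m + 2) (by omega)
    refine ⟨r1 - r2, ?_⟩
    have h3 : ∫ t : ℝ, t ^ (2 * (j + 1)) / √(1 + t ^ 2) ^ (m + 2) =
        (∫ t : ℝ, t ^ (2 * j) / √(1 + t ^ 2) ^ m) - ∫ t : ℝ, t ^ (2 * j) / √(1 + t ^ 2) ^ (m + 2) := by
      rw [← integral_sub (integrable_J _ _ (by omega)) (integrable_J _ _ (by omega))]
      congr 1
      funext t
      have h0 := sqrt_pos' t
      have hs := sq_sqrt' t
      generalize √(1 + t ^ 2) = s at h0 hs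
      have e3 : t ^ (2 * (j + 1)) = t ^ (2 * j) * (s ^ 2 - 1) := by rw [hs]; ring
      rw [e3]
      field_simp
      ring
    rw [h3, h1, h2]
    have h4 : (m + 2 + 1) % 2 = (m + 1) % 2 := by omega
    rw [h4]
    push_cast
    ring

theorem J_odd (k m : ℕ) (hk : Odd k) : ∫ t : ℝ, t ^ k / √(1 + t ^ 2) ^ m = 0 := by
  have h1 : ∫ t : ℝ, (-t) ^ k / √(1 + (-t) ^ 2) ^ m = ∫ t : ℝ, t ^ k / √(1 + t ^ 2) ^ m :=
    integral_neg_eq_self (fun t : ℝ => t ^ k / √(1 + t ^ 2) ^ m) volume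
  have h2 : ∫ t : ℝ, (-t) ^ k / √(1 + (-t) ^ 2) ^ m = -∫ t : ℝ, t ^ k / √(1 + t ^ 2) ^ m := by
    rw [← integral_neg]
    congr 1
    funext t
    rw [hk.neg_pow, neg_sq, neg_div]
  linarith

theorem J_scaled (k m : ℕ) {a q : ℝ} (ha : 0 < a) (hq : 0 < q) :
    ∫ s : ℝ, s ^ k / √(a * s ^ 2 + q) ^ m =
      (√q ^ (k + 1) / (√a ^ (k + 1) * √q ^ m)) * ∫ t : ℝ, t ^ k / √(1 + t ^ 2) ^ m := by
  have ha' : 0 < √a := Real.sqrt_pos.mpr ha
  have hq' : 0 < √q := Real.sqrt_pos.mpr hq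
  set c := √a / √q with hc
  have hc0 : 0 < c := div_pos ha' hq'
  have h1 : ∀ s : ℝ, s ^ k / √(a * s ^ 2 + q) ^ m =
      (1 / (√q ^ m * c ^ k)) * ((c * s) ^ k / √(1 + (c * s) ^ 2) ^ m) := by
    intro s
    have h2 : a * s ^ 2 + q = q * (1 + (c * s) ^ 2) := by
      rw [hc, mul_pow, div_pow, Real.sq_sqrt ha.le, Real.sq_sqrt hq.le]
      field_simp
      ring
    rw [h2, Real.sqrt_mul hq.le, mul_pow, mul_pow c s k]
    have h0 := sqrt_pos' (c * s)
    field_simp
  simp_rw [h1]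
  rw [integral_const_mul, Measure.integral_comp_mul_left (fun t : ℝ => t ^ k / √(1 + t ^ 2) ^ m) c,
    abs_of_pos (inv_pos.mpr hc0), smul_eq_mul, ← mul_assoc]
  congr 1
  rw [hc, div_pow]
  field_simp
  ring

theorem integrable_scaled (k m : ℕ) (h : k + 1 < m) {a q : ℝ} (ha : 0 < a) (hq : 0 < q) :
    Integrable (fun s : ℝ => s ^ k / √(a * s ^ 2 + q) ^ m) := by
  have ha' : 0 < √a := Real.sqrt_pos.mpr ha
  have hq' : 0 < √q := Real.sqrt_pos.mpr hq
  set c := √a / √q with hc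
  have hc0 : 0 < c := div_pos ha' hq'
  have h1 : ∀ s : ℝ, s ^ k / √(a * s ^ 2 + q) ^ m =
      (1 / (√q ^ m * c ^ k)) * ((c * s) ^ k / √(1 + (c * s) ^ 2) ^ m) := by
    intro s
    have h2 : a * s ^ 2 + q = q * (1 + (c * s) ^ 2) := by
      rw [hc, mul_pow, div_pow, Real.sq_sqrt ha.le, Real.sq_sqrt hq.le]
      field_simp
      ring
    rw [h2, Real.sqrt_mul hq.le, mul_pow, mul_pow c s k]
    have h0 := sqrt_pos' (c * s)
    field_simp
  simp_rw [h1]
  apply Integrable.const_mul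
  exact (integrable_J k m h).comp_mul_left' hc0.ne'

theorem coeff_eq_zero_of_integrable (p : ℝ[X]) (m : ℕ) {a q : ℝ} (ha : 0 < a) (hq : 0 < q)
    (hint : Integrable (fun s : ℝ => p.eval s / √(a * s ^ 2 + q) ^ m)) (k : ℕ) (hk : m ≤ k + 1) :
    p.coeff k = 0 := by
  by_contra hne
  have hdeg : (X ^ (m - 1) : ℝ[X]).degree ≤ p.degree := by
    rw [degree_X_pow]
    refine le_trans ?_ (le_degree_of_ne_zero hne)
    exact_mod_cast (by omega : m - 1 ≤ k)
  have hO := Polynomial.isBigO_atTop_of_degree_le _ _ hdeg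
  obtain ⟨C, hC⟩ := hO.bound
  simp only [eval_pow, eval_X] at hC
  obtain ⟨S, hS⟩ := Filter.eventually_atTop.mp hC
  set S' := max S 1 with hS'
  set D := √(a + q) with hD
  have hD0 : 0 < D := Real.sqrt_pos.mpr (by positivity)
  have key : ∀ s, S' < s → ‖s⁻¹‖ ≤ |C| * D ^ m * ‖p.eval s / √(a * s ^ 2 + q) ^ m‖ := by
    intro s hs
    have hs1 : 1 ≤ s := (le_max_right S 1).trans hs.le
    have hs0 : 0 < s := by linarith
    have h1 := hS s ((le_max_left S 1).trans hs.le)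
    rw [norm_pow, Real.norm_eq_abs, Real.norm_eq_abs, abs_of_pos hs0] at h1
    rw [norm_div, norm_pow, norm_inv, Real.norm_eq_abs, Real.norm_eq_abs,
      Real.norm_eq_abs, abs_of_pos hs0]
    have h2 : |√(a * s ^ 2 + q)| ≤ D * s := by
      rw [abs_of_nonneg (Real.sqrt_nonneg _), hD, ← Real.sqrt_sq hs0.le, ← Real.sqrt_mul (by positivity),
        Real.sqrt_sq hs0.le]
      apply Real.sqrt_le_sqrt
      have h6 : 1 ≤ s ^ 2 := one_le_pow₀ hs1
      nlinarith [mul_le_mul_of_nonneg_left h6 hq.le]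
    have h2' : 0 < |√(a * s ^ 2 + q)| := by
      rw [abs_pos]; exact (Real.sqrt_pos.mpr (by positivity)).ne'
    have h3 : |√(a * s ^ 2 + q)| ^ m ≤ D ^ m * s ^ m := by
      rw [← mul_pow]; exact pow_le_pow_left₀ h2'.le h2 m
    have h4 : s ^ (m - 1) ≤ |C| * |p.eval s| :=
      h1.trans (mul_le_mul_of_nonneg_right (le_abs_self C) (abs_nonneg _))
    have h5 : s ^ m ≤ s * s ^ (m - 1) := by
      rcases m with _ | m
      · simpa using hs1
      · simp [pow_succ, mul_comm]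
    rw [mul_div_assoc', le_div_iff₀ (by positivity), inv_mul_eq_div, div_le_iff₀ hs0]
    calc |√(a * s ^ 2 + q)| ^ m ≤ D ^ m * s ^ m := h3
      _ ≤ D ^ m * (s * s ^ (m - 1)) := by gcongr
      _ ≤ D ^ m * (s * (|C| * |p.eval s|)) := by gcongr
      _ = |C| * D ^ m * |p.eval s| * s := by ring
  apply not_integrableOn_Ioi_inv (a := S')
  have h1 : IntegrableOn (fun s : ℝ => |C| * D ^ m * ‖p.eval s / √(a * s ^ 2 + q) ^ m‖)
      (Set.Ioi S') := (hint.norm.const_mul _).integrableOn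
  refine Integrable.mono' h1 ?_ ?_
  · exact measurable_inv.aestronglyMeasurable
  · rw [ae_restrict_iff' measurableSet_Ioi]
    exact Eventually.of_forall key

theorem slice_whole (p : ℝ[X]) (m : ℕ) {a q : ℝ} (ha : 0 < a) (hq : 0 < q)
    (hint : Integrable (fun s : ℝ => p.eval s / √(a * s ^ 2 + q) ^ m)) :
    ∫ s : ℝ, p.eval s / √(a * s ^ 2 + q) ^ m =
      (∑ j ∈ (Finset.range m).filter (fun j => 2 * j + 1 < m),
        p.coeff (2 * j) * ((∫ t : ℝ, t ^ (2 * j) / √(1 + t ^ 2) ^ m) / √a ^ (2 * j + 1)) * q ^ j) /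
        √q ^ (m - 1) := by
  have hq' : 0 < √q := Real.sqrt_pos.mpr hq
  have hz := coeff_eq_zero_of_integrable p m ha hq hint
  have h1 : ∀ s : ℝ, p.eval s / √(a * s ^ 2 + q) ^ m =
      ∑ k ∈ Finset.range (m - 1), p.coeff k * (s ^ k / √(a * s ^ 2 + q) ^ m) := by
    intro s
    have e1 : p.eval s = ∑ k ∈ Finset.range (m - 1), p.coeff k * s ^ k := by
      rw [eval_eq_sum_range' (n := p.natDegree + 1 + (m - 1)) (by omega)]
      symm
      apply Finset.sum_subset (Finset.range_mono (by omega))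
      intro k _ hk
      rw [Finset.mem_range, not_lt] at hk
      rw [hz k (by omega), zero_mul]
    rw [e1, Finset.sum_div]
    apply Finset.sum_congr rfl
    intro k _
    ring
  simp_rw [h1]
  rw [integral_finsetSum _ (fun k hk => by
    rw [Finset.mem_range] at hk
    exact (integrable_scaled k m (by omega) ha hq).const_mul _)]
  simp_rw [integral_const_mul, J_scaled _ m ha hq]
  rw [Finset.sum_div]
  symm
  have hinj : Function.Injective (fun j : ℕ => 2 * j) := fun x y h => by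
    simpa using h
  rw [← Finset.sum_filter_add_sum_filter_not (Finset.range (m - 1)) (fun k => Even k)]
  have hodd : ∑ k ∈ (Finset.range (m - 1)).filter (fun k => ¬ Even k),
      p.coeff k * (√q ^ (k + 1) / (√a ^ (k + 1) * √q ^ m) *
        ∫ t : ℝ, t ^ k / √(1 + t ^ 2) ^ m) = 0 := by
    apply Finset.sum_eq_zero
    intro k hk
    rw [Finset.mem_filter, Nat.not_even_iff_odd] at hk
    rw [J_odd k m hk.2, mul_zero, mul_zero]
  rw [hodd, add_zero]
  apply Finset.sum_bij (fun j _ => 2 * j)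
  · intro j hj
    rw [Finset.mem_filter, Finset.mem_range] at hj ⊢
    exact ⟨by omega, even_two_mul j⟩
  · intro x _ y _ h
    exact hinj h
  · intro k hk
    rw [Finset.mem_filter, Finset.mem_range] at hk
    have hk2 := hk.2
    rw [Nat.even_iff] at hk2
    refine ⟨k / 2, ?_, ?_⟩
    · rw [Finset.mem_filter, Finset.mem_range]; omega
    · omega
  · intro j hj
    rw [Finset.mem_filter, Finset.mem_range] at hj
    obtain ⟨m', rfl⟩ : ∃ m', m = m' + 1 := ⟨m - 1, by omega⟩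
    have hqj : q ^ j = √q ^ (2 * j) := by rw [pow_mul, Real.sq_sqrt hq.le]
    rw [hqj, Nat.add_sub_cancel]
    have ha' : 0 < √a := Real.sqrt_pos.mpr ha
    field_simp
    ring

noncomputable def quad {n : ℕ} (M : Fin n → Fin n → ℝ) (b : Fin n → ℝ) (c : ℝ) (x : Fin n → ℝ) :
    ℝ := (∑ i, ∑ j, M i j * x i * x j) + (∑ i, b i * x i) + c

noncomputable def mix {n : ℕ} (M : Fin (n + 1) → Fin (n + 1) → ℝ) (k : Fin n) : ℝ :=
  M 0 k.succ + M k.succ 0

noncomputable def redM {n : ℕ} (M : Fin (n + 1) → Fin (n + 1) → ℝ) : Fin n → Fin n → ℝ :=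
  fun k l => M k.succ l.succ - mix M k * mix M l / (4 * M 0 0)

noncomputable def redb {n : ℕ} (M : Fin (n + 1) → Fin (n + 1) → ℝ) (b : Fin (n + 1) → ℝ) :
    Fin n → ℝ :=
  fun k => b k.succ - b 0 * mix M k / (2 * M 0 0)

noncomputable def redc {n : ℕ} (M : Fin (n + 1) → Fin (n + 1) → ℝ) (b : Fin (n + 1) → ℝ)
    (c : ℝ) : ℝ := c - b 0 ^ 2 / (4 * M 0 0)

noncomputable def lam {n : ℕ} (M : Fin (n + 1) → Fin (n + 1) → ℝ) (b0 : ℝ) (x : Fin n → ℝ) : ℝ :=
  ((∑ k, mix M k * x k) + b0) / (2 * M 0 0)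

theorem quad_cons {n : ℕ} (M : Fin (n + 1) → Fin (n + 1) → ℝ) (b : Fin (n + 1) → ℝ) (c : ℝ)
    (hM : M 0 0 ≠ 0) (t : ℝ) (x : Fin n → ℝ) :
    quad M b c (Fin.cons t x) =
      M 0 0 * (t + lam M (b 0) x) ^ 2 + quad (redM M) (redb M b) (redc M b c) x := by
  set u := ∑ k, mix M k * x k with hu
  have h1 : quad M b c (Fin.cons t x) = M 0 0 * t ^ 2 + t * u + b 0 * t +
      (∑ k, ∑ l, M k.succ l.succ * x k * x l) + (∑ k, b k.succ * x k) + c := by
    simp only [quad, Fin.sum_univ_succ, Fin.cons_zero, Fin.cons_succ]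
    rw [Finset.sum_add_distrib, hu]
    simp only [mix, add_mul, Finset.sum_add_distrib, mul_add, Finset.mul_sum]
    have e1 : ∑ i : Fin n, M 0 i.succ * t * x i = ∑ i : Fin n, t * (M 0 i.succ * x i) :=
      Finset.sum_congr rfl fun i _ => by ring
    have e2 : ∑ i : Fin n, M i.succ 0 * x i * t = ∑ i : Fin n, t * (M i.succ 0 * x i) :=
      Finset.sum_congr rfl fun i _ => by ring
    rw [e1, e2]
    ring
  have h2 : quad (redM M) (redb M b) (redc M b c) x =
      (∑ k, ∑ l, M k.succ l.succ * x k * x l) - u * u / (4 * M 0 0) +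
      ((∑ k, b k.succ * x k) - b 0 * u / (2 * M 0 0)) + (c - b 0 ^ 2 / (4 * M 0 0)) := by
    have e1 : u * u / (4 * M 0 0) = ∑ k, ∑ l, mix M k * mix M l / (4 * M 0 0) * x k * x l := by
      rw [hu, Finset.sum_mul_sum, Finset.sum_div]
      apply Finset.sum_congr rfl
      intro k _
      rw [Finset.sum_div]
      apply Finset.sum_congr rfl
      intro l _
      ring
    have e2 : b 0 * u / (2 * M 0 0) = ∑ k, b 0 * mix M k / (2 * M 0 0) * x k := by
      rw [hu, Finset.mul_sum, Finset.sum_div]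
      apply Finset.sum_congr rfl
      intro k _
      ring
    rw [e1, e2]
    simp only [quad, redM, redb, redc, sub_mul, Finset.sum_sub_distrib]
  rw [h1, h2, lam, ← hu]
  field_simp
  ring

def PD {n : ℕ} (M : Fin n → Fin n → ℝ) : Prop :=
  ∀ x : Fin n → ℝ, x ≠ 0 → 0 < ∑ i, ∑ j, M i j * x i * x j

theorem PD.pos {n : ℕ} {M : Fin (n + 1) → Fin (n + 1) → ℝ} (h : PD M) : 0 < M 0 0 := by
  have := h (Fin.cons 1 0) (by
    intro h0
    have := congrFun h0 0
    simp at this)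
  simpa [Fin.sum_univ_succ] using this

theorem PD.red {n : ℕ} {M : Fin (n + 1) → Fin (n + 1) → ℝ} (h : PD M) : PD (redM M) := by
  intro x hx
  have h0 := h.pos
  have h1 := quad_cons M 0 0 h0.ne' (-(lam M 0 x)) x
  have h2 := h (Fin.cons (-(lam M 0 x)) x) (by
    intro h0
    apply hx
    funext k
    have := congrFun h0 k.succ
    simpa using this)
  simp only [quad, redb, redc, Pi.zero_apply, neg_add_cancel] at h1
  simp at h1
  rw [h1] at h2
  exact h2

noncomputable def PF (B : Subfield ℝ) (n : ℕ) : Subring ((Fin n → ℝ) → ℝ) :=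
  (RingHom.range (RingHom.pi (fun x : Fin n → ℝ =>
    ((MvPolynomial.aeval (R := B) x : MvPolynomial (Fin n) B →ₐ[B] ℝ) :
      MvPolynomial (Fin n) B →+* ℝ))))

theorem mem_PF {B : Subfield ℝ} {n : ℕ} (P : MvPolynomial (Fin n) B) :
    (fun x : Fin n → ℝ => MvPolynomial.aeval x P) ∈ PF B n := ⟨P, rfl⟩

theorem exists_of_mem_PF {B : Subfield ℝ} {n : ℕ} {f : (Fin n → ℝ) → ℝ} (hf : f ∈ PF B n) :
    ∃ P : MvPolynomial (Fin n) B, ∀ x, MvPolynomial.aeval x P = f x := by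
  obtain ⟨P, rfl⟩ := hf
  exact ⟨P, fun x => rfl⟩

theorem const_mem_PF {B : Subfield ℝ} {n : ℕ} {a : ℝ} (ha : a ∈ B) :
    (fun _ : Fin n → ℝ => a) ∈ PF B n := by
  have h := mem_PF (n := n) (MvPolynomial.C (⟨a, ha⟩ : B))
  have h1 : (fun x : Fin n → ℝ => MvPolynomial.aeval x (MvPolynomial.C (⟨a, ha⟩ : B))) =
      fun _ => a := by
    funext x
    rw [MvPolynomial.aeval_C]
    rfl
  rwa [h1] at h

theorem coord_mem_PF {B : Subfield ℝ} {n : ℕ} (k : Fin n) :
    (fun x : Fin n → ℝ => x k) ∈ PF B n := by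
  have h := mem_PF (B := B) (n := n) (MvPolynomial.X k)
  simpa using h

theorem quad_mem_PF {B : Subfield ℝ} {n : ℕ} {M : Fin n → Fin n → ℝ} {b : Fin n → ℝ} {c : ℝ}
    (hM : ∀ i j, M i j ∈ B) (hb : ∀ i, b i ∈ B) (hc : c ∈ B) :
    quad M b c ∈ PF B n := by
  have h1 : quad M b c = (∑ i, ∑ j, (fun _ : Fin n → ℝ => M i j) * (fun x => x i) * (fun x => x j))
      + (∑ i, (fun _ : Fin n → ℝ => b i) * (fun x => x i)) + (fun _ => c) := by
    funext x
    simp [quad, Finset.sum_apply]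
  rw [h1]
  refine (PF B n).add_mem ((PF B n).add_mem ?_ ?_) (const_mem_PF hc)
  · refine (PF B n).sum_mem fun i _ => (PF B n).sum_mem fun j _ => ?_
    exact (PF B n).mul_mem ((PF B n).mul_mem (const_mem_PF (hM i j)) (coord_mem_PF i))
      (coord_mem_PF j)
  · refine (PF B n).sum_mem fun i _ => ?_
    exact (PF B n).mul_mem (const_mem_PF (hb i)) (coord_mem_PF i)

theorem mix_mem {B : Subfield ℝ} {n : ℕ} {M : Fin (n + 1) → Fin (n + 1) → ℝ}
    (hM : ∀ i j, M i j ∈ B) (k : Fin n) : mix M k ∈ B := B.add_mem (hM _ _) (hM _ _)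

theorem ofNat_mem (B : Subfield ℝ) (k : ℕ) : ((k : ℕ) : ℝ) ∈ B := natCast_mem B k

theorem lam_mem_PF {B : Subfield ℝ} {n : ℕ} {M : Fin (n + 1) → Fin (n + 1) → ℝ} {b0 : ℝ}
    (hM : ∀ i j, M i j ∈ B) (hb : b0 ∈ B) : lam M b0 ∈ PF B n := by
  have h1 : lam M b0 = ((∑ k, (fun _ : Fin n → ℝ => mix M k) * (fun x => x k)) + (fun _ => b0)) *
      (fun _ => (2 * M 0 0)⁻¹) := by
    funext x
    simp [lam, Finset.sum_apply, div_eq_mul_inv]
  rw [h1]
  refine (PF B n).mul_mem ((PF B n).add_mem ?_ (const_mem_PF hb)) (const_mem_PF ?_)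
  · refine (PF B n).sum_mem fun i _ => ?_
    exact (PF B n).mul_mem (const_mem_PF (mix_mem hM i)) (coord_mem_PF i)
  · exact B.inv_mem (B.mul_mem (by simpa using ofNat_mem B 2) (hM _ _))

theorem red_mem {B : Subfield ℝ} {n : ℕ} {M : Fin (n + 1) → Fin (n + 1) → ℝ}
    {b : Fin (n + 1) → ℝ} {c : ℝ} (hM : ∀ i j, M i j ∈ B) (hb : ∀ i, b i ∈ B) (hc : c ∈ B) :
    (∀ i j, redM M i j ∈ B) ∧ (∀ i, redb M b i ∈ B) ∧ redc M b c ∈ B := by
  have h2 : (2 : ℝ) ∈ B := by simpa using ofNat_mem B 2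
  have h4 : (4 : ℝ) ∈ B := by simpa using ofNat_mem B 4
  refine ⟨fun i j => ?_, fun i => ?_, ?_⟩
  · exact B.sub_mem (hM _ _) (B.div_mem (B.mul_mem (mix_mem hM i) (mix_mem hM j))
      (B.mul_mem h4 (hM _ _)))
  · exact B.sub_mem (hb _) (B.div_mem (B.mul_mem (hb _) (mix_mem hM i)) (B.mul_mem h2 (hM _ _)))
  · exact B.sub_mem hc (B.div_mem (B.pow_mem (hb _) 2) (B.mul_mem h4 (hM _ _)))

noncomputable def evx (B : Subfield ℝ) {n : ℕ} (x : Fin n → ℝ) : PF B n →+* ℝ :=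
  (Pi.evalRingHom (fun _ : Fin n → ℝ => ℝ) x).comp (PF B n).subtype

theorem evx_apply (B : Subfield ℝ) {n : ℕ} (x : Fin n → ℝ) (f : PF B n) : evx B x f = f.1 x := rfl

theorem exists_slice {B : Subfield ℝ} {n : ℕ} {P : (Fin (n + 1) → ℝ) → ℝ} (hP : P ∈ PF B (n + 1)) :
    ∃ p : (PF B n)[X], ∀ (t : ℝ) (x : Fin n → ℝ),
      P (Fin.cons t x) = (p.map (evx B x)).eval t := by
  obtain ⟨Q, hQ⟩ := exists_of_mem_PF hP
  let ψ : MvPolynomial (Fin n) B →+* PF B n :=
    (RingHom.pi (fun x : Fin n → ℝ =>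
    ((MvPolynomial.aeval (R := B) x : MvPolynomial (Fin n) B →ₐ[B] ℝ) :
      MvPolynomial (Fin n) B →+* ℝ))).rangeRestrict
  refine ⟨(MvPolynomial.finSuccEquiv B n Q).map ψ, fun t x => ?_⟩
  rw [Polynomial.map_map]
  have h1 : (evx B x).comp ψ = ((MvPolynomial.aeval (R := B) x : MvPolynomial (Fin n) B →ₐ[B] ℝ) :
      MvPolynomial (Fin n) B →+* ℝ) := by
    ext z <;> rfl
  rw [h1, ← hQ]
  clear hQ hP
  induction Q using MvPolynomial.induction_on with
  | C a =>
    rw [MvPolynomial.finSuccEquiv_apply]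
    simp
  | add p q hp hq => simp only [map_add, Polynomial.map_add, eval_add, hp, hq]
  | mul_X p i hp =>
    rw [map_mul, map_mul, Polynomial.map_mul, eval_mul, hp]
    congr 1
    refine Fin.cases ?_ (fun j => ?_) i
    · rw [MvPolynomial.finSuccEquiv_X_zero]; simp
    · rw [MvPolynomial.finSuccEquiv_X_succ]; simp

theorem exists_slice_shift {B : Subfield ℝ} {n : ℕ} {P : (Fin (n + 1) → ℝ) → ℝ}
    (hP : P ∈ PF B (n + 1)) {l : (Fin n → ℝ) → ℝ} (hl : l ∈ PF B n) :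
    ∃ p : (PF B n)[X], ∀ (t : ℝ) (x : Fin n → ℝ),
      P (Fin.cons (t - l x) x) = (p.map (evx B x)).eval t := by
  obtain ⟨p, hp⟩ := exists_slice hP
  refine ⟨p.comp (X - C ⟨l, hl⟩), fun t x => ?_⟩
  rw [hp, Polynomial.map_comp, eval_comp]
  simp [evx_apply]


theorem fubini_cons {E : Type*} [NormedAddCommGroup E] [NormedSpace ℝ E] {n : ℕ}
    (f : (Fin (n + 1) → ℝ) → E) (hf : Integrable f) :
    (∀ᵐ x : Fin n → ℝ, Integrable (fun t : ℝ => f (Fin.cons t x))) ∧
    Integrable (fun x : Fin n → ℝ => ∫ t : ℝ, f (Fin.cons t x)) ∧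
    ∫ x, f x = ∫ x : Fin n → ℝ, ∫ t : ℝ, f (Fin.cons t x) := by
  have hm := (volume_preserving_piFinSuccAbove (fun _ : Fin (n + 1) => ℝ) 0).symm
  set e := (MeasurableEquiv.piFinSuccAbove (fun _ : Fin (n + 1) => ℝ) 0).symm with he
  have hec : ∀ (t : ℝ) (x : Fin n → ℝ), e (t, x) = Fin.cons t x := by
    intro t x
    simp [he, MeasurableEquiv.piFinSuccAbove_symm_apply, Fin.insertNthEquiv]
  have h1 : Integrable (fun z : ℝ × (Fin n → ℝ) => f (e z))
      ((volume : Measure ℝ).prod (volume : Measure (Fin n → ℝ))) :=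
    (hm.integrable_comp_emb e.measurableEmbedding).mpr hf
  have h2 := h1.prod_left_ae
  have h3 := h1.integral_prod_right
  simp only [hec] at h2 h3
  refine ⟨h2, h3, ?_⟩
  have h4 : ∫ x, f x = ∫ z : ℝ × (Fin n → ℝ), f (e z) := (hm.integral_comp e.measurableEmbedding f).symm
  rw [h4]
  have h5 := integral_prod_symm (fun z : ℝ × (Fin n → ℝ) => f (e z)) h1
  simp only [hec] at h5
  refine Eq.trans ?_ h5
  rw [← Measure.volume_eq_prod]
  congr 1
  funext z
  exact congrArg f (hec z.1 z.2)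

theorem integral_fin_zero {E : Type*} [NormedAddCommGroup E] [NormedSpace ℝ E] [CompleteSpace E]
    (f : (Fin 0 → ℝ) → E) : ∫ x, f x = f isEmptyElim := by
  have hv : (volume : Measure (Fin 0 → ℝ)) = Measure.dirac isEmptyElim :=
    Measure.pi_of_empty _ _
  rw [hv, integral_dirac]

theorem mem_of_mem_PF {B : Subfield ℝ} {n : ℕ} {P : (Fin n → ℝ) → ℝ} (hP : P ∈ PF B n)
    {x : Fin n → ℝ} (hx : ∀ i, x i ∈ B) : P x ∈ B := by
  obtain ⟨Q, hQ⟩ := exists_of_mem_PF hP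
  rw [← hQ]
  induction Q using MvPolynomial.induction_on generalizing P with
  | C a => rw [MvPolynomial.aeval_C]; exact a.2
  | add p q hp hq =>
    rw [map_add]
    exact B.add_mem (hp (mem_PF p) (fun _ => rfl)) (hq (mem_PF q) (fun _ => rfl))
  | mul_X p i hp =>
    rw [map_mul, MvPolynomial.aeval_X]
    exact B.mul_mem (hp (mem_PF p) (fun _ => rfl)) (hx i)

theorem quad_red_pos {n : ℕ} {M : Fin (n + 1) → Fin (n + 1) → ℝ} {b : Fin (n + 1) → ℝ} {c : ℝ}
    (hM : PD M) (hpos : ∀ x, 0 < quad M b c x) (x : Fin n → ℝ) :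
    0 < quad (redM M) (redb M b) (redc M b c) x := by
  have h1 := hpos (Fin.cons (-(lam M (b 0) x)) x)
  rw [quad_cons M b c hM.pos.ne'] at h1
  simpa using h1

theorem sqrt_pow_mem {B : Subfield ℝ} (hB : ∀ x ∈ B, 0 ≤ x → √x ∈ B) {x : ℝ} (hx : x ∈ B)
    (h0 : 0 ≤ x) (k : ℕ) : √x ^ k ∈ B := B.pow_mem (hB x hx h0) k

theorem ratCast_mem' (B : Subfield ℝ) (r : ℚ) : (r : ℝ) ∈ B := SubfieldClass.ratCast_mem B r

theorem quadric_whole (B : Subfield ℝ) (hB : ∀ x ∈ B, 0 ≤ x → √x ∈ B) (n : ℕ) :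
    ∀ (m : ℕ) (M : Fin n → Fin n → ℝ) (b : Fin n → ℝ) (c : ℝ),
      (∀ i j, M i j ∈ B) → (∀ i, b i ∈ B) → c ∈ B → PD M → (∀ x, 0 < quad M b c x) →
      ∀ P ∈ PF B n, Integrable (fun x => P x / √(quad M b c x) ^ m) →
      ∃ a ∈ B, ∃ e : ℕ, ∫ x, P x / √(quad M b c x) ^ m = a * Real.pi ^ e := by
  induction n with
  | zero =>
    intro m M b c hM hb hc hPD hpos P hP hint
    refine ⟨P isEmptyElim / √(quad M b c isEmptyElim) ^ m, ?_, 0, ?_⟩
    · have h1 : ∀ i : Fin 0, (isEmptyElim : Fin 0 → ℝ) i ∈ B := fun i => i.elim0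
      exact B.div_mem (mem_of_mem_PF hP h1)
        (sqrt_pow_mem hB (mem_of_mem_PF (quad_mem_PF hM hb hc) h1) (hpos _).le m)
    · rw [integral_fin_zero, pow_zero, mul_one]
  | succ n ih =>
    intro m M b c hM hb hc hPD hpos P hP hint
    obtain ⟨hF1, hF2, hF3⟩ := fubini_cons _ hint
    have ha := hPD.pos
    obtain ⟨hM', hb', hc'⟩ := red_mem hM hb hc
    set q : (Fin n → ℝ) → ℝ := quad (redM M) (redb M b) (redc M b c) with hq
    have hq0 : ∀ x, 0 < q x := quad_red_pos hPD hpos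
    have hqm : q ∈ PF B n := quad_mem_PF hM' hb' hc'
    obtain ⟨p, hp⟩ := exists_slice_shift hP (lam_mem_PF (b0 := b 0) hM (hb 0))
    have hJ : ∀ j, ∃ r : ℚ, 2 * j + 1 < m →
        ∫ t : ℝ, t ^ (2 * j) / √(1 + t ^ 2) ^ m = r * Real.pi ^ ((m + 1) % 2) := by
      intro j
      by_cases h : 2 * j + 1 < m
      · obtain ⟨r, hr⟩ := J_even j m h
        exact ⟨r, fun _ => hr⟩
      · exact ⟨0, fun h' => absurd h' h⟩
    choose r hr using hJ
    set G : (Fin n → ℝ) → ℝ := ∑ j ∈ (Finset.range m).filter (fun j => 2 * j + 1 < m),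
      (p.coeff (2 * j) : (Fin n → ℝ) → ℝ) * (fun _ => (r j : ℝ) / √(M 0 0) ^ (2 * j + 1)) * q ^ j
      with hG
    have hGm : G ∈ PF B n := by
      refine (PF B n).sum_mem fun j _ => ?_
      refine (PF B n).mul_mem ((PF B n).mul_mem (p.coeff (2 * j)).2 (const_mem_PF ?_))
        ((PF B n).pow_mem hqm j)
      exact B.div_mem (ratCast_mem' B _) (sqrt_pow_mem hB (hM 0 0) ha.le _)
    have hslice : ∀ᵐ x : Fin n → ℝ, ∫ t : ℝ, P (Fin.cons t x) / √(quad M b c (Fin.cons t x)) ^ m =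
        Real.pi ^ ((m + 1) % 2) * (G x / √(q x) ^ (m - 1)) := by
      filter_upwards [hF1] with x hx
      have h1 := hx.comp_sub_right (lam M (b 0) x)
      have h2 : (fun t : ℝ => P (Fin.cons (t - lam M (b 0) x) x) /
          √(quad M b c (Fin.cons (t - lam M (b 0) x) x)) ^ m) =
          fun t : ℝ => (p.map (evx B x)).eval t / √(M 0 0 * t ^ 2 + q x) ^ m := by
        funext t
        rw [hp, quad_cons M b c ha.ne']
        simp only [sub_add_cancel, hq]
      rw [h2] at h1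
      rw [← integral_sub_right_eq_self (fun t : ℝ => P (Fin.cons t x) /
          √(quad M b c (Fin.cons t x)) ^ m) (lam M (b 0) x), h2,
        slice_whole _ m ha (hq0 x) h1]
      rw [mul_div_assoc']
      congr 1
      rw [hG, Finset.sum_apply, Finset.mul_sum]
      apply Finset.sum_congr rfl
      intro j hj
      rw [Finset.mem_filter] at hj
      rw [hr j hj.2, coeff_map, evx_apply]
      simp only [Pi.mul_apply, Pi.pow_apply]
      ring
    have hpi : Real.pi ^ ((m + 1) % 2) ≠ 0 := pow_ne_zero _ Real.pi_ne_zero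
    have hint' : Integrable (fun x => G x / √(q x) ^ (m - 1)) := by
      have h1 := hF2.congr hslice
      rwa [integrable_const_mul_iff (isUnit_iff_ne_zero.mpr hpi)] at h1
    obtain ⟨a, haB, e, hae⟩ := ih (m - 1) _ _ _ hM' hb' hc' hPD.red hq0 G hGm hint'
    refine ⟨a, haB, e + (m + 1) % 2, ?_⟩
    rw [hF3, integral_congr_ae hslice, integral_const_mul, hae]
    ring


noncomputable def wt (m : ℕ) (y : ℝ) : ℝ := if 0 ≤ y then √y ^ m else 0

theorem wt_add_two (m : ℕ) (y : ℝ) : wt (m + 2) y = y * wt m y := by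
  unfold wt
  split_ifs with h
  · rw [pow_add, Real.sq_sqrt h, mul_comm]
  · simp

theorem wt_mul (m : ℕ) {y : ℝ} (hy : 0 < y) (z : ℝ) : wt m (y * z) = √y ^ m * wt m z := by
  unfold wt
  by_cases h : 0 ≤ z
  · rw [if_pos h, if_pos (mul_nonneg hy.le h), Real.sqrt_mul hy.le, mul_pow]
  · rw [if_neg h, if_neg, mul_zero]
    rw [not_le] at h ⊢
    exact mul_neg_of_pos_of_neg hy h

theorem wt_one_sub (m : ℕ) (u : ℝ) : wt m (1 - u ^ 2) =
    (Set.Icc (-1 : ℝ) 1).indicator (fun u => √(1 - u ^ 2) ^ m) u := by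
  unfold wt
  rw [Set.indicator_apply]
  have h : (0 ≤ 1 - u ^ 2) ↔ u ∈ Set.Icc (-1 : ℝ) 1 := by
    rw [sub_nonneg, sq_le_one_iff_abs_le_one, abs_le, Set.mem_Icc]
  simp only [h]

theorem integrable_K (k m : ℕ) : Integrable (fun u : ℝ => u ^ k * wt m (1 - u ^ 2)) := by
  have h : (fun u : ℝ => u ^ k * wt m (1 - u ^ 2)) =
      (Set.Icc (-1 : ℝ) 1).indicator (fun u => u ^ k * √(1 - u ^ 2) ^ m) := by
    funext u
    rw [wt_one_sub, Set.indicator_apply, Set.indicator_apply]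
    split_ifs <;> simp
  rw [h, integrable_indicator_iff measurableSet_Icc]
  apply Continuous.integrableOn_Icc
  fun_prop

theorem K_eq (m : ℕ) : ∫ u : ℝ, wt m (1 - u ^ 2) = ∫ u in (-1 : ℝ)..1, √(1 - u ^ 2) ^ m := by
  simp_rw [wt_one_sub]
  rw [integral_indicator measurableSet_Icc, integral_Icc_eq_integral_Ioc,
    intervalIntegral.integral_of_le (by norm_num)]

theorem K_zero_zero : ∫ u : ℝ, wt 0 (1 - u ^ 2) = 2 := by
  rw [K_eq]
  simp
  norm_num

theorem K_zero_one : ∫ u : ℝ, wt 1 (1 - u ^ 2) = Real.pi / 2 := by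
  rw [K_eq]
  simp only [pow_one]
  exact integral_sqrt_one_sub_sq

theorem K_zero_rec (m : ℕ) : ((m : ℝ) + 3) * ∫ u : ℝ, wt (m + 2) (1 - u ^ 2) =
    (m + 2) * ∫ u : ℝ, wt m (1 - u ^ 2) := by
  rw [K_eq, K_eq]
  have hd : ∀ u ∈ Set.Ioo (-1 : ℝ) 1, HasDerivAt (fun u : ℝ => u * √(1 - u ^ 2) ^ (m + 2))
      (((m : ℝ) + 3) * √(1 - u ^ 2) ^ (m + 2) - (m + 2) * √(1 - u ^ 2) ^ m) u := by
    intro u hu
    have hp : 0 < 1 - u ^ 2 := by
      rw [sub_pos, sq_lt_one_iff_abs_lt_one, abs_lt]; exact hu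
    have h2 : HasDerivAt (fun u : ℝ => 1 - u ^ 2) (-(2 * u)) u := by
      simpa using ((hasDerivAt_id' u).fun_pow 2).const_sub 1
    have h3 := h2.sqrt hp.ne'
    have h4 := (hasDerivAt_id' u).fun_mul (h3.fun_pow (m + 2))
    refine h4.congr_deriv ?_
    have hs : √(1 - u ^ 2) ^ 2 = 1 - u ^ 2 := Real.sq_sqrt hp.le
    have h0 : 0 < √(1 - u ^ 2) := Real.sqrt_pos.mpr hp
    generalize √(1 - u ^ 2) = s at h0 hs
    have e3 : u ^ 2 = 1 - s ^ 2 := by rw [hs]; ring
    have e4 : (m + 2 - 1 : ℕ) = m + 1 := by omega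
    rw [e4]
    push_cast
    field_simp
    linear_combination (-(m : ℝ) - 2) * s ^ (m + 1) * e3
  have key := intervalIntegral.integral_eq_sub_of_hasDerivAt_of_le (by norm_num : (-1 : ℝ) ≤ 1)
    (by fun_prop) hd (by
      apply Continuous.intervalIntegrable
      fun_prop)
  rw [intervalIntegral.integral_sub, intervalIntegral.integral_const_mul,
    intervalIntegral.integral_const_mul] at key
  · simp at key
    linarith
  · apply Continuous.intervalIntegrable
    fun_prop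
  · apply Continuous.intervalIntegrable
    fun_prop

theorem K_even (j m : ℕ) :
    ∃ r : ℚ, ∫ u : ℝ, u ^ (2 * j) * wt m (1 - u ^ 2) = r * Real.pi ^ (m % 2) := by
  induction j generalizing m with
  | zero =>
    simp only [mul_zero, pow_zero, one_mul]
    induction m using Nat.twoStepInduction with
    | zero => exact ⟨2, by rw [K_zero_zero]; simp⟩
    | one => exact ⟨1 / 2, by rw [K_zero_one]; simp; ring⟩
    | more m ih1 ih2 =>
      obtain ⟨r, hr⟩ := ih1
      have h1 := K_zero_rec m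
      rw [hr] at h1
      refine ⟨((m : ℕ) + 2) / ((m : ℕ) + 3) * r, ?_⟩
      have h2 : ((m : ℝ) + 3) ≠ 0 := by positivity
      have h3 : (m + 2) % 2 = m % 2 := by omega
      rw [h3]
      push_cast at h1 h2 ⊢
      field_simp
      linear_combination h1
  | succ j ih =>
    obtain ⟨r1, h1⟩ := ih m
    obtain ⟨r2, h2⟩ := ih (m + 2)
    refine ⟨r1 - r2, ?_⟩
    have h3 : ∫ u : ℝ, u ^ (2 * (j + 1)) * wt m (1 - u ^ 2) =
        (∫ u : ℝ, u ^ (2 * j) * wt m (1 - u ^ 2)) -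
          ∫ u : ℝ, u ^ (2 * j) * wt (m + 2) (1 - u ^ 2) := by
      rw [← integral_sub (integrable_K _ _) (integrable_K _ _)]
      congr 1
      funext u
      rw [wt_add_two]
      ring
    rw [h3, h1, h2]
    have h4 : (m + 2) % 2 = m % 2 := by omega
    rw [h4]
    push_cast
    ring

theorem K_odd (k m : ℕ) (hk : Odd k) : ∫ u : ℝ, u ^ k * wt m (1 - u ^ 2) = 0 := by
  have h1 : ∫ u : ℝ, (-u) ^ k * wt m (1 - (-u) ^ 2) = ∫ u : ℝ, u ^ k * wt m (1 - u ^ 2) :=
    integral_neg_eq_self (fun u : ℝ => u ^ k * wt m (1 - u ^ 2)) volume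
  have h2 : ∫ u : ℝ, (-u) ^ k * wt m (1 - (-u) ^ 2) = -∫ u : ℝ, u ^ k * wt m (1 - u ^ 2) := by
    rw [← integral_neg]
    congr 1
    funext u
    rw [hk.neg_pow, neg_sq, neg_mul]
  linarith

theorem K_rw (k m : ℕ) {a y : ℝ} (ha : 0 < a) (hy : 0 < y) (s : ℝ) :
    s ^ k * wt m (y - a * s ^ 2) = ((√y / √a) ^ k * √y ^ m) *
      ((√a / √y * s) ^ k * wt m (1 - (√a / √y * s) ^ 2)) := by
  have ha' : 0 < √a := Real.sqrt_pos.mpr ha
  have hy' : 0 < √y := Real.sqrt_pos.mpr hy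
  have h2 : y - a * s ^ 2 = y * (1 - (√a / √y * s) ^ 2) := by
    rw [mul_pow, div_pow, Real.sq_sqrt ha.le, Real.sq_sqrt hy.le]
    field_simp
  rw [h2, wt_mul m hy, mul_pow (√a / √y) s k, div_pow, div_pow]
  field_simp

theorem K_scaled (k m : ℕ) {a y : ℝ} (ha : 0 < a) (hy : 0 < y) :
    ∫ s : ℝ, s ^ k * wt m (y - a * s ^ 2) =
      (√y ^ (k + 1) * √y ^ m / √a ^ (k + 1)) * ∫ u : ℝ, u ^ k * wt m (1 - u ^ 2) := by
  have ha' : 0 < √a := Real.sqrt_pos.mpr ha
  have hy' : 0 < √y := Real.sqrt_pos.mpr hy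
  simp_rw [K_rw k m ha hy]
  rw [integral_const_mul, Measure.integral_comp_mul_left
    (fun t : ℝ => t ^ k * wt m (1 - t ^ 2)) (√a / √y),
    abs_of_pos (inv_pos.mpr (div_pos ha' hy')), smul_eq_mul, ← mul_assoc]
  congr 1
  rw [div_pow]
  field_simp
  ring

theorem integrable_K_scaled (k m : ℕ) {a y : ℝ} (ha : 0 < a) (hy : 0 < y) :
    Integrable (fun s : ℝ => s ^ k * wt m (y - a * s ^ 2)) := by
  have ha' : 0 < √a := Real.sqrt_pos.mpr ha
  have hy' : 0 < √y := Real.sqrt_pos.mpr hy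
  simp_rw [K_rw k m ha hy]
  apply Integrable.const_mul
  exact (integrable_K k m).comp_mul_left' (div_pos ha' hy').ne'

theorem slice_solid (p : ℝ[X]) (m N : ℕ) (hN : p.natDegree < 2 * N) {a : ℝ} (ha : 0 < a) (y : ℝ) :
    ∫ s : ℝ, p.eval s * wt m (y - a * s ^ 2) =
      (∑ j ∈ Finset.range N,
        p.coeff (2 * j) * ((∫ u : ℝ, u ^ (2 * j) * wt m (1 - u ^ 2)) / √a ^ (2 * j + 1)) * y ^ j) *
        wt (m + 1) y := by
  rcases lt_trichotomy y 0 with hy | hy | hy
  · have h1 : ∀ s : ℝ, p.eval s * wt m (y - a * s ^ 2) = 0 := by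
      intro s
      unfold wt
      rw [if_neg, mul_zero]
      have : 0 ≤ a * s ^ 2 := by positivity
      linarith
    simp_rw [h1]
    have h2 : wt (m + 1) y = 0 := by
      unfold wt
      rw [if_neg (not_le.mpr hy)]
    rw [h2]
    simp
  · have h1 : (fun s : ℝ => p.eval s * wt m (y - a * s ^ 2)) =ᵐ[volume] fun _ => 0 := by
      have h2 : ∀ᵐ s : ℝ, s ≠ 0 := by
        simp [ae_iff]
      filter_upwards [h2] with s hs
      unfold wt
      rw [if_neg, mul_zero]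
      have : 0 < a * s ^ 2 := by positivity
      linarith
    rw [integral_congr_ae h1]
    have h2 : wt (m + 1) y = 0 := by
      unfold wt
      rw [hy]
      simp
    rw [h2]
    simp
  · have hy' : 0 < √y := Real.sqrt_pos.mpr hy
    have h1 : ∀ s : ℝ, p.eval s * wt m (y - a * s ^ 2) =
        ∑ k ∈ Finset.range (2 * N), p.coeff k * (s ^ k * wt m (y - a * s ^ 2)) := by
      intro s
      rw [eval_eq_sum_range' hN, Finset.sum_mul]
      apply Finset.sum_congr rfl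
      intro k _
      ring
    simp_rw [h1]
    rw [integral_finsetSum _ (fun k _ => (integrable_K_scaled k m ha hy).const_mul _)]
    simp_rw [integral_const_mul, K_scaled _ m ha hy]
    rw [Finset.sum_mul]
    symm
    rw [← Finset.sum_filter_add_sum_filter_not (Finset.range (2 * N)) (fun k => Even k)]
    have hodd : ∑ k ∈ (Finset.range (2 * N)).filter (fun k => ¬ Even k),
        p.coeff k * (√y ^ (k + 1) * √y ^ m / √a ^ (k + 1) *
          ∫ u : ℝ, u ^ k * wt m (1 - u ^ 2)) = 0 := by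
      apply Finset.sum_eq_zero
      intro k hk
      rw [Finset.mem_filter, Nat.not_even_iff_odd] at hk
      rw [K_odd k m hk.2, mul_zero, mul_zero]
    rw [hodd, add_zero]
    apply Finset.sum_bij (fun j _ => 2 * j)
    · intro j hj
      rw [Finset.mem_filter]
      rw [Finset.mem_range] at hj ⊢
      exact ⟨by omega, even_two_mul j⟩
    · intro x _ y _ h
      simpa using h
    · intro k hk
      rw [Finset.mem_filter, Finset.mem_range] at hk
      have hk2 := hk.2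
      rw [Nat.even_iff] at hk2
      refine ⟨k / 2, ?_, ?_⟩
      · rw [Finset.mem_range]; omega
      · omega
    · intro j hj
      have hyj : y ^ j = √y ^ (2 * j) := by rw [pow_mul, Real.sq_sqrt hy.le]
      have hw : wt (m + 1) y = √y ^ (m + 1) := by
        unfold wt
        rw [if_pos hy.le]
      rw [hyj, hw]
      have ha' : 0 < √a := Real.sqrt_pos.mpr ha
      field_simp
      ring

theorem wt_mem {B : Subfield ℝ} (hB : ∀ x ∈ B, 0 ≤ x → √x ∈ B) {x : ℝ} (hx : x ∈ B) (m : ℕ) :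
    wt m x ∈ B := by
  unfold wt
  split_ifs with h
  · exact sqrt_pow_mem hB hx h m
  · exact B.zero_mem

theorem quadric_solid (B : Subfield ℝ) (hB : ∀ x ∈ B, 0 ≤ x → √x ∈ B) (n : ℕ) :
    ∀ (m : ℕ) (M : Fin n → Fin n → ℝ) (b : Fin n → ℝ) (c : ℝ),
      (∀ i j, M i j ∈ B) → (∀ i, b i ∈ B) → c ∈ B → PD M →
      ∀ P ∈ PF B n, Integrable (fun x => P x * wt m (-(quad M b c x))) →
      ∃ a ∈ B, ∃ e : ℕ, ∫ x, P x * wt m (-(quad M b c x)) = a * Real.pi ^ e := by
  induction n with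
  | zero =>
    intro m M b c hM hb hc hPD P hP hint
    refine ⟨P isEmptyElim * wt m (-(quad M b c isEmptyElim)), ?_, 0, ?_⟩
    · have h1 : ∀ i : Fin 0, (isEmptyElim : Fin 0 → ℝ) i ∈ B := fun i => i.elim0
      exact B.mul_mem (mem_of_mem_PF hP h1)
        (wt_mem hB (B.neg_mem (mem_of_mem_PF (quad_mem_PF hM hb hc) h1)) m)
    · rw [integral_fin_zero, pow_zero, mul_one]
  | succ n ih =>
    intro m M b c hM hb hc hPD P hP hint
    obtain ⟨hF1, hF2, hF3⟩ := fubini_cons _ hint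
    have ha := hPD.pos
    obtain ⟨hM', hb', hc'⟩ := red_mem hM hb hc
    set q : (Fin n → ℝ) → ℝ := quad (redM M) (redb M b) (redc M b c) with hq
    have hqm : q ∈ PF B n := quad_mem_PF hM' hb' hc'
    obtain ⟨p, hp⟩ := exists_slice_shift hP (lam_mem_PF (b0 := b 0) hM (hb 0))
    have hJ : ∀ j, ∃ r : ℚ,
        ∫ u : ℝ, u ^ (2 * j) * wt m (1 - u ^ 2) = r * Real.pi ^ (m % 2) := fun j => K_even j m
    choose r hr using hJ
    set N := p.natDegree + 1 with hN
    set G : (Fin n → ℝ) → ℝ := ∑ j ∈ Finset.range N,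
      (p.coeff (2 * j) : (Fin n → ℝ) → ℝ) * (fun _ => (r j : ℝ) / √(M 0 0) ^ (2 * j + 1)) *
        (-q) ^ j with hG
    have hGm : G ∈ PF B n := by
      refine (PF B n).sum_mem fun j _ => ?_
      refine (PF B n).mul_mem ((PF B n).mul_mem (p.coeff (2 * j)).2 (const_mem_PF ?_))
        ((PF B n).pow_mem ((PF B n).neg_mem hqm) j)
      exact B.div_mem (ratCast_mem' B _) (sqrt_pow_mem hB (hM 0 0) ha.le _)
    have hslice : ∀ x : Fin n → ℝ, ∫ t : ℝ, P (Fin.cons t x) * wt m (-(quad M b c (Fin.cons t x))) =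
        Real.pi ^ (m % 2) * (G x * wt (m + 1) (-(q x))) := by
      intro x
      have h2 : (fun t : ℝ => P (Fin.cons (t - lam M (b 0) x) x) *
          wt m (-(quad M b c (Fin.cons (t - lam M (b 0) x) x)))) =
          fun t : ℝ => (p.map (evx B x)).eval t * wt m (-(q x) - M 0 0 * t ^ 2) := by
        funext t
        rw [hp, quad_cons M b c ha.ne']
        simp only [sub_add_cancel, hq]
        congr 2
        ring
      rw [← integral_sub_right_eq_self (fun t : ℝ => P (Fin.cons t x) *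
          wt m (-(quad M b c (Fin.cons t x)))) (lam M (b 0) x), h2,
        slice_solid _ m N (by
          have := natDegree_map_le (f := evx B x) (p := p)
          omega) ha (-(q x))]
      rw [← mul_assoc]
      congr 1
      rw [hG, Finset.sum_apply, Finset.mul_sum]
      apply Finset.sum_congr rfl
      intro j hj
      rw [hr j, coeff_map, evx_apply]
      simp only [Pi.mul_apply, Pi.pow_apply, Pi.neg_apply]
      ring
    have hpi : Real.pi ^ (m % 2) ≠ 0 := pow_ne_zero _ Real.pi_ne_zero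
    have hint' : Integrable (fun x => G x * wt (m + 1) (-(q x))) := by
      have h1 := hF2.congr (Eventually.of_forall hslice)
      rwa [integrable_const_mul_iff (isUnit_iff_ne_zero.mpr hpi)] at h1
    obtain ⟨a, haB, e, hae⟩ := ih (m + 1) _ _ _ hM' hb' hc' hPD.red G hGm hint'
    refine ⟨a, haB, e + m % 2, ?_⟩
    rw [hF3, integral_congr_ae (Eventually.of_forall hslice), integral_const_mul, hae]
    ring

end Pool.Agent.Helper23.Quadric
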