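import Pool.Agent.Helper23.PlaneWave
import Pool.Agent.Helper23.Quadric
import Pool.Agent.Helper23.PiTrans
import Pool.Agent.Helper23.PeriodDefs

set_option autoImplicit false

open MeasureTheory Polynomial

namespace Pool.Agent.Helper23.PeriodProof

open PeriodDefs

instance isAlg : Algebra.IsAlgebraic ℚ RealAlg := algebraicClosure.isAlgebraic ℚ ℝ

noncomputable def RB : Subfield ℝ := RealAlg.toSubfield

theorem mem_RB {x : ℝ} : x ∈ RB ↔ IsAlgebraic ℚ x := by
  unfold RB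
  exact mem_algebraicClosure_iff

theorem coe_mem_RB (x : RealAlg) : (x : ℝ) ∈ RB := x.2

noncomputable def CA : Subfield ℂ := (algebraicClosure ℚ ℂ).toSubfield

theorem mem_CA {x : ℂ} : x ∈ CA ↔ IsAlgebraic ℚ x := by
  unfold CA
  exact mem_algebraicClosure_iff

theorem sqrt_mem_RB : ∀ x ∈ RB, 0 ≤ x → √x ∈ RB := by
  intro x hx h0
  rw [mem_RB] at hx ⊢
  apply IsAlgebraic.of_pow (n := 2) two_pos
  rwa [Real.sq_sqrt h0]

theorem I_mem_CA : Complex.I ∈ CA := by
  rw [mem_CA]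
  apply IsAlgebraic.of_pow (n := 2) two_pos
  rw [Complex.I_sq]
  have := isAlgebraic_algebraMap (R := ℚ) (A := ℂ) (-1)
  simpa using this

theorem ofReal_mem_CA {x : ℝ} : (x : ℂ) ∈ CA ↔ x ∈ RB := by
  rw [mem_CA, mem_RB]
  exact isAlgebraic_algebraMap_iff (R := ℚ) (S := ℝ) (A := ℂ) (algebraMap ℝ ℂ).injective

noncomputable def toRB : RealAlg →+* RB := RingHom.codRestrict RealAlg.val.toRingHom RB coe_mem_RB

theorem aeval_toRB {n : ℕ} (P : MvPolynomial (Fin n) RealAlg) (x : Fin n → ℝ) :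
    MvPolynomial.aeval x (P.map toRB) = MvPolynomial.aeval x P := by
  rw [MvPolynomial.aeval_def, MvPolynomial.eval₂_map, MvPolynomial.aeval_def]
  rfl

noncomputable def toCA : RealAlg →+* CA :=
  RingHom.codRestrict (Complex.ofRealHom.comp RealAlg.val.toRingHom) CA
    (fun x => ofReal_mem_CA.mpr (coe_mem_RB x))

theorem aeval_toCA {n : ℕ} (P : MvPolynomial (Fin n) RealAlg) (x : Fin n → ℝ) :
    MvPolynomial.aeval (fun k => (x k : ℂ)) (P.map toCA) = ((MvPolynomial.aeval x P : ℝ) : ℂ) := by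
  rw [MvPolynomial.aeval_def, MvPolynomial.eval₂_map, MvPolynomial.aeval_def]
  have h := MvPolynomial.hom_eval₂ P (algebraMap RealAlg ℝ) Complex.ofRealHom x
  exact h.symm

theorem exists_factor (q : Polynomial RealAlg) (hq : ∀ t : ℝ, aeval t q ≠ 0) :
    ∃ (d : ℕ) (κ : ℂ) (r : Fin d → ℂ), κ ∈ CA ∧ κ ≠ 0 ∧ (∀ i, r i ∈ CA) ∧ (∀ i, (r i).im ≠ 0) ∧
      ∀ t : ℝ, ((aeval t q : ℝ) : ℂ) = κ * ∏ i, ((t : ℂ) - r i) := by
  have hq0 : q ≠ 0 := by
    rintro rfl
    exact hq 0 (by simp)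
  set e : RealAlg →+* ℂ := Complex.ofRealHom.comp RealAlg.val.toRingHom with he
  set Q : ℂ[X] := q.map e with hQ
  have hQ0 : Q ≠ 0 := (Polynomial.map_ne_zero_iff e.injective).mpr hq0
  have hev : ∀ t : ℝ, ((aeval t q : ℝ) : ℂ) = Q.eval (t : ℂ) := by
    intro t
    rw [hQ, eval_map, aeval_def]
    have h := Polynomial.hom_eval₂ q (algebraMap RealAlg ℝ) Complex.ofRealHom t
    exact h
  have hsp : Q = C Q.leadingCoeff * (Q.roots.map (fun a => X - C a)).prod :=
    (IsAlgClosed.splits Q).eq_prod_roots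
  refine ⟨Q.roots.toList.length, Q.leadingCoeff, Q.roots.toList.get, ?_, ?_, ?_, ?_, ?_⟩
  · rw [hQ, leadingCoeff_map]
    exact ofReal_mem_CA.mpr (coe_mem_RB _)
  · exact leadingCoeff_ne_zero.mpr hQ0
  · intro i
    have h1 : Q.roots.toList.get i ∈ Q.roots := Multiset.mem_toList.mp (List.get_mem _ _)
    rw [mem_roots hQ0, IsRoot.def] at h1
    rw [mem_CA]
    generalize Q.roots.toList.get i = r at h1
    have h2 : IsAlgebraic RealAlg r := ⟨q, hq0, by
      rw [aeval_def]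
      rw [hQ, eval_map] at h1
      exact h1⟩
    exact h2.restrictScalars ℚ
  · intro i
    have h1 : Q.roots.toList.get i ∈ Q.roots := Multiset.mem_toList.mp (List.get_mem _ _)
    rw [mem_roots hQ0, IsRoot.def] at h1
    intro h0
    generalize Q.roots.toList.get i = r at h1 h0
    have h2 : r = ((r.re : ℝ) : ℂ) := Complex.ext rfl (by simpa using h0)
    rw [h2, ← hev] at h1
    exact hq r.re (by exact_mod_cast h1)
  · intro t
    rw [hev]
    conv_lhs => rw [hsp]
    rw [eval_mul, eval_C]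
    congr 1
    rw [eval_multiset_prod, Multiset.map_map]
    have h1 : ∀ l : List ℂ, ((l : Multiset ℂ).map ((eval (t : ℂ)) ∘ fun a => X - C a)).prod =
        ∏ i : Fin l.length, ((t : ℂ) - l.get i) := by
      intro l
      rw [Multiset.map_coe, Multiset.prod_coe, ← List.prod_ofFn]
      congr 1
      apply List.ext_getElem
      · simp
      · intro i h1 h2
        simp
    rw [← h1, Multiset.coe_toList]

theorem ridge_value {v : ℝ} (hv : IsRidgeIntegral v) : ∃ a ∈ RB, ∃ e : ℕ, v = a * Real.pi ^ e := by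
  obtain ⟨n, m, P, q, u, hq, hint, rfl⟩ := hv
  change ∀ (j : Fin m) (t : ℝ), Polynomial.aeval t (q j) ≠ 0 at hq
  change Integrable (fun x : Fin n → ℝ =>
      MvPolynomial.aeval x P / ∏ j, Polynomial.aeval (∑ k, (u j k : ℝ) * x k) (q j)) at hint
  change ∃ a ∈ RB, ∃ e : ℕ, ∫ x : Fin n → ℝ,
      MvPolynomial.aeval x P / ∏ j, Polynomial.aeval (∑ k, (u j k : ℝ) * x k) (q j) =
        a * Real.pi ^ e
  choose d κ r hκ hκ0 hr hrim hfac using fun j => exists_factor (q j) (hq j)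
  set K : ℂ := ∏ j, κ j with hK
  have hKm : K ∈ CA := CA.prod_mem fun j _ => hκ j
  have hK0 : K ≠ 0 := Finset.prod_ne_zero_iff.mpr fun j _ => hκ0 j
  let P' : MvPolynomial (Fin n) CA := MvPolynomial.C ⟨K⁻¹, CA.inv_mem hKm⟩ * P.map toCA
  let ι := Σ j : Fin m, Fin (d j)
  let c : ι → Fin n → ℝ := fun i k => (u i.1 k : ℝ)
  let ρ : ι → ℂ := fun i => r i.1 i.2
  have hform : ∀ x : Fin n → ℝ,
      ((MvPolynomial.aeval x P / ∏ j, Polynomial.aeval (∑ k, (u j k : ℝ) * x k) (q j) : ℝ) : ℂ) =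
      MvPolynomial.aeval (fun k => (x k : ℂ)) P' / ∏ i, PlaneWave.form (c i) (ρ i) x := by
    intro x
    have h1 : ∏ i, PlaneWave.form (c i) (ρ i) x = ∏ j : Fin m, ∏ i : Fin (d j),
        (((∑ k, (u j k : ℝ) * x k : ℝ) : ℂ) - r j i) := by
      rw [Fintype.prod_sigma]
      apply Finset.prod_congr rfl
      intro j _
      apply Finset.prod_congr rfl
      intro i _
      simp only [PlaneWave.form, c, ρ]
      push_cast
      rfl
    have h2 : ((∏ j, Polynomial.aeval (∑ k, (u j k : ℝ) * x k) (q j) : ℝ) : ℂ) =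
        K * ∏ j : Fin m, ∏ i : Fin (d j), (((∑ k, (u j k : ℝ) * x k : ℝ) : ℂ) - r j i) := by
      rw [hK, ← Finset.prod_mul_distrib]
      push_cast
      apply Finset.prod_congr rfl
      intro j _
      have := hfac j (∑ k, (u j k : ℝ) * x k)
      push_cast at this
      exact this
    rw [Complex.ofReal_div, h2, h1]
    simp only [P']
    rw [map_mul, MvPolynomial.aeval_C, aeval_toCA]
    have h3 : (algebraMap CA ℂ) (⟨K⁻¹, CA.inv_mem hKm⟩ : CA) = K⁻¹ := rfl
    rw [h3]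
    simp only [div_eq_mul_inv, mul_inv]
    ring
  have hint' : Integrable (fun x : Fin n → ℝ =>
      MvPolynomial.aeval (fun k => (x k : ℂ)) P' / ∏ i, PlaneWave.form (c i) (ρ i) x) := by
    simp_rw [← hform]
    exact hint.ofReal
  obtain ⟨a, ha, hav⟩ := PlaneWave.planeWave CA I_mem_CA n c ρ
    (fun i k => ofReal_mem_CA.mpr (coe_mem_RB _)) (fun i => hr i.1 i.2) (fun i => hrim i.1 i.2)
    P' hint'
  simp_rw [← hform] at hav
  have hofR := integral_ofReal (𝕜 := ℂ) (μ := (volume : Measure (Fin n → ℝ)))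
    (f := fun x : Fin n → ℝ =>
      MvPolynomial.aeval x P / ∏ j, Polynomial.aeval (∑ k, (u j k : ℝ) * x k) (q j))
  have hav := hofR.symm.trans hav
  set v : ℝ := ∫ x : Fin n → ℝ,
      MvPolynomial.aeval x P / ∏ j, Polynomial.aeval (∑ k, (u j k : ℝ) * x k) (q j) with hv
  have hpi : Real.pi ^ n ≠ 0 := pow_ne_zero _ Real.pi_ne_zero
  have h4 : a = ((v / Real.pi ^ n : ℝ) : ℂ) := by
    have hpic : ((Real.pi : ℂ)) ^ n ≠ 0 := by exact_mod_cast hpi
    push_cast
    rw [eq_div_iff hpic]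
    exact hav.symm
  refine ⟨v / Real.pi ^ n, ?_, n, ?_⟩
  · rw [h4] at ha
    exact ofReal_mem_CA.mp ha
  · field_simp

theorem quadratic_eq {n : ℕ} (M : Fin n → Fin n → RealAlg) (b : Fin n → RealAlg) (c : RealAlg) :
    quadratic M b c = Quadric.quad (fun i j => (M i j : ℝ)) (fun i => (b i : ℝ)) (c : ℝ) := rfl

theorem quadric_value {v : ℝ} (hv : IsQuadricIntegral v) :
    ∃ a ∈ RB, ∃ e : ℕ, v = a * Real.pi ^ e := by
  obtain ⟨n, m, P, M, b, c, hM, hpos, hint, rfl⟩ := hv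
  change Integrable (fun x => MvPolynomial.aeval x P / √(quadratic M b c x) ^ m) at hint
  change ∃ a ∈ RB, ∃ e : ℕ, ∫ x, MvPolynomial.aeval x P / √(quadratic M b c x) ^ m =
        a * Real.pi ^ e
  rw [quadratic_eq] at *
  simp_rw [← aeval_toRB P] at hint ⊢
  exact Quadric.quadric_whole RB sqrt_mem_RB n m _ _ _ (fun i j => coe_mem_RB _)
    (fun i => coe_mem_RB _) (coe_mem_RB _) hM hpos _ (Quadric.mem_PF _) hint

theorem ellipsoid_value {v : ℝ} (hv : IsEllipsoidIntegral v) :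
    ∃ a ∈ RB, ∃ e : ℕ, v = a * Real.pi ^ e := by
  obtain ⟨n, m, P, M, b, c, hM, rfl⟩ := hv
  change ∃ a ∈ RB, ∃ e : ℕ, ∫ x in {x | quadratic M b c x ≤ 0},
      MvPolynomial.aeval x P * √(-(quadratic M b c x)) ^ m = a * Real.pi ^ e
  rw [quadratic_eq] at *
  simp_rw [← aeval_toRB P]
  set Q := Quadric.quad (fun i j => (M i j : ℝ)) (fun i => (b i : ℝ)) (c : ℝ) with hQ
  have hQc : Continuous Q := by
    rw [hQ]
    unfold Quadric.quad
    fun_prop
  have h1 : ∫ x in {x : Fin n → ℝ | Q x ≤ 0}, MvPolynomial.aeval x (P.map toRB) *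
      √(-(Q x)) ^ m = ∫ x : Fin n → ℝ, MvPolynomial.aeval x (P.map toRB) *
        Quadric.wt m (-(Q x)) := by
    rw [← integral_indicator (measurableSet_le hQc.measurable measurable_const)]
    congr 1
    funext x
    rw [Set.indicator_apply]
    unfold Quadric.wt
    by_cases h : Q x ≤ 0
    · rw [if_pos (show x ∈ {a | Q a ≤ 0} from h), if_pos (by linarith)]
    · rw [if_neg (show ¬ x ∈ {a | Q a ≤ 0} from h), if_neg (by linarith), mul_zero]
  rw [h1]
  by_cases hint : Integrable (fun x : Fin n → ℝ => MvPolynomial.aeval x (P.map toRB) *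
        Quadric.wt m (-(Q x)))
  · exact Quadric.quadric_solid RB sqrt_mem_RB n m _ _ _ (fun i j => coe_mem_RB _)
      (fun i => coe_mem_RB _) (coe_mem_RB _) hM _ (Quadric.mem_PF _) hint
  · exact ⟨0, RB.zero_mem, 0, by rw [integral_undef hint]; simp⟩

theorem pi_ridge : IsRidgeIntegral Real.pi := by
  have hme := volume_preserving_funUnique (Fin 1) ℝ
  have he : ∀ x : Fin 1 → ℝ, MeasurableEquiv.funUnique (Fin 1) ℝ x = x 0 := fun x => rfl
  have hf : (fun x : Fin 1 → ℝ => MvPolynomial.aeval x (1 : MvPolynomial (Fin 1) RealAlg) /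
      ∏ j : Fin 1, Polynomial.aeval (∑ k : Fin 1, ((1 : RealAlg) : ℝ) * x k)
        ((X ^ 2 + 1 : Polynomial RealAlg))) =
      fun x => (fun t : ℝ => (1 + t ^ 2)⁻¹) (MeasurableEquiv.funUnique (Fin 1) ℝ x) := by
    funext x
    rw [he]
    simp [add_comm]
  refine ⟨1, 1, 1, fun _ => X ^ 2 + 1, fun _ _ => 1, ?_, ?_, ?_⟩
  · intro j t
    simp only [evalOne, map_add, map_pow, aeval_X, map_one]
    positivity
  · change Integrable (fun x : Fin 1 → ℝ => MvPolynomial.aeval x (1 : MvPolynomial (Fin 1) RealAlg) /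
      ∏ j : Fin 1, Polynomial.aeval (∑ k : Fin 1, ((1 : RealAlg) : ℝ) * x k)
        ((X ^ 2 + 1 : Polynomial RealAlg)))
    rw [hf]
    exact (hme.integrable_comp_emb (MeasurableEquiv.measurableEmbedding _)).mpr
      integrable_inv_one_add_sq
  · change Real.pi = ∫ x : Fin 1 → ℝ, MvPolynomial.aeval x (1 : MvPolynomial (Fin 1) RealAlg) /
      ∏ j : Fin 1, Polynomial.aeval (∑ k : Fin 1, ((1 : RealAlg) : ℝ) * x k)
        ((X ^ 2 + 1 : Polynomial RealAlg))
    rw [hf]
    have h1 := hme.integral_comp (MeasurableEquiv.measurableEmbedding _)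
      (fun t : ℝ => (1 + t ^ 2)⁻¹)
    rw [integral_univ_inv_one_add_sq] at h1
    exact h1.symm

theorem value {v : ℝ} (hv : IsRidgeIntegral v ∨ IsQuadricIntegral v ∨ IsEllipsoidIntegral v) :
    ∃ a ∈ RB, ∃ e : ℕ, v = a * Real.pi ^ e := by
  rcases hv with h | h | h
  · exact ridge_value h
  · exact quadric_value h
  · exact ellipsoid_value h

theorem periodRing_eq : periodRing = Algebra.adjoin RealAlg {Real.pi} := by
  unfold periodRing
  apply le_antisymm
  · apply Algebra.adjoin_le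
    intro v hv
    obtain ⟨a, ha, e, rfl⟩ := value hv
    have hpi : Real.pi ∈ Algebra.adjoin RealAlg ({Real.pi} : Set ℝ) :=
      Algebra.subset_adjoin rfl
    exact Subalgebra.mul_mem _ (Subalgebra.algebraMap_mem _ (⟨a, ha⟩ : RealAlg))
      (Subalgebra.pow_mem _ hpi e)
  · apply Algebra.adjoin_mono
    rintro _ rfl
    exact Or.inl pi_ridge

theorem inv_pi_not_mem : (Real.pi)⁻¹ ∉ Algebra.adjoin RealAlg ({Real.pi} : Set ℝ) := by
  intro h
  rw [Algebra.adjoin_singleton_eq_range_aeval] at h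
  obtain ⟨p, hp⟩ := h
  have hp' : aeval Real.pi p = (Real.pi)⁻¹ := hp
  have h1 : IsAlgebraic RealAlg Real.pi := by
    refine ⟨X * p - 1, ?_, ?_⟩
    · intro h0
      have := congrArg (fun f => f.coeff 0) h0
      simp at this
    · rw [map_sub, map_mul, aeval_X, hp', map_one, mul_inv_cancel₀ Real.pi_ne_zero, sub_self]
  exact PiT.transcendental_pi (h1.restrictScalars ℚ)

theorem main : periodRing = Algebra.adjoin RealAlg {Real.pi} ∧ (Real.pi)⁻¹ ∉ periodRing := by
  refine ⟨periodRing_eq, ?_⟩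
  rw [periodRing_eq]
  exact inv_pi_not_mem

end Pool.Agent.Helper23.PeriodProof
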