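import Mathlib
import Pool.Agent.Helper57.EC.Defs

set_option autoImplicit false

namespace Pool.Agent.Helper23.ECPoly

open Finset Polynomial Pool.Agent.Helper57.EC

variable {V : Type*} [Fintype V] [DecidableEq V] (G : SimpleGraph V) [DecidableRel G.Adj]

theorem mem_covers {S : Finset (Sym2 V)} :
    S ∈ covers G ↔ S ⊆ G.edgeFinset ∧ ∀ v : V, ∃ e ∈ S, v ∈ e := by
  simp [covers]

theorem numCovers_eq_zero_of_lt {i : ℕ} (hi : G.edgeFinset.card < i) : numCovers G i = 0 := by
  unfold numCovers
  rw [card_eq_zero, filter_eq_empty_iff]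
  intro S hS hSi
  have := card_le_card ((mem_covers G).1 hS).1
  omega

theorem coeff_ec (k : ℕ) : (edgeCoverPoly G).coeff k = (numCovers G k : ℂ) := by
  unfold edgeCoverPoly
  rw [finsetSum_coeff]
  simp only [coeff_C_mul, coeff_X_pow]
  by_cases hk : k ≤ G.edgeFinset.card
  · rw [Finset.sum_eq_single k]
    · simp
    · intro b _ hb
      rw [if_neg (fun h => hb h.symm), mul_zero]
    · intro h
      exact absurd (mem_range.2 (by omega)) h
  · rw [numCovers_eq_zero_of_lt G (by omega), Nat.cast_zero]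
    apply Finset.sum_eq_zero
    intro i hi
    rw [if_neg, mul_zero]
    rw [mem_range] at hi
    omega

theorem incidence_sub (v : V) : G.incidenceFinset v ⊆ G.edgeFinset := by
  exact G.incidenceFinset_subset v

theorem mem_inc {v : V} {e : Sym2 V} : e ∈ G.incidenceFinset v ↔ e ∈ G.edgeFinset ∧ v ∈ e := by
  rw [SimpleGraph.mem_incidenceFinset, SimpleGraph.mem_edgeFinset, SimpleGraph.incidenceSet]
  simp

/-- Removing a set `D` of edges leaves a cover iff no incidence set is inside `D`. -/
theorem sdiff_mem_covers {D : Finset (Sym2 V)} :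
    G.edgeFinset \ D ∈ covers G ↔ ∀ v : V, ¬ G.incidenceFinset v ⊆ D := by
  rw [mem_covers]
  constructor
  · rintro ⟨_, h⟩ v hv
    obtain ⟨e, he, hve⟩ := h v
    rw [mem_sdiff] at he
    exact he.2 (hv ((mem_inc G).2 ⟨he.1, hve⟩))
  · intro h
    refine ⟨sdiff_subset, fun v => ?_⟩
    obtain ⟨e, he, heD⟩ := not_subset.1 (h v)
    rw [mem_inc] at he
    exact ⟨e, mem_sdiff.2 ⟨he.1, heD⟩, he.2⟩

theorem numCovers_compl {j : ℕ} (hj : j ≤ G.edgeFinset.card) :
    numCovers G (G.edgeFinset.card - j) =
      ((G.edgeFinset.powersetCard j).filter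
        (fun D => ∀ v : V, ¬ G.incidenceFinset v ⊆ D)).card := by
  unfold numCovers
  symm
  apply Finset.card_bij' (fun D _ => G.edgeFinset \ D) (fun S _ => G.edgeFinset \ S)
  · intro D hD
    rw [mem_filter, mem_powersetCard] at hD
    rw [mem_filter]
    refine ⟨(sdiff_mem_covers G).2 hD.2, ?_⟩
    rw [card_sdiff_of_subset hD.1.1, hD.1.2]
  · intro S hS
    rw [mem_filter] at hS
    have hSE := ((mem_covers G).1 hS.1).1
    rw [mem_filter, mem_powersetCard]
    refine ⟨⟨sdiff_subset, ?_⟩, ?_⟩
    · rw [card_sdiff_of_subset hSE, hS.2]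
      omega
    · rw [← sdiff_mem_covers G, Finset.sdiff_sdiff_eq_self hSE]
      exact hS.1
  · intro D hD
    rw [mem_filter, mem_powersetCard] at hD
    exact Finset.sdiff_sdiff_eq_self hD.1.1
  · intro S hS
    rw [mem_filter] at hS
    exact Finset.sdiff_sdiff_eq_self ((mem_covers G).1 hS.1).1

theorem card_inc (v : V) : (G.incidenceFinset v).card = G.degree v := by
  simp

theorem numCovers_top (hd : ∀ v, 2 ≤ G.degree v) : numCovers G G.edgeFinset.card = 1 := by
  have h := numCovers_compl G (j := 0) (Nat.zero_le _)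
  rw [Nat.sub_zero] at h
  rw [h, powersetCard_zero, filter_singleton, if_pos, card_singleton]
  intro v hv
  have := card_le_card hv
  rw [card_inc, card_empty] at this
  have := hd v
  omega

theorem numCovers_sub_one (hd : ∀ v, 2 ≤ G.degree v) (h1 : 1 ≤ G.edgeFinset.card) :
    numCovers G (G.edgeFinset.card - 1) = G.edgeFinset.card := by
  rw [numCovers_compl G h1, filter_true_of_mem, card_powersetCard, Nat.choose_one_right]
  intro D hD v hv
  rw [mem_powersetCard] at hD
  have := card_le_card hv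
  rw [card_inc] at this
  have := hd v
  omega

theorem inc_inj {v w : V} (hv : 2 ≤ G.degree v)
    (h : G.incidenceFinset v = G.incidenceFinset w) : v = w := by
  by_contra hne
  have hle : (G.incidenceFinset v).card ≤ 1 := by
    rw [card_le_one]
    have key : ∀ a ∈ G.incidenceFinset v, a = s(v, w) := by
      intro a ha
      have h1 := ((mem_inc G).1 ha).2
      have h2 := ((mem_inc G).1 (h ▸ ha)).2
      exact ((Sym2.mem_and_mem_iff hne).1 ⟨h1, h2⟩)
    intro a ha b hb
    rw [key a ha, key b hb]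
  rw [card_inc] at hle
  omega

theorem numCovers_sub_two (hd : ∀ v, 2 ≤ G.degree v) (h1 : 2 ≤ G.edgeFinset.card) :
    numCovers G (G.edgeFinset.card - 2) + (univ.filter (fun v => G.degree v = 2)).card =
      (G.edgeFinset.card).choose 2 := by
  rw [numCovers_compl G h1, ← card_powersetCard 2 G.edgeFinset]
  rw [← Finset.card_filter_add_card_filter_not (s := G.edgeFinset.powersetCard 2)
    (fun D => ∀ v : V, ¬ G.incidenceFinset v ⊆ D)]
  congr 1
  apply Finset.card_bij (fun v _ => G.incidenceFinset v)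
  · intro v hv
    rw [mem_filter] at hv
    rw [mem_filter, mem_powersetCard]
    refine ⟨⟨incidence_sub G v, by rw [card_inc, hv.2]⟩, ?_⟩
    intro h
    exact h v (Subset.refl _)
  · intro v hv w _ h
    exact inc_inj G (hd v) h
  · intro D hD
    rw [mem_filter, mem_powersetCard] at hD
    obtain ⟨⟨_, hD2⟩, hD3⟩ := hD
    push Not at hD3
    obtain ⟨v, hv⟩ := hD3
    have hle := card_le_card hv
    rw [card_inc] at hle
    have h2 := hd v
    refine ⟨v, ?_, ?_⟩
    · rw [mem_filter]
      exact ⟨mem_univ _, by omega⟩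
    · apply eq_of_subset_of_card_le hv
      rw [card_inc]
      omega

theorem numCovers_zero [Nonempty V] : numCovers G 0 = 0 := by
  unfold numCovers
  rw [card_eq_zero, filter_eq_empty_iff]
  intro S hS h0
  rw [card_eq_zero] at h0
  obtain ⟨v⟩ := ‹Nonempty V›
  obtain ⟨e, he, _⟩ := ((mem_covers G).1 hS).2 v
  rw [h0] at he
  exact absurd he (notMem_empty e)

theorem eval_one : (edgeCoverPoly G).eval 1 = ((covers G).card : ℂ) := by
  unfold edgeCoverPoly
  rw [eval_finsetSum]
  simp only [eval_mul, eval_C, eval_pow, eval_X, one_pow, mul_one]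
  rw [← Nat.cast_sum]
  congr 1
  unfold numCovers
  symm
  apply Finset.card_eq_sum_card_fiberwise
  intro S hS
  have := card_le_card ((mem_covers G).1 hS).1
  simp only [coe_range, Set.mem_Iio]
  omega

theorem natDegree_ec (hd : ∀ v, 2 ≤ G.degree v) :
    (edgeCoverPoly G).natDegree = G.edgeFinset.card := by
  apply natDegree_eq_of_le_of_coeff_ne_zero
  · rw [natDegree_le_iff_coeff_eq_zero]
    intro k hk
    rw [coeff_ec, numCovers_eq_zero_of_lt G hk, Nat.cast_zero]
  · rw [coeff_ec, numCovers_top G hd]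
    simp

theorem monic_ec (hd : ∀ v, 2 ≤ G.degree v) : (edgeCoverPoly G).Monic := by
  rw [Monic, leadingCoeff, natDegree_ec G hd, coeff_ec, numCovers_top G hd, Nat.cast_one]

/-- A monic complex polynomial with zero constant coefficient and at most two distinct roots
is `X ^ r * (X + a) ^ N`. -/
theorem shape {P : ℂ[X]} (hP : P.Monic) (h0 : P.coeff 0 = 0)
    (h : {z : ℂ | P.IsRoot z}.ncard ≤ 2) :
    ∃ (r N : ℕ) (a : ℂ), 1 ≤ r ∧ r + N = P.natDegree ∧ P = X ^ r * (X + C a) ^ N := by
  classical
  have hset : {z : ℂ | P.IsRoot z} = (P.roots.toFinset : Set ℂ) := by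
    ext z
    simp [hP.ne_zero]
  rw [hset, Set.ncard_coe_finset] at h
  have h0mem : (0 : ℂ) ∈ P.roots := by
    rw [mem_roots hP.ne_zero, IsRoot, ← coeff_zero_eq_eval_zero, h0]
  have hb : ∃ b : ℂ, ∀ z ∈ P.roots, z = 0 ∨ z = b := by
    have h1 : (P.roots.toFinset.erase 0).card ≤ 1 := by
      rw [card_erase_of_mem (Multiset.mem_toFinset.2 h0mem)]
      omega
    rw [card_le_one_iff_subset_singleton] at h1
    obtain ⟨b, hb⟩ := h1
    refine ⟨b, fun z hz => ?_⟩
    by_cases hz0 : z = 0
    · exact Or.inl hz0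
    · right
      have := hb (mem_erase.2 ⟨hz0, Multiset.mem_toFinset.2 hz⟩)
      exact mem_singleton.1 this
  obtain ⟨b, hb⟩ := hb
  have hsplit := (IsAlgClosed.splits P).eq_prod_roots_of_monic hP
  have hcard : P.roots.card = P.natDegree := by
    exact (IsAlgClosed.splits P).natDegree_eq_card_roots.symm
  set s := P.roots with hs
  have hdecomp : s = s.filter (fun z => z = 0) + s.filter (fun z => ¬ z = 0) :=
    (Multiset.filter_add_not _ _).symm
  have hA : s.filter (fun z => z = 0) = Multiset.replicate (s.filter (fun z => z = 0)).card 0 := by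
    rw [Multiset.eq_replicate]
    exact ⟨rfl, fun z hz => (Multiset.mem_filter.1 hz).2⟩
  have hB : s.filter (fun z => ¬ z = 0) =
      Multiset.replicate (s.filter (fun z => ¬ z = 0)).card b := by
    rw [Multiset.eq_replicate]
    refine ⟨rfl, fun z hz => ?_⟩
    rw [Multiset.mem_filter] at hz
    exact (hb z hz.1).resolve_left hz.2
  refine ⟨(s.filter (fun z => z = 0)).card, (s.filter (fun z => ¬ z = 0)).card, -b, ?_, ?_, ?_⟩
  · rw [Nat.one_le_iff_ne_zero, Ne, Multiset.card_eq_zero]
    intro he
    have : (0 : ℂ) ∈ s.filter (fun z => z = 0) := Multiset.mem_filter.2 ⟨h0mem, rfl⟩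
    rw [he] at this
    exact absurd this (Multiset.notMem_zero _)
  · rw [← hcard, ← Multiset.card_add, ← hdecomp]
  · calc P = (s.map (fun a => X - C a)).prod := hsplit
      _ = ((s.filter (fun z => z = 0)).map (fun a => X - C a)).prod *
          ((s.filter (fun z => ¬ z = 0)).map (fun a => X - C a)).prod := by
          rw [← Multiset.prod_add, ← Multiset.map_add, ← hdecomp]
      _ = _ := by
          rw [hA, hB]
          simp only [Multiset.map_replicate, Multiset.prod_replicate, Multiset.card_replicate,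
            C_0, C_neg, sub_eq_add_neg, neg_zero, add_zero]

theorem coeff_shape (r N : ℕ) (a : ℂ) (j : ℕ) :
    (X ^ r * (X + C a) ^ N : ℂ[X]).coeff (j + r) = a ^ (N - j) * (N.choose j : ℂ) := by
  rw [coeff_X_pow_mul, coeff_X_add_C_pow]

theorem coeff_shape_lt (r N : ℕ) (a : ℂ) (k : ℕ) (hk : k < r) :
    (X ^ r * (X + C a) ^ N : ℂ[X]).coeff k = 0 := by
  rw [coeff_X_pow_mul', if_neg (by omega)]

theorem part1 {V : Type*} [Fintype V] [DecidableEq V] [Nonempty V] (G : SimpleGraph V)
    [DecidableRel G.Adj] (hd : ∀ v, 2 ≤ G.degree v)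
    (h : {z : ℂ | (edgeCoverPoly G).IsRoot z}.ncard ≤ 2) :
    ∃ r N q : ℕ, r + N = G.edgeFinset.card ∧ N * q = G.edgeFinset.card ∧ 1 ≤ r ∧ 1 ≤ N ∧
      (∀ S ∈ covers G, r ≤ S.card) ∧ (covers G).card = (1+q)^N ∧
      N.choose 2 * q^2 + (Finset.univ.filter (fun v => G.degree v = 2)).card =
        (G.edgeFinset.card).choose 2 := by
  have hm2 : 2 ≤ G.edgeFinset.card := by
    obtain ⟨v⟩ := ‹Nonempty V›
    have := card_le_card (incidence_sub G v)
    rw [card_inc] at this
    exact (hd v).trans this
  obtain ⟨r, N, a, hr, hrN, hP⟩ := shape (monic_ec G hd)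
    (by rw [coeff_ec, numCovers_zero, Nat.cast_zero]) h
  rw [natDegree_ec G hd] at hrN
  have hco : ∀ j, (numCovers G (j + r) : ℂ) = a ^ (N - j) * (N.choose j : ℂ) := by
    intro j
    rw [← coeff_ec, hP, coeff_shape]
  have hlt : ∀ k, k < r → numCovers G k = 0 := by
    intro k hk
    have : (numCovers G k : ℂ) = 0 := by
      rw [← coeff_ec, hP, coeff_shape_lt _ _ _ _ hk]
    exact_mod_cast this
  have hN : 1 ≤ N := by
    by_contra hN
    have hN0 : N = 0 := by omega
    have h1 := hlt (G.edgeFinset.card - 1) (by omega)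
    rw [numCovers_sub_one G hd (by omega)] at h1
    omega
  have hNa : (a : ℂ) * N = (G.edgeFinset.card : ℂ) := by
    have h1 := hco (N - 1)
    have e1 : N - 1 + r = G.edgeFinset.card - 1 := by omega
    have e2 : N - (N - 1) = 1 := by omega
    rw [e1, numCovers_sub_one G hd (by omega), e2, pow_one, Nat.choose_symm hN,
      Nat.choose_one_right] at h1
    exact h1.symm
  have ha : a ^ N = (numCovers G r : ℂ) := by
    have h1 := hco 0
    rw [Nat.zero_add, Nat.sub_zero, Nat.choose_zero_right, Nat.cast_one, mul_one] at h1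
    exact h1.symm
  have hdvd : N ^ N ∣ (G.edgeFinset.card) ^ N := by
    refine ⟨numCovers G r, ?_⟩
    have : ((G.edgeFinset.card ^ N : ℕ) : ℂ) = ((N ^ N * numCovers G r : ℕ) : ℂ) := by
      push_cast
      rw [← hNa, ← ha, mul_pow, mul_comm]
    exact_mod_cast this
  rw [Nat.pow_dvd_pow_iff (by omega)] at hdvd
  obtain ⟨q, hq⟩ := hdvd
  have haq : a = (q : ℂ) := by
    have hNne : (N : ℂ) ≠ 0 := by
      have : N ≠ 0 := by omega
      exact_mod_cast this
    rw [hq] at hNa
    push_cast at hNa
    rw [mul_comm] at hNa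
    exact mul_left_cancel₀ hNne hNa
  refine ⟨r, N, q, hrN, hq.symm, hr, hN, ?_, ?_, ?_⟩
  · intro S hS
    by_contra hlt'
    have h0 := hlt S.card (by omega)
    unfold numCovers at h0
    rw [card_eq_zero, filter_eq_empty_iff] at h0
    exact h0 hS rfl
  · have h1 := eval_one G
    rw [hP] at h1
    simp only [eval_mul, eval_pow, eval_X, one_pow, one_mul, eval_add, eval_C] at h1
    rw [haq] at h1
    have : (((1 + q) ^ N : ℕ) : ℂ) = ((covers G).card : ℂ) := by
      push_cast
      exact h1
    exact_mod_cast this.symm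
  · rw [← numCovers_sub_two G hd hm2]
    congr 1
    by_cases hN1 : N = 1
    · rw [hlt (G.edgeFinset.card - 2) (by omega), hN1]
      simp
    · have h1 := hco (N - 2)
      have e1 : N - 2 + r = G.edgeFinset.card - 2 := by omega
      have e2 : N - (N - 2) = 2 := by omega
      rw [e1, e2, Nat.choose_symm (by omega), haq] at h1
      have : ((numCovers G (G.edgeFinset.card - 2) : ℕ) : ℂ) = ((N.choose 2 * q ^ 2 : ℕ) : ℂ) := by
        push_cast
        rw [h1, mul_comm]
      exact_mod_cast this.symm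

end Pool.Agent.Helper23.ECPoly
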