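import Pool.Agent.Helper96.HierGraph

set_option autoImplicit false

open Filter Topology
open scoped Classical

namespace Pool.Agent.Helper23.ER

open Pool.Agent.Helper96.HP

/-- probability of staying in the strip -/
noncomputable def Vf (p P A : ℝ) : ℕ → ℝ → ℝ
  | 0, x => if |x| < A then 1 else 0
  | n + 1, x => if |x| < A then p * Vf p P A n (x + 1 - P) + (1 - p) * Vf p P A n (x - P) else 0

theorem Vf_nonneg {p P A : ℝ} (h0 : 0 ≤ p) (h1 : p ≤ 1) (n : ℕ) (x : ℝ) : 0 ≤ Vf p P A n x := by
  induction n generalizing x with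
  | zero => unfold Vf; split_ifs <;> norm_num
  | succ n ih =>
    unfold Vf
    split_ifs
    · have := mul_nonneg h0 (ih (x + 1 - P))
      have := mul_nonneg (sub_nonneg.mpr h1) (ih (x - P))
      linarith
    · exact le_rfl

theorem Vf_lower {P A : ℝ} (h0 : 0 ≤ P) (h1 : P ≤ 1) (hA : 0 < A) (n : ℕ) (x : ℝ) :
    (1 - Vf P P A n x) * A ^ 2 ≤ x ^ 2 + n * (P * (1 - P)) := by
  have hPP : 0 ≤ P * (1 - P) := mul_nonneg h0 (sub_nonneg.mpr h1)
  have hbig : ∀ x : ℝ, ¬ |x| < A → A ^ 2 ≤ x ^ 2 := by
    intro x hx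
    rw [not_lt] at hx
    rw [← sq_abs x]
    exact pow_le_pow_left₀ hA.le hx 2
  induction n generalizing x with
  | zero =>
    unfold Vf
    split_ifs with h
    · simp; positivity
    · have := hbig x h
      simp; exact this
  | succ n ih =>
    unfold Vf
    split_ifs with h
    · have e1 := mul_le_mul_of_nonneg_left (ih (x + 1 - P)) h0
      have e2 := mul_le_mul_of_nonneg_left (ih (x - P)) (sub_nonneg.mpr h1)
      push_cast
      linarith [e1, e2]
    · have e1 := hbig x h
      have e2 : 0 ≤ ((n + 1 : ℕ) : ℝ) * (P * (1 - P)) := by positivity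
      linarith

theorem Vf_compare {p P A : ℝ} (h0 : 0 < p) (h1 : p < 1) (n : ℕ) (x : ℝ) :
    Vf P P A n x ^ 2 ≤ (P ^ 2 / p + (1 - P) ^ 2 / (1 - p)) ^ n * Vf p P A n x := by
  have hk : 0 ≤ P ^ 2 / p + (1 - P) ^ 2 / (1 - p) := by
    have : 0 < 1 - p := sub_pos.mpr h1
    positivity
  induction n generalizing x with
  | zero => unfold Vf; split_ifs <;> norm_num
  | succ n ih =>
    unfold Vf
    split_ifs with h
    · set κ := P ^ 2 / p + (1 - P) ^ 2 / (1 - p) with hκ
      set a := Vf P P A n (x + 1 - P)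
      set b := Vf P P A n (x - P)
      have e1 := ih (x + 1 - P)
      have e2 := ih (x - P)
      have h1' : 0 < 1 - p := sub_pos.mpr h1
      have cs : (P * a + (1 - P) * b) ^ 2 ≤ κ * (p * a ^ 2 + (1 - p) * b ^ 2) := by
        have key : κ * (p * a ^ 2 + (1 - p) * b ^ 2) - (P * a + (1 - P) * b) ^ 2 =
            (P * (1 - p) * b - (1 - P) * p * a) ^ 2 / (p * (1 - p)) := by
          rw [hκ]
          field_simp
          ring
        have : 0 ≤ (P * (1 - p) * b - (1 - P) * p * a) ^ 2 / (p * (1 - p)) := by positivity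
        linarith
      refine cs.trans ?_
      rw [pow_succ' κ n, mul_assoc κ]
      apply mul_le_mul_of_nonneg_left _ hk
      have f1 := mul_le_mul_of_nonneg_left e1 h0.le
      have f2 := mul_le_mul_of_nonneg_left e2 h1'.le
      linarith [f1, f2]
    · simp

variable {V : Type} [Fintype V]

theorem graphProb_update (q : Sym2 V → ℝ) (e : Sym2 V) (he : ¬ e.IsDiag) (a : ℝ)
    (G : SimpleGraph V) : graphProb (Function.update q e a) G =
      a * graphProb (Function.update q e 1) G + (1 - a) * graphProb (Function.update q e 0) G := by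
  unfold graphProb
  have hmem : e ∈ Finset.univ.filter (fun e : Sym2 V => ¬ e.IsDiag) := by simp [he]
  have h1 : ∀ b : ℝ, (∏ e' ∈ Finset.univ.filter (fun e : Sym2 V => ¬ e.IsDiag),
      if e' ∈ G.edgeSet then Function.update q e b e' else 1 - Function.update q e b e') =
      (if e ∈ G.edgeSet then b else 1 - b) *
      ∏ e' ∈ (Finset.univ.filter (fun e : Sym2 V => ¬ e.IsDiag)).erase e,
        if e' ∈ G.edgeSet then q e' else 1 - q e' := by
    intro b
    rw [← Finset.mul_prod_erase _ _ hmem, Function.update_self]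
    congr 1
    apply Finset.prod_congr rfl
    intro e' he'
    rw [Function.update_of_ne (Finset.ne_of_mem_erase he')]
  rw [h1, h1, h1]
  split_ifs <;> ring

theorem graphExpect_update (q : Sym2 V → ℝ) (e : Sym2 V) (he : ¬ e.IsDiag) (a : ℝ)
    (F : SimpleGraph V → ℝ) : graphExpect (Function.update q e a) F =
      a * graphExpect (Function.update q e 1) F +
        (1 - a) * graphExpect (Function.update q e 0) F := by
  unfold graphExpect
  rw [Finset.mul_sum, Finset.mul_sum, ← Finset.sum_add_distrib]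
  apply Finset.sum_congr rfl
  intro G _
  rw [graphProb_update q e he a G]
  ring

/-- conditional edge probabilities -/
noncomputable def pf (p : ℝ) (Y Z : Finset (Sym2 V)) : Sym2 V → ℝ :=
  fun e => if e ∈ Y then 1 else if e ∈ Z then 0 else p

theorem step (p : ℝ) (Y Z : Finset (Sym2 V)) (e : Sym2 V) (he : ¬ e.IsDiag) (hY : e ∉ Y)
    (hZ : e ∉ Z) (F : SimpleGraph V → ℝ) :
    graphExpect (pf p Y Z) F = p * graphExpect (pf p (insert e Y) Z) F +
      (1 - p) * graphExpect (pf p Y (insert e Z)) F := by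
  have h1 : pf p Y Z = Function.update (pf p Y Z) e p := by
    funext e'
    by_cases h : e' = e
    · subst h
      rw [Function.update_self, pf, if_neg hY, if_neg hZ]
    · rw [Function.update_of_ne h]
  have h2 : pf p (insert e Y) Z = Function.update (pf p Y Z) e 1 := by
    funext e'
    by_cases h : e' = e
    · subst h
      rw [Function.update_self, pf, if_pos (Finset.mem_insert_self _ _)]
    · rw [Function.update_of_ne h, pf, pf]
      simp [Finset.mem_insert, h]
  have h3 : pf p Y (insert e Z) = Function.update (pf p Y Z) e 0 := by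
    funext e'
    by_cases h : e' = e
    · subst h
      rw [Function.update_self, pf, if_neg hY, if_pos (Finset.mem_insert_self _ _)]
    · rw [Function.update_of_ne h, pf, pf]
      simp [Finset.mem_insert, h]
  rw [h2, h3]
  conv_lhs => rw [h1]
  exact graphExpect_update _ _ he _ _

omit [Fintype V] in
theorem pf_mem {p : ℝ} (h0 : 0 ≤ p) (h1 : p ≤ 1) (Y Z : Finset (Sym2 V)) (e : Sym2 V) :
    0 ≤ pf p Y Z e ∧ pf p Y Z e ≤ 1 := by
  unfold pf
  split_ifs <;> constructor <;> linarith

theorem expect_nonneg {p : ℝ} (h0 : 0 ≤ p) (h1 : p ≤ 1) (Y Z : Finset (Sym2 V))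
    (F : SimpleGraph V → ℝ) (hF : ∀ G, 0 ≤ F G) : 0 ≤ graphExpect (pf p Y Z) F := by
  have := graphExpect_mono (p := pf p Y Z) (F := fun _ => 0) (G := F)
    (fun e _ => (pf_mem h0 h1 Y Z e).1) (fun e _ => (pf_mem h0 h1 Y Z e).2) hF
  rwa [graphExpect_const] at this

theorem expect_one (p : ℝ) (Y Z : Finset (Sym2 V)) (hY : ∀ e ∈ Y, ¬ e.IsDiag)
    (F : SimpleGraph V → ℝ) (hF : ∀ G, (∀ e ∈ Y, e ∈ G.edgeSet) → F G = 1) :
    graphExpect (pf p Y Z) F = 1 := by
  have h1 : graphExpect (pf p Y Z) F = graphExpect (pf p Y Z) (fun _ => 1) := by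
    unfold graphExpect
    apply Finset.sum_congr rfl
    intro G _
    by_cases h : ∀ e ∈ Y, e ∈ G.edgeSet
    · rw [hF G h]
    · push Not at h
      obtain ⟨e, heY, heG⟩ := h
      have h0 : graphProb (pf p Y Z) G = 0 := by
        unfold graphProb
        apply Finset.prod_eq_zero (i := e) (by simp [hY e heY])
        rw [if_neg heG, pf, if_pos heY, sub_self]
      rw [h0, zero_mul, zero_mul]
  rw [h1, graphExpect_const]

/-- invariants of the exploration -/
structure Inv (T t1 : ℕ) (P A R : ℝ) (D B : Finset V) (Y Z : Finset (Sym2 V)) : Prop where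
  sub : B ⊆ D
  disj : Disjoint Y Z
  closed : ∀ u ∈ D, u ∉ B → ∀ t, t ∉ D → s(u, t) ∈ Y ∪ Z
  nondiag : ∀ e ∈ Y ∪ Z, ¬ e.IsDiag
  touch : ∀ e ∈ Y ∪ Z, ∃ u ∈ D, u ∈ e
  conn : ∀ G : SimpleGraph V, (∀ e ∈ Y, e ∈ G.edgeSet) → ∀ u ∈ B, ∀ v ∈ B, G.Reachable u v
  card1 : (Y.card : ℝ) ≤ D.card
  card2 : (D.card : ℝ) ≤ Y.card + R
  late : t1 < Y.card + Z.card → (Y.card : ℝ) - B.card ≤ P * t1 + A

theorem card_prod_le (D : Finset V) (Q : Finset (Sym2 V))
    (h : ∀ u ∈ D, ∀ t, t ∉ D → s(u, t) ∈ Q) :
    D.card * (Fintype.card V - D.card) ≤ Q.card := by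
  rw [← Finset.card_compl, ← Finset.card_product]
  apply Finset.card_le_card_of_injOn (fun z => s(z.1, z.2))
  · intro z hz
    rw [Finset.mem_coe, Finset.mem_product, Finset.mem_compl] at hz
    exact h _ hz.1 _ hz.2
  · rintro ⟨a, b⟩ hz ⟨a', b'⟩ hz' heq
    rw [Finset.mem_coe, Finset.mem_product, Finset.mem_compl] at hz hz'
    simp only [Sym2.eq_iff] at heq
    rcases heq with ⟨h1, h2⟩ | ⟨h1, h2⟩
    · rw [h1, h2]
    · exfalso
      apply hz'.2
      rw [← h1]
      exact hz.1

theorem explore {p P A R s : ℝ} {T t1 : ℕ} (hp0 : 0 < p) (hp1 : p < 1) (hP0 : 0 < P)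
    (ht : t1 < T) (hV : 4 ≤ (Fintype.card V : ℝ))
    (hR : ∀ d : ℝ, 0 ≤ d → d * (Fintype.card V / 2) ≤ T → d + 1 ≤ R)
    (hhalf : P * T + A + R ≤ Fintype.card V / 2)
    (hroot : ∀ τ : ℕ, ∀ X : ℝ, t1 ≤ τ → τ < T → |X - P * τ| < A → (τ : ℝ) < X * (Fintype.card V - X))
    (hs : 0 < s) (hsize : s ≤ P * (T - t1) - 2 * A) (n : ℕ) :
    ∀ (D B : Finset V) (Y Z : Finset (Sym2 V)), Inv T t1 P A R D B Y Z →
      Y.card + Z.card + n = T →
      Vf p P A n ((Y.card : ℝ) - P * ((Y.card + Z.card : ℕ) : ℝ)) ≤
        graphExpect (pf p Y Z) (fun G =>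
          if ∃ C : G.ConnectedComponent, s ≤ (C.supp.ncard : ℝ) then 1 else 0) := by
  set F : SimpleGraph V → ℝ := fun G =>
    if ∃ C : G.ConnectedComponent, s ≤ (C.supp.ncard : ℝ) then 1 else 0 with hF
  have hF0 : ∀ G, 0 ≤ F G := by
    intro G
    rw [hF]
    simp only
    split_ifs <;> norm_num
  induction n with
  | zero =>
    intro D B Y Z hI hτ
    unfold Vf
    split_ifs with hx
    · apply le_of_eq
      symm
      apply expect_one
      · intro e he
        exact hI.nondiag e (Finset.mem_union_left _ he)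
      · intro G hG
        have hτ' : Y.card + Z.card = T := by omega
        rw [hτ'] at hx
        have h1 := hI.late (by omega)
        have h2 : (B.card : ℝ) ≥ s := by
          rw [abs_lt] at hx
          linarith [hx.1]
        have h3 : 0 < B.card := by
          have : (0 : ℝ) < B.card := lt_of_lt_of_le hs h2
          exact_mod_cast this
        obtain ⟨b, hb⟩ := Finset.card_pos.mp h3
        rw [hF]
        simp only
        rw [if_pos]
        refine ⟨G.connectedComponentMk b, h2.trans ?_⟩
        have h4 : (B : Set V) ⊆ (G.connectedComponentMk b).supp := by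
          intro v hv
          rw [SimpleGraph.ConnectedComponent.mem_supp_iff, SimpleGraph.ConnectedComponent.eq]
          exact hI.conn G hG v hv b hb
        have h5 := Set.ncard_le_ncard h4 (Set.toFinite _)
        rw [Set.ncard_coe_finset] at h5
        exact_mod_cast h5
    · exact expect_nonneg hp0.le hp1.le Y Z F hF0
  | succ n ih =>
    intro D B Y Z hI hτ
    unfold Vf
    split_ifs with hx
    swap
    · exact expect_nonneg hp0.le hp1.le Y Z F hF0
    set τ := Y.card + Z.card with hτd
    have hτT : τ < T := by omega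
    have hτR : (τ : ℝ) ≤ T := by exact_mod_cast hτT.le
    have hx' := abs_lt.mp hx
    have hDhalf : (D.card : ℝ) ≤ Fintype.card V / 2 := by
      have h1 := hI.card2
      have h2 : P * τ ≤ P * T := mul_le_mul_of_nonneg_left hτR hP0.le
      linarith [hx'.2]
    by_cases hcase : ∃ u ∈ B, ∃ t, t ∉ D ∧ s(u, t) ∉ Y ∪ Z
    · obtain ⟨u, hu, t, htD, hfresh⟩ := hcase
      have huD : u ∈ D := hI.sub hu
      have hut : u ≠ t := fun h => htD (h ▸ huD)
      have hdiag : ¬ (s(u, t)).IsDiag := by simpa using hut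
      rw [Finset.mem_union, not_or] at hfresh
      have htB : t ∉ B := fun h => htD (hI.sub h)
      rw [step p Y Z s(u, t) hdiag hfresh.1 hfresh.2]
      have hlate : t1 < τ + 1 → (Y.card : ℝ) - B.card ≤ P * t1 + A := by
        intro h
        rcases (Nat.lt_succ_iff.mp h).eq_or_lt with h1 | h1
        · have h2 : (0 : ℝ) ≤ B.card := Nat.cast_nonneg _
          rw [h1]
          linarith [hx'.2]
        · exact hI.late h1
      have iy : Inv T t1 P A R (insert t D) (insert t B) (insert s(u, t) Y) Z := by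
        refine ⟨?_, ?_, ?_, ?_, ?_, ?_, ?_, ?_, ?_⟩
        · exact Finset.insert_subset_insert _ hI.sub
        · rw [Finset.disjoint_insert_left]
          exact ⟨hfresh.2, hI.disj⟩
        · intro v hv hvB w hw
          rw [Finset.mem_insert, not_or] at hvB hw
          rw [Finset.mem_insert] at hv
          have h1 := hI.closed v (hv.resolve_left hvB.1) hvB.2 w hw.2
          rw [Finset.mem_union] at h1 ⊢
          rcases h1 with h1 | h1
          · exact Or.inl (Finset.mem_insert_of_mem h1)
          · exact Or.inr h1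
        · intro e he
          rw [Finset.insert_union, Finset.mem_insert] at he
          rcases he with rfl | he
          · exact hdiag
          · exact hI.nondiag e he
        · intro e he
          rw [Finset.insert_union, Finset.mem_insert] at he
          rcases he with rfl | he
          · exact ⟨t, Finset.mem_insert_self _ _, Sym2.mem_mk_right _ _⟩
          · obtain ⟨v, hv, hve⟩ := hI.touch e he
            exact ⟨v, Finset.mem_insert_of_mem hv, hve⟩
        · intro G hG v hv w hw
          have hG' : ∀ e ∈ Y, e ∈ G.edgeSet := fun e he => hG e (Finset.mem_insert_of_mem he)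
          have hadj : G.Reachable u t := by
            have h1 := hG _ (Finset.mem_insert_self _ _)
            rw [SimpleGraph.mem_edgeSet] at h1
            exact h1.reachable
          have hall : ∀ v ∈ insert t B, G.Reachable u v := by
            intro v hv
            rw [Finset.mem_insert] at hv
            rcases hv with rfl | hv
            · exact hadj
            · exact hI.conn G hG' u hu v hv
          exact (hall v hv).symm.trans (hall w hw)
        · rw [Finset.card_insert_of_notMem hfresh.1, Finset.card_insert_of_notMem htD]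
          push_cast
          linarith [hI.card1]
        · rw [Finset.card_insert_of_notMem hfresh.1, Finset.card_insert_of_notMem htD]
          push_cast
          linarith [hI.card2]
        · rw [Finset.card_insert_of_notMem hfresh.1, Finset.card_insert_of_notMem htB]
          intro h
          push_cast
          have := hlate (by omega)
          linarith
      have iz : Inv T t1 P A R D B Y (insert s(u, t) Z) := by
        refine ⟨hI.sub, ?_, ?_, ?_, ?_, hI.conn, hI.card1, hI.card2, ?_⟩
        · rw [Finset.disjoint_insert_right]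
          exact ⟨hfresh.1, hI.disj⟩
        · intro v hv hvB w hw
          have h1 := hI.closed v hv hvB w hw
          rw [Finset.union_insert]
          exact Finset.mem_insert_of_mem h1
        · intro e he
          rw [Finset.union_insert, Finset.mem_insert] at he
          rcases he with rfl | he
          · exact hdiag
          · exact hI.nondiag e he
        · intro e he
          rw [Finset.union_insert, Finset.mem_insert] at he
          rcases he with rfl | he
          · exact ⟨u, huD, Sym2.mem_mk_left _ _⟩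
          · exact hI.touch e he
        · rw [Finset.card_insert_of_notMem hfresh.2]
          intro h
          exact hlate (by omega)
      have ey := ih _ _ _ _ iy (by rw [Finset.card_insert_of_notMem hfresh.1]; omega)
      have ez := ih _ _ _ _ iz (by rw [Finset.card_insert_of_notMem hfresh.2]; omega)
      rw [Finset.card_insert_of_notMem hfresh.1] at ey
      rw [Finset.card_insert_of_notMem hfresh.2] at ez
      have a1 : (((Y.card + 1 : ℕ) : ℝ) - P * ((Y.card + 1 + Z.card : ℕ) : ℝ)) =
          (Y.card : ℝ) - P * (τ : ℝ) + 1 - P := by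
        rw [hτd]; push_cast; ring
      have a2 : ((Y.card : ℝ) - P * ((Y.card + (Z.card + 1) : ℕ) : ℝ)) =
          (Y.card : ℝ) - P * (τ : ℝ) - P := by
        rw [hτd]; push_cast; ring
      rw [a1] at ey
      rw [a2] at ez
      exact add_le_add (mul_le_mul_of_nonneg_left ey hp0.le)
        (mul_le_mul_of_nonneg_left ez (sub_nonneg.mpr hp1.le))
    · push Not at hcase
      have hall : ∀ u ∈ D, ∀ t, t ∉ D → s(u, t) ∈ Y ∪ Z := by
        intro u hu t ht
        by_cases huB : u ∈ B
        · exact hcase u huB t ht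
        · exact hI.closed u hu huB t ht
      have hcard := card_prod_le D (Y ∪ Z) hall
      rw [Finset.card_union_of_disjoint hI.disj] at hcard
      have hDV : D.card ≤ Fintype.card V := Finset.card_le_univ D
      have hcardR : (D.card : ℝ) * (Fintype.card V - D.card) ≤ τ := by
        have : ((D.card * (Fintype.card V - D.card) : ℕ) : ℝ) ≤ ((Y.card + Z.card : ℕ) : ℝ) := by
          exact_mod_cast hcard
        rw [Nat.cast_mul, Nat.cast_sub hDV] at this
        exact this
      have hearly : τ < t1 := by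
        by_contra hlate
        rw [not_lt] at hlate
        have h1 := hroot τ Y.card hlate hτT hx
        have h2 := hI.card1
        have h3 : (Y.card : ℝ) ≤ Fintype.card V / 2 := h2.trans hDhalf
        have h4 := mul_nonneg (sub_nonneg.mpr h2)
          (sub_nonneg.mpr (add_le_add h3 hDhalf))
        linarith
      have hD1 : (D.card : ℝ) + 1 ≤ R := by
        apply hR _ (Nat.cast_nonneg _)
        have : (D.card : ℝ) * (Fintype.card V / 2) ≤ D.card * (Fintype.card V - D.card) := by
          apply mul_le_mul_of_nonneg_left _ (Nat.cast_nonneg _)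
          linarith
        linarith
      have hcompl : 1 < (Dᶜ).card := by
        rw [Finset.card_compl]
        have : (1 : ℝ) < (Fintype.card V : ℝ) - D.card := by linarith
        have h2 : (1 : ℝ) < ((Fintype.card V - D.card : ℕ) : ℝ) := by
          rw [Nat.cast_sub hDV]; exact this
        exact_mod_cast h2
      obtain ⟨r, hr, t, ht', hrt⟩ := Finset.one_lt_card.mp hcompl
      rw [Finset.mem_compl] at hr ht'
      have hdiag : ¬ (s(r, t)).IsDiag := by simpa using hrt
      have hfresh' : s(r, t) ∉ Y ∪ Z := by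
        intro h
        obtain ⟨v, hv, hve⟩ := hI.touch _ h
        rw [Sym2.mem_iff] at hve
        rcases hve with rfl | rfl
        · exact hr hv
        · exact ht' hv
      have hfresh := hfresh'
      rw [Finset.mem_union, not_or] at hfresh
      rw [step p Y Z s(r, t) hdiag hfresh.1 hfresh.2]
      have htr : t ∉ insert r D := by
        rw [Finset.mem_insert, not_or]
        exact ⟨fun h => hrt h.symm, ht'⟩
      have iy : Inv T t1 P A R (insert t (insert r D)) {r, t} (insert s(r, t) Y) Z := by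
        refine ⟨?_, ?_, ?_, ?_, ?_, ?_, ?_, ?_, ?_⟩
        · intro v hv
          rw [Finset.mem_insert, Finset.mem_singleton] at hv
          rcases hv with rfl | rfl
          · exact Finset.mem_insert_of_mem (Finset.mem_insert_self _ _)
          · exact Finset.mem_insert_self _ _
        · rw [Finset.disjoint_insert_left]
          exact ⟨hfresh.2, hI.disj⟩
        · intro v hv hvB w hw
          rw [Finset.mem_insert, Finset.mem_insert] at hv
          rw [Finset.mem_insert, Finset.mem_insert, not_or, not_or] at hw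
          rw [Finset.mem_insert, Finset.mem_singleton, not_or] at hvB
          have hvD : v ∈ D := (hv.resolve_left hvB.2).resolve_left hvB.1
          rw [Finset.insert_union]
          exact Finset.mem_insert_of_mem (hall v hvD w hw.2.2)
        · intro e he
          rw [Finset.insert_union, Finset.mem_insert] at he
          rcases he with rfl | he
          · exact hdiag
          · exact hI.nondiag e he
        · intro e he
          rw [Finset.insert_union, Finset.mem_insert] at he
          rcases he with rfl | he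
          · exact ⟨t, Finset.mem_insert_self _ _, Sym2.mem_mk_right _ _⟩
          · obtain ⟨v, hv, hve⟩ := hI.touch e he
            exact ⟨v, Finset.mem_insert_of_mem (Finset.mem_insert_of_mem hv), hve⟩
        · intro G hG v hv w hw
          have hadj : G.Reachable r t := by
            have h1 := hG _ (Finset.mem_insert_self _ _)
            rw [SimpleGraph.mem_edgeSet] at h1
            exact h1.reachable
          have hall' : ∀ v ∈ ({r, t} : Finset V), G.Reachable r v := by
            intro v hv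
            rw [Finset.mem_insert, Finset.mem_singleton] at hv
            rcases hv with rfl | rfl
            · exact SimpleGraph.Reachable.refl _
            · exact hadj
          exact (hall' v hv).symm.trans (hall' w hw)
        · rw [Finset.card_insert_of_notMem hfresh.1, Finset.card_insert_of_notMem htr,
            Finset.card_insert_of_notMem hr]
          push_cast
          linarith [hI.card1]
        · rw [Finset.card_insert_of_notMem hfresh.1, Finset.card_insert_of_notMem htr,
            Finset.card_insert_of_notMem hr]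
          push_cast
          have : (0 : ℝ) ≤ Y.card := Nat.cast_nonneg _
          linarith
        · rw [Finset.card_insert_of_notMem hfresh.1]
          intro h
          omega
      have iz : Inv T t1 P A R (insert r D) {r} Y (insert s(r, t) Z) := by
        refine ⟨?_, ?_, ?_, ?_, ?_, ?_, ?_, ?_, ?_⟩
        · intro v hv
          rw [Finset.mem_singleton] at hv
          rw [hv]
          exact Finset.mem_insert_self _ _
        · rw [Finset.disjoint_insert_right]
          exact ⟨hfresh.1, hI.disj⟩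
        · intro v hv hvB w hw
          rw [Finset.mem_insert] at hv
          rw [Finset.mem_insert, not_or] at hw
          rw [Finset.mem_singleton] at hvB
          rw [Finset.union_insert]
          exact Finset.mem_insert_of_mem (hall v (hv.resolve_left hvB) w hw.2)
        · intro e he
          rw [Finset.union_insert, Finset.mem_insert] at he
          rcases he with rfl | he
          · exact hdiag
          · exact hI.nondiag e he
        · intro e he
          rw [Finset.union_insert, Finset.mem_insert] at he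
          rcases he with rfl | he
          · exact ⟨r, Finset.mem_insert_self _ _, Sym2.mem_mk_left _ _⟩
          · obtain ⟨v, hv, hve⟩ := hI.touch e he
            exact ⟨v, Finset.mem_insert_of_mem hv, hve⟩
        · intro G hG v hv w hw
          rw [Finset.mem_singleton] at hv hw
          rw [hv, hw]
        · rw [Finset.card_insert_of_notMem hr]
          push_cast
          linarith [hI.card1]
        · rw [Finset.card_insert_of_notMem hr]
          push_cast
          have : (0 : ℝ) ≤ Y.card := Nat.cast_nonneg _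
          linarith
        · rw [Finset.card_insert_of_notMem hfresh.2]
          intro h
          omega
      have ey := ih _ _ _ _ iy (by rw [Finset.card_insert_of_notMem hfresh.1]; omega)
      have ez := ih _ _ _ _ iz (by rw [Finset.card_insert_of_notMem hfresh.2]; omega)
      rw [Finset.card_insert_of_notMem hfresh.1] at ey
      rw [Finset.card_insert_of_notMem hfresh.2] at ez
      have a1 : (((Y.card + 1 : ℕ) : ℝ) - P * ((Y.card + 1 + Z.card : ℕ) : ℝ)) =
          (Y.card : ℝ) - P * (τ : ℝ) + 1 - P := by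
        rw [hτd]; push_cast; ring
      have a2 : ((Y.card : ℝ) - P * ((Y.card + (Z.card + 1) : ℕ) : ℝ)) =
          (Y.card : ℝ) - P * (τ : ℝ) - P := by
        rw [hτd]; push_cast; ring
      rw [a1] at ey
      rw [a2] at ez
      exact add_le_add (mul_le_mul_of_nonneg_left ey hp0.le)
        (mul_le_mul_of_nonneg_left ez (sub_nonneg.mpr hp1.le))

theorem finite_lower {p P A R s : ℝ} {T t1 : ℕ} (hp0 : 0 < p) (hp1 : p < 1) (hP0 : 0 < P)
    (hR1 : 1 ≤ R) (ht : t1 < T) (hV : 4 ≤ (Fintype.card V : ℝ))
    (hR : ∀ d : ℝ, 0 ≤ d → d * (Fintype.card V / 2) ≤ T → d + 1 ≤ R)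
    (hhalf : P * T + A + R ≤ Fintype.card V / 2)
    (hroot : ∀ τ : ℕ, ∀ X : ℝ, t1 ≤ τ → τ < T → |X - P * τ| < A → (τ : ℝ) < X * (Fintype.card V - X))
    (hs : 0 < s) (hsize : s ≤ P * (T - t1) - 2 * A) :
    Vf p P A T 0 ≤ graphExpect (V := V) (fun _ => p) (fun G =>
          if ∃ C : G.ConnectedComponent, s ≤ (C.supp.ncard : ℝ) then 1 else 0) := by
  have h := explore (V := V) hp0 hp1 hP0 ht hV hR hhalf hroot hs hsize T ∅ ∅ ∅ ∅
    ⟨by simp, by simp, by simp, by simp, by simp, by simp, by simp, by simp; linarith, by simp⟩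
    (by simp)
  have h1 : pf p (∅ : Finset (Sym2 V)) ∅ = fun _ => p := by
    funext e
    simp [pf]
  rw [h1] at h
  simpa using h


theorem asym_ineqs {m P : ℝ} (hm : 50 ≤ m) (hP : P = 1 / m ^ 3 + 9 / m ^ 4) {T t1 : ℕ}
    (hT : T = ⌊2 * m ^ 5⌋₊) (ht1 : t1 = ⌈m ^ 5⌉₊) :
    (m ^ 5 ≤ t1 ∧ (t1 : ℝ) ≤ m ^ 5 + 1) ∧ (2 * m ^ 5 - 1 ≤ T ∧ (T : ℝ) ≤ 2 * m ^ 5) ∧
      0 < P ∧ P ≤ 1 ∧ t1 < T ∧ P * T ≤ 2 * m ^ 2 + 18 * m := by
  have hm0 : 0 < m := by linarith
  have h5 : 1 ≤ m ^ 5 := one_le_pow₀ (by linarith)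
  have a1 : m ^ 5 ≤ t1 := by rw [ht1]; exact Nat.le_ceil _
  have a2 : (t1 : ℝ) ≤ m ^ 5 + 1 := by
    rw [ht1]; exact (Nat.ceil_lt_add_one (by positivity)).le
  have a3 : 2 * m ^ 5 - 1 ≤ T := by
    rw [hT]; exact (Nat.sub_one_lt_floor _).le
  have a4 : (T : ℝ) ≤ 2 * m ^ 5 := by
    rw [hT]; exact Nat.floor_le (by positivity)
  have a5 : 0 < P := by rw [hP]; positivity
  have hm3 : 1 / m ^ 3 ≤ 1 / 50 ^ 3 := by
    apply one_div_le_one_div_of_le (by norm_num)
    exact pow_le_pow_left₀ (by norm_num) hm 3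
  have hm4 : 9 / m ^ 4 ≤ 9 / 50 ^ 4 := by
    apply div_le_div_of_nonneg_left (by norm_num) (by norm_num)
    exact pow_le_pow_left₀ (by norm_num) hm 4
  have a6 : P ≤ 1 := by
    rw [hP]
    have : (1 : ℝ) / 50 ^ 3 + 9 / 50 ^ 4 ≤ 1 := by norm_num
    linarith
  have h5' : (50 : ℝ) ^ 5 ≤ m ^ 5 := pow_le_pow_left₀ (by norm_num) hm 5
  have a7 : t1 < T := by
    have : (t1 : ℝ) < T := by
      have : (50 : ℝ) ^ 5 > 2 := by norm_num
      linarith
    exact_mod_cast this
  refine ⟨⟨a1, a2⟩, ⟨a3, a4⟩, a5, a6, a7, ?_⟩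
  calc P * T ≤ P * (2 * m ^ 5) := mul_le_mul_of_nonneg_left a4 a5.le
    _ = 2 * m ^ 2 + 18 * m := by rw [hP]; field_simp; ring

theorem er_large_component (lam : ℝ) : ∃ c : ℝ, 0 < c ∧ ∀ᶠ N : ℕ in Filter.atTop,
    c ≤ graphExpect (V := Fin N) (fun _ => (1 : ℝ) / N + lam * (N : ℝ) ^ (-(4 / 3) : ℝ))
      (fun G => if ∃ C : G.ConnectedComponent, (N : ℝ) ^ ((2 : ℝ) / 3) ≤ (C.supp.ncard : ℝ)
        then 1 else 0) := by
  refine ⟨1 / 4 * Real.exp (-(8 * (9 - lam) ^ 2)), by positivity, ?_⟩
  have hlim : Tendsto (fun N : ℕ => (N : ℝ) ^ ((1 : ℝ) / 3)) atTop atTop :=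
    (tendsto_rpow_atTop (by norm_num)).comp tendsto_natCast_atTop_atTop
  filter_upwards [hlim.eventually_ge_atTop (max 50 (2 * |lam|)), eventually_gt_atTop 0]
    with N hN hN0
  set m : ℝ := (N : ℝ) ^ ((1 : ℝ) / 3) with hmdef
  have hm : 50 ≤ m := (le_max_left _ _).trans hN
  have hml : 2 * |lam| ≤ m := (le_max_right _ _).trans hN
  have hm0 : 0 < m := by linarith
  have hNr : (0 : ℝ) < N := by exact_mod_cast hN0
  have hNm : (N : ℝ) = m ^ 3 := by
    rw [hmdef, ← Real.rpow_natCast, ← Real.rpow_mul hNr.le]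
    norm_num
  have e43 : (N : ℝ) ^ (-(4 / 3) : ℝ) = 1 / m ^ 4 := by
    rw [hmdef, ← Real.rpow_natCast, ← Real.rpow_mul hNr.le, Real.rpow_neg hNr.le, one_div]
    norm_num
  have e23 : (N : ℝ) ^ ((2 : ℝ) / 3) = m ^ 2 := by
    rw [hmdef, ← Real.rpow_natCast, ← Real.rpow_mul hNr.le]
    norm_num
  rw [e43, e23]
  set p : ℝ := (1 : ℝ) / N + lam * (1 / m ^ 4) with hp
  have hp' : p = 1 / m ^ 3 + lam / m ^ 4 := by rw [hp, hNm]; ring
  set P : ℝ := 1 / m ^ 3 + 9 / m ^ 4 with hP
  set T : ℕ := ⌊2 * m ^ 5⌋₊ with hT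
  set t1 : ℕ := ⌈m ^ 5⌉₊ with ht1
  obtain ⟨⟨b1, b2⟩, ⟨b3, b4⟩, hP0, hP1, hlt, hPT⟩ := asym_ineqs hm hP hT ht1
  have hplow : 1 / (2 * m ^ 3) ≤ p := by
    have h1 : -(m / 2) ≤ lam := by
      have := neg_abs_le lam
      linarith
    have h2 : -(m / 2) / m ^ 4 ≤ lam / m ^ 4 := by gcongr
    have h3 : 1 / (2 * m ^ 3) = 1 / m ^ 3 + -(m / 2) / m ^ 4 := by field_simp; ring
    rw [hp', h3]
    linarith
  have hpup : p ≤ 1 / 2 := by
    have h1 : lam ≤ m / 2 := by
      have := le_abs_self lam
      linarith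
    have h2 : lam / m ^ 4 ≤ (m / 2) / m ^ 4 := by gcongr
    have h3 : 1 / m ^ 3 + (m / 2) / m ^ 4 = 3 / 2 * (1 / m ^ 3) := by field_simp; ring
    have h4 : 1 / m ^ 3 ≤ 1 / 50 ^ 3 := by
      apply one_div_le_one_div_of_le (by norm_num)
      exact pow_le_pow_left₀ (by norm_num) hm 3
    have h5 : (3 : ℝ) / 2 * (1 / 50 ^ 3) ≤ 1 / 2 := by norm_num
    rw [hp']
    linarith
  have hp0 : 0 < p := lt_of_lt_of_le (by positivity) hplow
  have hp1 : p < 1 := by linarith
  have hcard : (Fintype.card (Fin N) : ℝ) = m ^ 3 := by rw [Fintype.card_fin, hNm]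
  have key := finite_lower (V := Fin N) (p := p) (P := P) (A := 3 * m) (R := 4 * m ^ 2 + 1)
    (s := m ^ 2) (T := T) (t1 := t1) hp0 hp1 hP0
    (by have : 0 ≤ m ^ 2 := by positivity
        linarith) hlt
    (by
      rw [hcard]
      have h1 := pow_le_pow_left₀ (by norm_num : (0 : ℝ) ≤ 50) hm 3
      norm_num at h1
      linarith)
    (by
      intro d hd hd2
      rw [hcard] at hd2
      have h1 : d * (m ^ 3 / 2) ≤ 2 * m ^ 5 := hd2.trans b4
      have h2 : d ≤ 4 * m ^ 2 := by
        by_contra h
        rw [not_le] at h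
        have : 4 * m ^ 2 * (m ^ 3 / 2) < d * (m ^ 3 / 2) :=
          mul_lt_mul_of_pos_right h (by positivity)
        have h3 : 4 * m ^ 2 * (m ^ 3 / 2) = 2 * m ^ 5 := by ring
        linarith
      linarith)
    (by
      rw [hcard]
      have h1 : 0 ≤ (m - 50) * m := mul_nonneg (by linarith) hm0.le
      have h2 : 0 ≤ (m - 50) * m ^ 2 := mul_nonneg (by linarith) (by positivity)
      have h3 : (m - 50) * m = m ^ 2 - 50 * m := by ring
      have h4 : (m - 50) * m ^ 2 = m ^ 3 - 50 * m ^ 2 := by ring
      linarith)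
    (by
      intro τ X h1 h2 h3
      rw [hcard]
      rw [abs_lt] at h3
      have hτ1 : m ^ 5 ≤ τ := b1.trans (by exact_mod_cast h1)
      have hτ2 : (τ : ℝ) ≤ T := by exact_mod_cast h2.le
      have hPτ : P * τ ≤ 2 * m ^ 2 + 18 * m := (mul_le_mul_of_nonneg_left hτ2 hP0.le).trans hPT
      have hX2 : X ≤ 2 * m ^ 2 + 21 * m := by linarith [h3.2]
      have e1 : P * τ * m ^ 3 = τ + 9 * (τ / m) := by rw [hP]; field_simp
      have e2 : m ^ 4 ≤ τ / m := by
        rw [le_div_iff₀ hm0]
        have h6 : m ^ 4 * m = m ^ 5 := by ring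
        rw [h6]
        exact hτ1
      have e3 : m ^ 2 ≤ P * τ := by
        have : m ^ 2 = 1 / m ^ 3 * m ^ 5 := by field_simp
        rw [this]
        apply mul_le_mul _ hτ1 (by positivity) hP0.le
        rw [hP]
        have : 0 ≤ 9 / m ^ 4 := by positivity
        linarith
      have h7 : 0 ≤ (m - 50) * m := mul_nonneg (by linarith) hm0.le
      have hX0 : 0 ≤ X := by
        have h8 : (m - 50) * m = m ^ 2 - 50 * m := by ring
        linarith [h3.1]
      have e4 : X ^ 2 ≤ (2 * m ^ 2 + 21 * m) ^ 2 := pow_le_pow_left₀ hX0 hX2 2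
      have e5 : (P * τ - 3 * m) * m ^ 3 < X * m ^ 3 :=
        mul_lt_mul_of_pos_right (by linarith [h3.1]) (by positivity)
      have e6 : (2 * m ^ 2 + 21 * m) ^ 2 ≤ 6 * m ^ 4 := by
        have h4 : 0 ≤ (m - 50) * m ^ 3 := mul_nonneg (by linarith) (by positivity)
        have h5 : 0 ≤ (m - 50) * m ^ 2 := mul_nonneg (by linarith) (by positivity)
        have h6 : 0 ≤ m ^ 2 := by positivity
        have h8 : (2 * m ^ 2 + 21 * m) ^ 2 = 4 * m ^ 4 + 84 * m ^ 3 + 441 * m ^ 2 := by ring
        have h9 : (m - 50) * m ^ 3 = m ^ 4 - 50 * m ^ 3 := by ring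
        have h10 : (m - 50) * m ^ 2 = m ^ 3 - 50 * m ^ 2 := by ring
        linarith
      have h11 : X * (m ^ 3 - X) = X * m ^ 3 - X ^ 2 := by ring
      have h12 : (P * τ - 3 * m) * m ^ 3 = P * τ * m ^ 3 - 3 * m ^ 4 := by ring
      rw [h11]
      linarith)
    (by positivity)
    (by
      have h1 : P * (m ^ 5 - 2) ≤ P * (T - t1) := by
        apply mul_le_mul_of_nonneg_left _ hP0.le
        linarith
      have h2 : P * (m ^ 5 - 2) = m ^ 2 + 9 * m - 2 * P := by rw [hP]; field_simp
      linarith)
  refine le_trans (b := Vf p P (3 * m) T 0) ?_ (key.trans (le_of_eq (by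
    congr 1
    funext G
    congr)))
  -- lower bound for the value function
  have c1 := Vf_lower hP0.le hP1 (by positivity : (0 : ℝ) < 3 * m) T 0
  have c2 : (1 : ℝ) / 2 ≤ Vf P P (3 * m) T 0 := by
    have h1 : (T : ℝ) * (P * (1 - P)) ≤ P * T := by
      have h2 : 0 ≤ P * T * P := by positivity
      have h3 : (T : ℝ) * (P * (1 - P)) = P * T - P * T * P := by ring
      linarith
    by_contra h
    rw [not_le] at h
    have h2 : (1 / 2 : ℝ) * (3 * m) ^ 2 < (1 - Vf P P (3 * m) T 0) * (3 * m) ^ 2 :=
      mul_lt_mul_of_pos_right (by linarith) (by positivity)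
    have h3 : (1 / 2 : ℝ) * (3 * m) ^ 2 = 9 / 2 * m ^ 2 := by ring
    have h4 : 0 ≤ (m - 50) * m := mul_nonneg (by linarith) hm0.le
    have h5 : (m - 50) * m = m ^ 2 - 50 * m := by ring
    linarith
  have c3 := Vf_compare (P := P) (A := 3 * m) hp0 hp1 T 0
  set κ : ℝ := P ^ 2 / p + (1 - P) ^ 2 / (1 - p) with hκ
  have h1p : 0 < 1 - p := by linarith
  have c4 : κ ≤ 1 + 4 * (9 - lam) ^ 2 / m ^ 5 := by
    have h1 : κ = 1 + (P - p) ^ 2 / (p * (1 - p)) := by
      rw [hκ]; field_simp; ring
    have h2 : P - p = (9 - lam) / m ^ 4 := by rw [hP, hp']; ring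
    have h3 : 1 / (4 * m ^ 3) ≤ p * (1 - p) := by
      calc 1 / (4 * m ^ 3) = 1 / (2 * m ^ 3) * (1 / 2) := by ring
        _ ≤ p * (1 - p) := mul_le_mul hplow (by linarith) (by norm_num) hp0.le
    rw [h1, h2]
    have h4 : ((9 - lam) / m ^ 4) ^ 2 / (p * (1 - p)) ≤
        ((9 - lam) / m ^ 4) ^ 2 / (1 / (4 * m ^ 3)) := by
      apply div_le_div_of_nonneg_left (by positivity) (by positivity) h3
    have h5 : ((9 - lam) / m ^ 4) ^ 2 / (1 / (4 * m ^ 3)) = 4 * (9 - lam) ^ 2 / m ^ 5 := by
      field_simp
    linarith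
  have hκ0 : 0 ≤ κ := by rw [hκ]; positivity
  have c5 : κ ^ T ≤ Real.exp (8 * (9 - lam) ^ 2) := by
    have h1 : κ ≤ Real.exp (4 * (9 - lam) ^ 2 / m ^ 5) := by
      have := Real.add_one_le_exp (4 * (9 - lam) ^ 2 / m ^ 5)
      linarith
    calc κ ^ T ≤ Real.exp (4 * (9 - lam) ^ 2 / m ^ 5) ^ T := pow_le_pow_left₀ hκ0 h1 T
      _ = Real.exp (T * (4 * (9 - lam) ^ 2 / m ^ 5)) := by rw [← Real.exp_nat_mul]
      _ ≤ Real.exp (8 * (9 - lam) ^ 2) := by
          apply Real.exp_le_exp.mpr
          have h2 : (T : ℝ) * (4 * (9 - lam) ^ 2 / m ^ 5) ≤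
              2 * m ^ 5 * (4 * (9 - lam) ^ 2 / m ^ 5) :=
            mul_le_mul_of_nonneg_right b4 (by positivity)
          have h3 : 2 * m ^ 5 * (4 * (9 - lam) ^ 2 / m ^ 5) = 8 * (9 - lam) ^ 2 := by
            field_simp; ring
          linarith
  have hV0 := Vf_nonneg (P := P) (A := 3 * m) hp0.le hp1.le T 0
  have c6 : (1 / 4 : ℝ) ≤ Real.exp (8 * (9 - lam) ^ 2) * Vf p P (3 * m) T 0 := by
    have h1 : (1 / 4 : ℝ) ≤ Vf P P (3 * m) T 0 ^ 2 := by
      have h2 := pow_le_pow_left₀ (by norm_num : (0 : ℝ) ≤ 1 / 2) c2 2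
      norm_num at h2
      linarith
    exact h1.trans (c3.trans (mul_le_mul_of_nonneg_right c5 hV0))
  rw [Real.exp_neg]
  have hE : 0 < Real.exp (8 * (9 - lam) ^ 2) := Real.exp_pos _
  rw [← div_eq_mul_inv, div_le_iff₀ hE]
  linarith

end Pool.Agent.Helper23.ER
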