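import Mathlib

set_option autoImplicit false

open MvPolynomial Module

namespace Pool.Agent.Helper38

noncomputable section

/-- coefficient with integer index -/
def cz {R : Type} [CommRing R] (c : PowerSeries R) (n : ℤ) : R :=
  if 0 ≤ n then PowerSeries.coeff n.toNat c else 0

/-- Jacobi-Trudi determinant -/
def dl {R : Type} [CommRing R] (c : PowerSeries R) {r : ℕ} (lam : Fin r → ℕ) : R :=
  (Matrix.of fun s t : Fin r => cz c ((lam s : ℤ) + (t : ℤ) - (s : ℤ))).det

/-- the series `∏ (1 - m l T) / ∏ (1 - x a T)` -/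
def ser {R : Type} [CommRing R] {A M : Type} [Fintype A] [Fintype M] (x : A → R) (m : M → R) :
    PowerSeries R :=
  (∏ l, (1 - PowerSeries.C (m l) * PowerSeries.X)) * ∏ a, (PowerSeries.mk fun n => x a ^ n)

section

variable {R : Type} [CommRing R] {A M : Type} [Fintype A] [Fintype M]

lemma cz_map {R' : Type} [CommRing R'] (f : R →+* R') (c : PowerSeries R) (n : ℤ) :
    f (cz c n) = cz (PowerSeries.map f c) n := by
  unfold cz
  split_ifs
  · rw [PowerSeries.coeff_map]
  · rw [map_zero]

lemma dl_map {R' : Type} [CommRing R'] (f : R →+* R') (c : PowerSeries R) {r : ℕ}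
    (lam : Fin r → ℕ) : f (dl c lam) = dl (PowerSeries.map f c) lam := by
  unfold dl
  rw [RingHom.map_det]
  congr 1
  ext s t
  simp [cz_map]

lemma ser_map {R' : Type} [CommRing R'] (f : R →+* R') (x : A → R) (m : M → R) :
    PowerSeries.map f (ser x m) = ser (fun a => f (x a)) (fun l => f (m l)) := by
  unfold ser
  rw [map_mul, map_prod, map_prod]
  congr 1
  · apply Finset.prod_congr rfl
    intro l _
    simp
  · apply Finset.prod_congr rfl
    intro a _
    ext n
    simp

lemma constCoeff_ser (x : A → R) (m : M → R) : PowerSeries.constantCoeff (ser x m) = 1 := by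
  unfold ser
  rw [map_mul, map_prod, map_prod, Finset.prod_eq_one, Finset.prod_eq_one, mul_one]
  · intro a _
    rw [← PowerSeries.coeff_zero_eq_constantCoeff_apply, PowerSeries.coeff_mk, pow_zero]
  · intro l _
    simp

lemma ser_equiv {A' : Type} [Fintype A'] (e : A' ≃ A) (x : A → R) (m : M → R) :
    ser (x ∘ e) m = ser x m := by
  unfold ser
  congr 1
  exact Equiv.prod_comp e (fun a => PowerSeries.mk fun n => x a ^ n)

lemma one_sub_mul_mk (y : R) :
    (1 - PowerSeries.C y * PowerSeries.X) * (PowerSeries.mk fun n => y ^ n) = 1 := by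
  ext n
  rw [sub_mul, one_mul, mul_assoc, map_sub, PowerSeries.coeff_C_mul, PowerSeries.coeff_mk]
  rcases n with _ | n
  · simp
  · rw [PowerSeries.coeff_succ_X_mul, PowerSeries.coeff_mk, PowerSeries.coeff_one,
      if_neg (Nat.succ_ne_zero n), pow_succ]
    ring

/-- cancellation of a common variable -/
lemma ser_cancel (x : Option A → R) : ser x (fun _ : Unit => x none) =
    ser (x ∘ some) (fun l : Empty => l.elim) := by
  unfold ser
  rw [Fintype.prod_option]
  simp only [Finset.univ_unique, Finset.prod_singleton, Finset.univ_eq_empty, Finset.prod_empty,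
    one_mul, Function.comp_apply]
  rw [← mul_assoc, one_sub_mul_mk, one_mul]

lemma ser_zero (x : A → R) : ser x (fun _ : Unit => (0 : R)) = ser x (fun l : Empty => l.elim) := by
  unfold ser
  simp

lemma cz_zero (c : PowerSeries R) : cz c 0 = PowerSeries.constantCoeff c := by
  simp [cz]

lemma cz_neg (c : PowerSeries R) {n : ℤ} (hn : n < 0) : cz c n = 0 := by
  unfold cz
  rw [if_neg (not_le.mpr hn)]

/-- the empty partition -/
lemma dl_zero (c : PowerSeries R) (hc : PowerSeries.constantCoeff c = 1) (r : ℕ) :
    dl c (fun _ : Fin r => 0) = 1 := by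
  unfold dl
  rw [Matrix.det_of_isUpperTriangular]
  · apply Finset.prod_eq_one
    intro i _
    rw [Matrix.of_apply]
    have : ((0 : ℕ) : ℤ) + (i : ℤ) - (i : ℤ) = 0 := by simp
    rw [this, cz_zero, hc]
  · intro i j hij
    simp only [id] at hij
    rw [Matrix.of_apply]
    apply cz_neg
    have : (j : ℕ) < (i : ℕ) := hij
    push_cast
    omega

/-- a trailing zero does not matter -/
lemma dl_snoc (c : PowerSeries R) (hc : PowerSeries.constantCoeff c = 1) {r : ℕ}
    (lam : Fin r → ℕ) : dl c (Fin.snoc lam 0 : Fin (r + 1) → ℕ) = dl c lam := by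
  unfold dl
  rw [Matrix.det_succ_row _ (Fin.last r), Finset.sum_eq_single (Fin.last r)]
  · rw [Matrix.of_apply]
    have h1 : (((Fin.snoc lam 0 : Fin (r + 1) → ℕ) (Fin.last r) : ℕ) : ℤ) + ((Fin.last r : Fin (r + 1)) : ℤ) -
        ((Fin.last r : Fin (r + 1)) : ℤ) = 0 := by
      simp
    rw [h1, cz_zero, hc, ← two_mul, pow_mul]
    simp only [neg_one_sq, one_pow, one_mul]
    congr 1
    ext s t
    simp
  · intro j _ hj
    rw [Matrix.of_apply, cz_neg]
    · simp
    · have h1 : (j : ℕ) < r := by
        have := Fin.val_lt_last hj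
        exact this
      simp
      omega
  · intro h
    exact absurd (Finset.mem_univ _) h

/-- only the coefficients up to the size of the partition matter -/
lemma dl_trunc (c c' : PowerSeries R) {r : ℕ} (lam : Fin r → ℕ) (N : ℕ)
    (hN : ∑ s, lam s ≤ N)
    (h : ∀ k ≤ N, PowerSeries.coeff k c = PowerSeries.coeff k c') : dl c lam = dl c' lam := by
  unfold dl
  rw [← Matrix.det_transpose, ← Matrix.det_transpose (Matrix.of fun s t : Fin r =>
    cz c' ((lam s : ℤ) + (t : ℤ) - (s : ℤ))), Matrix.det_apply, Matrix.det_apply]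
  apply Finset.sum_congr rfl
  intro σ _
  congr 1
  simp only [Matrix.transpose_apply, Matrix.of_apply]
  by_cases hneg : ∃ i : Fin r, (lam i : ℤ) + (σ i : ℤ) - (i : ℤ) < 0
  · obtain ⟨i, hi⟩ := hneg
    rw [Finset.prod_eq_zero (Finset.mem_univ i) (cz_neg c hi),
      Finset.prod_eq_zero (Finset.mem_univ i) (cz_neg c' hi)]
  · push Not at hneg
    apply Finset.prod_congr rfl
    intro i _
    have hsum : ∑ j : Fin r, ((lam j : ℤ) + (σ j : ℤ) - (j : ℤ)) = ∑ j, (lam j : ℤ) := by
      rw [Finset.sum_sub_distrib, Finset.sum_add_distrib]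
      have : ∑ j : Fin r, ((σ j : Fin r) : ℤ) = ∑ j : Fin r, (j : ℤ) :=
        Equiv.sum_comp σ (fun j : Fin r => (j : ℤ))
      rw [this]
      ring
    have hle : (lam i : ℤ) + (σ i : ℤ) - (i : ℤ) ≤ N := by
      have h1 : (lam i : ℤ) + (σ i : ℤ) - (i : ℤ) ≤ ∑ j : Fin r, ((lam j : ℤ) + (σ j : ℤ) - (j : ℤ)) :=
        Finset.single_le_sum (f := fun j : Fin r => ((lam j : ℤ) + (σ j : ℤ) - (j : ℤ)))
          (fun j _ => hneg j) (Finset.mem_univ i)
      rw [hsum] at h1
      have h2 : ∑ j, (lam j : ℤ) ≤ N := by exact_mod_cast hN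
      exact h1.trans h2
    unfold cz
    rw [if_pos (hneg i), if_pos (hneg i)]
    apply h
    omega


lemma coeff_prod_one_sub (x : A → R) (k : ℕ) :
    PowerSeries.coeff k (∏ a, (1 - PowerSeries.C (x a) * PowerSeries.X) : PowerSeries R) =
      ∑ t ∈ Finset.powersetCard k (Finset.univ : Finset A), ∏ a ∈ t, (-(x a)) := by
  have h1 : ∀ a : A, (1 - PowerSeries.C (x a) * PowerSeries.X : PowerSeries R) =
      1 + PowerSeries.C (-(x a)) * PowerSeries.X := by
    intro a
    rw [map_neg]
    ring
  simp_rw [h1]
  rw [Finset.prod_one_add, map_sum]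
  have h2 : ∀ t : Finset A, PowerSeries.coeff k
      (∏ a ∈ t, (PowerSeries.C (-(x a)) * PowerSeries.X) : PowerSeries R) =
      if t.card = k then ∏ a ∈ t, (-(x a)) else 0 := by
    intro t
    rw [Finset.prod_mul_distrib, Finset.prod_const, ← map_prod, PowerSeries.coeff_C_mul,
      PowerSeries.coeff_X_pow]
    by_cases h : t.card = k
    · rw [if_pos h, if_pos h.symm, mul_one]
    · rw [if_neg h, if_neg (fun h' => h h'.symm), mul_zero]
  simp_rw [h2]
  rw [← Finset.sum_filter]
  apply Finset.sum_congr _ (fun _ _ => rfl)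
  ext t
  simp [Finset.mem_powersetCard]

lemma prod_mul_ser (x : A → R) :
    (∏ a, (1 - PowerSeries.C (x a) * PowerSeries.X) : PowerSeries R) *
      ser x (fun l : Empty => l.elim) = 1 := by
  unfold ser
  simp only [Finset.univ_eq_empty, Finset.prod_empty, one_mul]
  rw [← Finset.prod_mul_distrib]
  apply Finset.prod_eq_one
  intro a _
  exact one_sub_mul_mk (x a)

lemma rel_sum (x : A → R) (r : ℕ) (hA : Fintype.card A = r) (k : ℤ) (hk : 1 ≤ k) :
    ∑ j ∈ Finset.range (r + 1),
      PowerSeries.coeff j (∏ a, (1 - PowerSeries.C (x a) * PowerSeries.X) : PowerSeries R) *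
        cz (ser x (fun l : Empty => l.elim)) (k - j) = 0 := by
  obtain ⟨k', rfl⟩ : ∃ k' : ℕ, k = k' := ⟨k.toNat, by omega⟩
  have h1 := congrArg (PowerSeries.coeff k') (prod_mul_ser x)
  rw [PowerSeries.coeff_mul, PowerSeries.coeff_one, if_neg (by omega),
    Finset.Nat.sum_antidiagonal_eq_sum_range_succ_mk] at h1
  set E := (∏ a, (1 - PowerSeries.C (x a) * PowerSeries.X) : PowerSeries R) with hE
  set S := ser x (fun l : Empty => l.elim) with hS
  have hbig : ∀ j, r < j → PowerSeries.coeff j E = 0 := by
    intro j hj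
    rw [hE, coeff_prod_one_sub, Finset.powersetCard_eq_empty.mpr, Finset.sum_empty]
    rw [Finset.card_univ, hA]
    exact hj
  have h2 : ∑ j ∈ Finset.range (k' + 1), PowerSeries.coeff j E * cz S ((k' : ℤ) - j) = 0 := by
    rw [← h1]
    apply Finset.sum_congr rfl
    intro j hj
    rw [Finset.mem_range] at hj
    unfold cz
    rw [if_pos (by omega)]
    have h3 : ((k' : ℤ) - (j : ℤ)).toNat = k' - j := by omega
    rw [h3]
  have h4 : ∑ j ∈ Finset.range (max r k' + 1), PowerSeries.coeff j E * cz S ((k' : ℤ) - j) = 0 := by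
    rw [← h2]
    symm
    apply Finset.sum_subset (Finset.range_mono (by omega))
    intro j _ hj
    rw [Finset.mem_range, not_lt] at hj
    rw [cz_neg _ (by omega), mul_zero]
  rw [← h4]
  apply Finset.sum_subset (Finset.range_mono (by omega))
  intro j _ hj
  rw [Finset.mem_range, not_lt] at hj
  rw [hbig j (by omega), zero_mul]

/-- multiplication by the product of all variables -/
lemma dl_add_one {r : ℕ} (hA : Fintype.card A = r) (x : A → R) (lam : Fin r → ℕ) :
    (∏ a, x a) * dl (ser x (fun l : Empty => l.elim)) lam =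
      dl (ser x (fun l : Empty => l.elim)) (fun s => lam s + 1) := by
  rcases r with _ | r
  · have : IsEmpty A := Fintype.card_eq_zero_iff.mp hA
    unfold dl
    simp
  set c := ser x (fun l : Empty => l.elim) with hc
  set e : ℕ → R := fun j =>
    PowerSeries.coeff j (∏ a, (1 - PowerSeries.C (x a) * PowerSeries.X) : PowerSeries R) with he
  set H : Matrix (Fin (r + 1)) (Fin (r + 1)) R :=
    Matrix.of fun s t => cz c ((lam s : ℤ) + (t : ℤ) - (s : ℤ)) with hH
  set D : Matrix (Fin (r + 1)) (Fin (r + 1)) R :=
    Matrix.of fun u t => if t = Fin.last r then -e (r + 1 - u) else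
      if (u : ℕ) = t + 1 then 1 else 0 with hD
  have hdetD : D.det = ∏ a, x a := by
    rw [Matrix.det_succ_row_zero, Finset.sum_eq_single (Fin.last r)]
    · have h1 : D 0 (Fin.last r) = -e (r + 1) := by simp [hD]
      have h2 : D.submatrix Fin.succ (Fin.last r).succAbove = 1 := by
        ext u t
        rw [Matrix.submatrix_apply, hD, Matrix.of_apply, Fin.succAbove_last,
          if_neg (Fin.castSucc_lt_last t).ne, Matrix.one_apply]
        simp [Fin.ext_iff]
      have h3 : e (r + 1) = (-1) ^ (r + 1) * ∏ a, x a := by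
        rw [he]
        simp only
        rw [coeff_prod_one_sub, ← hA, ← Finset.card_univ, Finset.powersetCard_self,
          Finset.sum_singleton, Finset.prod_neg]
      have h4 : (-1 : R) ^ r * (-1) ^ (r + 1) = -1 := by
        rw [← pow_add]
        exact Odd.neg_one_pow ⟨r, by ring⟩
      rw [h1, h2, h3, Matrix.det_one, mul_one, Fin.val_last]
      linear_combination (-(∏ a, x a)) * h4
    · intro j _ hj
      have : D 0 j = 0 := by
        rw [hD, Matrix.of_apply, if_neg hj, if_neg]
        simp
      rw [this]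
      simp
    · intro h
      exact absurd (Finset.mem_univ _) h
  have hmul : H * D = Matrix.of fun s t : Fin (r + 1) =>
      cz c (((lam s + 1 : ℕ) : ℤ) + (t : ℤ) - (s : ℤ)) := by
    ext s t
    rw [Matrix.mul_apply, Matrix.of_apply]
    by_cases ht : t = Fin.last r
    · have h1 := rel_sum x (r + 1) hA ((lam s : ℤ) + (r + 1) - s) (by
        have := s.2
        omega)
      rw [Finset.sum_range_succ', ← Fin.sum_univ_eq_sum_range (fun j : ℕ =>
        PowerSeries.coeff (j + 1) (∏ a, (1 - PowerSeries.C (x a) * PowerSeries.X) : PowerSeries R) *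
          cz (ser x (fun l : Empty => l.elim)) ((lam s : ℤ) + (r + 1) - s - ((j + 1 : ℕ) : ℤ)))
        (r + 1)] at h1
      rw [← Equiv.sum_comp Fin.revPerm] at h1
      have h0 : PowerSeries.coeff 0
          (∏ a, (1 - PowerSeries.C (x a) * PowerSeries.X) : PowerSeries R) = 1 := by
        rw [coeff_prod_one_sub]
        simp
      rw [h0, one_mul, Nat.cast_zero, sub_zero, add_comm] at h1
      have h2 := eq_neg_of_add_eq_zero_left h1
      have h3 : ((lam s + 1 : ℕ) : ℤ) + (t : ℤ) - (s : ℤ) = (lam s : ℤ) + (r + 1) - s := by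
        rw [ht, Fin.val_last]
        push_cast
        ring
      rw [h3, h2, ← Finset.sum_neg_distrib]
      apply Finset.sum_congr rfl
      intro u _
      rw [hD, Matrix.of_apply, if_pos ht, hH, Matrix.of_apply]
      simp only [Fin.revPerm_apply, Fin.val_rev, he]
      have hu := u.2
      have h4 : r + 1 - ((u : ℕ) + 1) + 1 = r + 1 - u := by omega
      have h5 : (lam s : ℤ) + (r + 1) - s - ((r + 1 - u : ℕ) : ℤ) = (lam s : ℤ) + (u : ℤ) - s := by
        omega
      rw [h4, h5]
      ring
    · have htl : (t : ℕ) < r := by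
        have := Fin.val_lt_last ht
        exact this
      rw [Finset.sum_eq_single (⟨t + 1, by omega⟩ : Fin (r + 1))]
      · rw [hD, Matrix.of_apply, if_neg ht, if_pos rfl, mul_one, hH, Matrix.of_apply]
        congr 1
        push_cast
        ring
      · intro u _ hu
        rw [hD, Matrix.of_apply, if_neg ht, if_neg, mul_zero]
        intro h
        apply hu
        ext
        exact h
      · intro h
        exact absurd (Finset.mem_univ _) h
  have h1 : dl c (fun s => lam s + 1) = (H * D).det := by
    rw [hmul]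
    rfl
  rw [h1, Matrix.det_mul, hdetD, mul_comm]
  rfl

/-- the degree in the extra variable is at most the number of rows -/
lemma natDegree_dl_le {r : ℕ} (x : A → R) (lam : Fin r → ℕ) :
    (dl (ser (fun a => Polynomial.C (x a)) (fun _ : Unit => (Polynomial.X : Polynomial R)))
      lam).natDegree ≤ r := by
  set c : PowerSeries R := ∏ a, (PowerSeries.mk fun n => x a ^ n) with hc
  set Cm : PowerSeries (Polynomial R) := PowerSeries.map Polynomial.C c with hCm
  have hser : ser (fun a => Polynomial.C (x a)) (fun _ : Unit => (Polynomial.X : Polynomial R)) =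
      (1 - PowerSeries.C Polynomial.X * PowerSeries.X) * Cm := by
    unfold ser
    simp only [Finset.univ_unique, Finset.prod_singleton]
    congr 1
    rw [hCm, hc, map_prod]
    apply Finset.prod_congr rfl
    intro a _
    ext n
    simp
  have hentry : ∀ n : ℤ, cz ((1 - PowerSeries.C Polynomial.X * PowerSeries.X) * Cm) n =
      Polynomial.X * Polynomial.C (-(cz c (n - 1))) + Polynomial.C (cz c n) := by
    intro n
    rw [map_neg, cz_map, cz_map, ← hCm]
    rcases lt_or_ge n 0 with hn | hn
    · rw [cz_neg _ hn, cz_neg _ hn, cz_neg _ (by omega)]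
      simp
    · obtain ⟨n', rfl⟩ : ∃ n' : ℕ, n = n' := ⟨n.toNat, by omega⟩
      have e1 : ∀ (d : PowerSeries (Polynomial R)) (k : ℕ), cz d (k : ℤ) = PowerSeries.coeff k d := by
        intro d k
        unfold cz
        rw [if_pos (by omega), Int.toNat_natCast]
      rw [e1, e1, sub_mul, one_mul, map_sub, mul_assoc, PowerSeries.coeff_C_mul]
      rcases n' with _ | n'
      · rw [cz_neg _ (by simp)]
        simp
      · have e2 : ((n' + 1 : ℕ) : ℤ) - 1 = (n' : ℤ) := by push_cast; ring
        rw [e2, e1, PowerSeries.coeff_succ_X_mul]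
        ring
  rw [hser]
  unfold dl
  have hM : (Matrix.of fun s t : Fin r =>
      cz ((1 - PowerSeries.C Polynomial.X * PowerSeries.X) * Cm) ((lam s : ℤ) + (t : ℤ) - (s : ℤ))) =
      (Polynomial.X : Polynomial R) •
        (Matrix.of fun s t : Fin r => -(cz c ((lam s : ℤ) + (t : ℤ) - (s : ℤ) - 1))).map Polynomial.C +
        (Matrix.of fun s t : Fin r => cz c ((lam s : ℤ) + (t : ℤ) - (s : ℤ))).map Polynomial.C := by
    ext1 s t
    rw [Matrix.of_apply, hentry]
    simp
  rw [hM]
  refine (Polynomial.natDegree_det_X_add_C_le _ _).trans ?_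
  simp

end

/-- solving for the auxiliary variables -/
lemma exists_aux {M : Type} [Fintype M] (m : M → ℂ) (N : ℕ) :
    ∃ z : Fin N → ℂ, ∀ k, 1 ≤ k → k ≤ N →
      PowerSeries.coeff k ((∏ l, (1 - PowerSeries.C (m l) * PowerSeries.X)) *
        (∏ c, (1 - PowerSeries.C (z c) * PowerSeries.X)) : PowerSeries ℂ) = 0 := by
  set F : PowerSeries ℂ := ser m (fun l : Empty => l.elim) with hF
  have hmul : (∏ l, (1 - PowerSeries.C (m l) * PowerSeries.X)) * F = 1 := prod_mul_ser m
  have hF0 : PowerSeries.coeff 0 F = 1 := by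
    rw [PowerSeries.coeff_zero_eq_constantCoeff_apply]
    exact constCoeff_ser _ _
  set p : Polynomial ℂ := ∑ k ∈ Finset.range (N + 1),
    Polynomial.monomial (N - k) (PowerSeries.coeff k F) with hp
  have hpc : ∀ k ≤ N, p.coeff (N - k) = PowerSeries.coeff k F := by
    intro k hk
    rw [hp, Polynomial.finsetSum_coeff, Finset.sum_eq_single k]
    · rw [Polynomial.coeff_monomial, if_pos rfl]
    · intro j hj hjk
      rw [Finset.mem_range] at hj
      rw [Polynomial.coeff_monomial, if_neg (by omega)]
    · intro h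
      rw [Finset.mem_range] at h
      omega
  have hdeg : p.natDegree ≤ N := by
    rw [hp]
    apply Polynomial.natDegree_sum_le_of_forall_le
    intro k _
    exact (Polynomial.natDegree_monomial_le _).trans (Nat.sub_le _ _)
  have hlead : p.coeff N = 1 := by
    have := hpc 0 (Nat.zero_le _)
    rw [Nat.sub_zero, hF0] at this
    exact this
  have hmonic : p.Monic := Polynomial.monic_of_natDegree_le_of_coeff_eq_one N hdeg hlead
  have hnat : p.natDegree = N := by
    apply le_antisymm hdeg
    apply Polynomial.le_natDegree_of_ne_zero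
    rw [hlead]
    exact one_ne_zero
  have hcard : p.roots.toList.length = N := by
    rw [Multiset.length_toList, ← hnat]
    exact (IsAlgClosed.splits p).natDegree_eq_card_roots.symm
  let z : Fin N → ℂ := fun i => p.roots.toList.get (i.cast hcard.symm)
  have hprod : p = ∏ c, (Polynomial.X - Polynomial.C (z c)) := by
    have h1 := (IsAlgClosed.splits p).eq_prod_roots
    rw [hmonic.leadingCoeff, map_one, one_mul] at h1
    conv_lhs => rw [h1]
    have h2 : ∀ (l : List ℂ) (hl : l.length = N),
        ((l : Multiset ℂ).map (fun a => Polynomial.X - Polynomial.C a)).prod =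
        ∏ c : Fin N, (Polynomial.X - Polynomial.C (l.get (c.cast hl.symm))) := by
      intro l hl
      subst hl
      rw [Multiset.map_coe, Multiset.prod_coe, ← List.prod_ofFn]
      congr 1
      apply List.ext_getElem
      · simp
      · intro i h1 h2
        simp
    rw [← h2 _ hcard, Multiset.coe_toList]
  refine ⟨z, ?_⟩
  set G : PowerSeries ℂ := ∏ c, (1 - PowerSeries.C (z c) * PowerSeries.X) with hG
  have hGrev : G = ((p.reverse : Polynomial ℂ) : PowerSeries ℂ) := by
    rw [hprod]
    have h1 : ∀ s : Finset (Fin N), Polynomial.reverse (∏ c ∈ s, (Polynomial.X - Polynomial.C (z c))) =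
        ∏ c ∈ s, (1 - Polynomial.C (z c) * Polynomial.X) := by
      intro s
      induction s using Finset.induction_on with
      | empty =>
        rw [Finset.prod_empty, Finset.prod_empty, ← Polynomial.C_1]
        exact Polynomial.reverse_C 1
      | insert a s ha ih =>
        rw [Finset.prod_insert ha, Finset.prod_insert ha, Polynomial.reverse_mul_of_domain, ih]
        congr 1
        have h3 : (Polynomial.X - Polynomial.C (z a)) =
            Polynomial.X + Polynomial.C (-(z a)) := by
          rw [map_neg]; ring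
        have hn : (Polynomial.X - Polynomial.C (z a)).natDegree = 1 :=
          Polynomial.natDegree_X_sub_C _
        ext n
        rw [Polynomial.coeff_reverse, hn]
        rcases n with _ | _ | n
        · simp [Polynomial.revAt]
        · simp [Polynomial.revAt, Polynomial.coeff_one]
        · rw [Polynomial.revAt_eq_self_of_lt (by omega)]
          simp [Polynomial.coeff_X, Polynomial.coeff_C, Polynomial.coeff_one]
    rw [h1, hG]
    rw [← Polynomial.coeToPowerSeries.ringHom_apply, map_prod]
    apply Finset.prod_congr rfl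
    intro c _
    simp
  have hGc : ∀ k ≤ N, PowerSeries.coeff k G = PowerSeries.coeff k F := by
    intro k hk
    rw [hGrev, Polynomial.coeff_coe, Polynomial.coeff_reverse, hnat,
      Polynomial.revAt_le hk, hpc k hk]
  intro k hk1 hkN
  have h5 : PowerSeries.coeff k ((∏ l, (1 - PowerSeries.C (m l) * PowerSeries.X)) * G) =
      PowerSeries.coeff k ((∏ l, (1 - PowerSeries.C (m l) * PowerSeries.X)) * F) := by
    rw [PowerSeries.coeff_mul, PowerSeries.coeff_mul]
    apply Finset.sum_congr rfl
    intro ij hij
    rw [Finset.HasAntidiagonal.mem_antidiagonal] at hij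
    rw [hGc _ (by omega)]
  rw [h5, hmul, PowerSeries.coeff_one, if_neg (by omega)]

/-- A symmetric polynomial of degree at most `N` does not see variables whose first `N`
elementary symmetric functions vanish. -/
lemma sym_eval_eq {B : Type} [Fintype B] (P : MvPolynomial B ℂ) (hP : P.IsSymmetric) (N : ℕ)
    (hdeg : P.totalDegree ≤ N) (η : B → ℂ)
    (hη : ∀ k, 1 ≤ k → k ≤ N →
      PowerSeries.coeff k (∏ b, (1 - PowerSeries.C (η b) * PowerSeries.X) : PowerSeries ℂ) = 0) :
    eval η P = eval 0 P := by
  obtain ⟨Q, hQ⟩ := (esymmAlgEquiv B ℂ (n := Fintype.card B) rfl).surjective ⟨P, hP⟩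
  have hQ' : aeval (fun i : Fin (Fintype.card B) => esymm B ℂ (i + 1)) Q = P := by
    have := congrArg Subtype.val hQ
    rwa [esymmAlgEquiv_apply, esymmAlgHom_apply] at this
  set F : Polynomial ℂ := aeval (fun b => Polynomial.C (η b) * Polynomial.X) P with hF
  have hev : ∀ t : ℂ, F.eval t = eval (fun b => η b * t) P := by
    intro t
    rw [hF, ← Polynomial.coe_evalRingHom, MvPolynomial.aeval_def, MvPolynomial.hom_eval₂]
    simp only [Polynomial.coe_evalRingHom, Polynomial.eval_mul, Polynomial.eval_C,
      Polynomial.eval_X, Function.comp_def]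
    rw [MvPolynomial.eval₂_eq', MvPolynomial.eval_eq']
    simp
  have hes : ∀ k, (aeval (fun b => Polynomial.C (η b) * Polynomial.X) (esymm B ℂ k) : Polynomial ℂ) =
      Polynomial.C (eval η (esymm B ℂ k)) * Polynomial.X ^ k := by
    intro k
    rw [esymm, map_sum, map_sum, map_sum, Finset.sum_mul]
    apply Finset.sum_congr rfl
    intro t ht
    rw [Finset.mem_powersetCard] at ht
    rw [map_prod, map_prod, map_prod]
    simp only [aeval_X, eval_X]
    rw [Finset.prod_mul_distrib, Finset.prod_const, ht.2]
  have hesη : ∀ k, 1 ≤ k → k ≤ N → eval η (esymm B ℂ k) = 0 := by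
    intro k hk1 hkN
    have h1 := hη k hk1 hkN
    rw [coeff_prod_one_sub] at h1
    rw [esymm, map_sum]
    simp only [map_prod, eval_X]
    have h2 : ∑ t ∈ Finset.powersetCard k (Finset.univ : Finset B), ∏ a ∈ t, (-(η a)) =
        (-1) ^ k * ∑ t ∈ Finset.powersetCard k (Finset.univ : Finset B), ∏ a ∈ t, η a := by
      rw [Finset.mul_sum]
      apply Finset.sum_congr rfl
      intro t ht
      rw [Finset.mem_powersetCard] at ht
      rw [Finset.prod_neg, ht.2]
    rw [h2] at h1
    rcases mul_eq_zero.mp h1 with h3 | h3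
    · exact absurd h3 (pow_ne_zero _ (by norm_num))
    · exact h3
  -- F is constant modulo X^(N+1)
  have hmod : ∃ c : ℂ, (Polynomial.X ^ (N + 1) : Polynomial ℂ) ∣ F - Polynomial.C c := by
    refine ⟨eval 0 Q, ?_⟩
    have h1 : F = aeval (fun i : Fin (Fintype.card B) =>
        Polynomial.C (eval η (esymm B ℂ (i + 1))) * Polynomial.X ^ ((i : ℕ) + 1)) Q := by
      rw [hF, ← hQ']
      rw [← AlgHom.comp_apply]
      congr 1
      ext i
      simp only [AlgHom.comp_apply, aeval_X, hes]
    rw [h1]
    have h2 : ∀ i : Fin (Fintype.card B), (Polynomial.X ^ (N + 1) : Polynomial ℂ) ∣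
        Polynomial.C (eval η (esymm B ℂ (i + 1))) * Polynomial.X ^ ((i : ℕ) + 1) := by
      intro i
      by_cases hi : (i : ℕ) + 1 ≤ N
      · rw [hesη _ (by omega) hi, map_zero, zero_mul]
        exact dvd_zero _
      · exact Dvd.dvd.mul_left (pow_dvd_pow _ (by omega)) _
    clear h1 hQ' hQ
    induction Q using MvPolynomial.induction_on with
    | C a => simp
    | add p q hp hq =>
      have := dvd_add hp hq
      rw [map_add, map_add, map_add]
      convert this using 1
      ring
    | mul_X p i hp =>
      rw [map_mul, map_mul, aeval_X, eval_X]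
      simp only [Pi.zero_apply, mul_zero, map_zero, sub_zero]
      exact Dvd.dvd.mul_left (h2 i) _
  have hFdeg : F.natDegree ≤ N := by
    refine le_trans ?_ hdeg
    rw [hF, MvPolynomial.aeval_def, MvPolynomial.eval₂_eq']
    apply Polynomial.natDegree_sum_le_of_forall_le
    intro d hd
    have h1 : (∏ i, (Polynomial.C (η i) * Polynomial.X) ^ d i : Polynomial ℂ) =
        Polynomial.C (∏ i, η i ^ d i) * Polynomial.X ^ (∑ i, d i) := by
      simp_rw [mul_pow]
      rw [Finset.prod_mul_distrib, Finset.prod_pow_eq_pow_sum, map_prod]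
      simp
    rw [h1]
    have h2 : ∑ i, d i ≤ P.totalDegree := by
      have := MvPolynomial.le_totalDegree hd
      rwa [Finsupp.sum_fintype _ _ (fun _ => rfl)] at this
    refine le_trans ?_ h2
    have h3 : (algebraMap ℂ (Polynomial ℂ)) (coeff d P) = Polynomial.C (coeff d P) := rfl
    rw [h3, ← mul_assoc, ← Polynomial.C_mul]
    exact Polynomial.natDegree_C_mul_X_pow_le _ _
  obtain ⟨c, hc⟩ := hmod
  have hFc : F = Polynomial.C c := by
    have h1 : F - Polynomial.C c = 0 := by
      by_contra hne
      have h2 := Polynomial.natDegree_le_of_dvd hc hne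
      rw [Polynomial.natDegree_X_pow] at h2
      have h3 : (F - Polynomial.C c).natDegree ≤ N :=
        (Polynomial.natDegree_sub_le _ _).trans (by simp [hFdeg])
      omega
    exact sub_eq_zero.mp h1
  have e1 := hev 1
  have e0 := hev 0
  rw [hFc] at e1 e0
  simp only [Polynomial.eval_C, mul_one, mul_zero] at e1 e0
  rw [← e1, e0]
  rfl

end

end Pool.Agent.Helper38
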