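import Mathlib

set_option autoImplicit false

namespace Pool.Agent.Helper23.M4

/-- six times the main term -/
def fN (r x : ℤ) : ℤ := 31264 * r ^ 3 + 3024 * r ^ 2 * x + 881904 * r ^ 2 + 96 * r * x ^ 2 +
  56784 * r * x + 8192432 * r + x ^ 3 + 900 * x ^ 2 + 263255 * x + 25049328

/-- six times the lower end -/
def fL (r x : ℤ) : ℤ := fN r x - 6 * (((r + 16) ^ 2 + 1) * (30 * r + 267 + x)) + 6

/-- six times the upper end -/
def fU (r x : ℤ) : ℤ := fN r x - 6 * (r ^ 2 * (30 * r + 267 + x))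

theorem exists_six (q : ℕ) : ∃ g : ℕ, 6 * g = q * (q + 1) * (q + 2) := by
  induction q with
  | zero => exact ⟨0, rfl⟩
  | succ q ih =>
    obtain ⟨g, hg⟩ := ih
    obtain ⟨h, hh⟩ : ∃ h : ℕ, 2 * h = (q + 1) * (q + 2) := by
      have : 2 ∣ (q + 1) * (q + 1 + 1) := (Nat.even_mul_succ_self (q + 1)).two_dvd
      obtain ⟨h, hh⟩ := this
      exact ⟨h, hh.symm⟩
    refine ⟨g + h, ?_⟩
    nlinarith

theorem exists_two (q : ℕ) : ∃ h : ℕ, 2 * h = q * (q + 1) := by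
  obtain ⟨h, hh⟩ := (Nat.even_mul_succ_self q).two_dvd
  exact ⟨h, hh.symm⟩

section

variable {RzL : ℕ → ℕ → ℕ → ℕ → Prop} {IsVal : ℕ → Prop}

theorem pair (hmul : ∀ L k a b L' k' a' b', RzL L k a b → RzL L' k' a' b' →
      RzL (L + L') (k + k') (a + a' + k * k') (b + b' + k * a' + a * k'))
    (hlin : ∀ a, RzL (a + 1) a 0 0) (s t : ℕ) (hts : t ≤ s) :
    ∃ a : ℕ, a + t ^ 2 = s ^ 2 ∧ RzL (2 * s + 2) (2 * s) a 0 := by
  obtain ⟨d, rfl⟩ := Nat.exists_eq_add_of_le hts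
  refine ⟨d * (d + 2 * t), by ring, ?_⟩
  have h := hmul _ _ _ _ _ _ _ _ (hlin d) (hlin (d + 2 * t))
  have e1 : d + 1 + (d + 2 * t + 1) = 2 * (t + d) + 2 := by ring
  have e2 : d + (d + 2 * t) = 2 * (t + d) := by ring
  have e3 : 0 + 0 + d * (d + 2 * t) = d * (d + 2 * t) := by ring
  have e4 : 0 + 0 + d * 0 + 0 * (d + 2 * t) = 0 := by ring
  rw [e1, e2, e3, e4] at h
  exact h

theorem four (hmul : ∀ L k a b L' k' a' b', RzL L k a b → RzL L' k' a' b' →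
      RzL (L + L') (k + k') (a + a' + k * k') (b + b' + k * a' + a * k'))
    (hlin : ∀ a, RzL (a + 1) a 0 0) (s v : ℕ) (hv : v ≤ s ^ 2) :
    ∃ a b : ℕ, a + v = 28 * s ^ 2 ∧ b + 6 * s * v = 56 * s ^ 3 ∧ RzL (8 * s + 8) (8 * s) a b := by
  obtain ⟨t1, t2, t3, t4, ht⟩ := Nat.sum_four_squares v
  have hle : ∀ t : ℕ, t ^ 2 ≤ v → t ≤ s := by
    intro t h
    exact (Nat.pow_le_pow_iff_left two_ne_zero).mp (h.trans hv)
  obtain ⟨a1, e1, h1⟩ := pair hmul hlin s t1 (hle _ (by omega))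
  obtain ⟨a2, e2, h2⟩ := pair hmul hlin s t2 (hle _ (by omega))
  obtain ⟨a3, e3, h3⟩ := pair hmul hlin s t3 (hle _ (by omega))
  obtain ⟨a4, e4, h4⟩ := pair hmul hlin s t4 (hle _ (by omega))
  have h12 := hmul _ _ _ _ _ _ _ _ h1 h2
  have h34 := hmul _ _ _ _ _ _ _ _ h3 h4
  have h := hmul _ _ _ _ _ _ _ _ h12 h34
  have hL : 2 * s + 2 + (2 * s + 2) + (2 * s + 2 + (2 * s + 2)) = 8 * s + 8 := by ring
  have hk : 2 * s + 2 * s + (2 * s + 2 * s) = 8 * s := by ring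
  rw [hL, hk] at h
  refine ⟨_, _, ?_, ?_, h⟩
  · zify at *
    linear_combination e1 + e2 + e3 + e4 - ht
  · zify at *
    linear_combination 6 * (s : ℤ) * (e1 + e2 + e3 + e4) - 6 * (s : ℤ) * ht

theorem interval (hmul : ∀ L k a b L' k' a' b', RzL L k a b → RzL L' k' a' b' →
      RzL (L + L') (k + k') (a + a' + k * k') (b + b' + k * a' + a * k'))
    (hlin : ∀ a, RzL (a + 1) a 0 0)
    (hval : ∀ L k a b q n : ℕ, RzL L k a b → L + 1 ≤ q → 2 ≤ q →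
      6 * n = q * (q + 1) * (q + 2) + 3 * k * q * (q + 1) + 6 * a * q + 6 * b → IsVal n)
    (hF : ∀ η < 32, RzL 14 12 42 (35 + η))
    (r x n : ℕ) (hr : 4 ≤ r) (hx : x ≤ 30) (h1 : fL r x ≤ 6 * n) (h2 : 6 * (n : ℤ) ≤ fU r x) :
    IsVal n := by
  obtain ⟨g, hg⟩ := exists_six (16 * r + 159 + x)
  obtain ⟨h, hh⟩ := exists_two (16 * r + 159 + x)
  obtain ⟨N, hN⟩ : ∃ N : ℕ, 6 * (N : ℤ) = fN r x := by
    refine ⟨g + (16 * r + 140) * h + (120 * r ^ 2 + 2112 * r + 8746) * (16 * r + 159 + x) +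
      (560 * r ^ 3 + 14880 * r ^ 2 + 124064 * r + 320834), ?_⟩
    unfold fN
    zify at hg hh
    push_cast
    linear_combination hg + 3 * (16 * (r : ℤ) + 140) * hh
  set c : ℕ := 30 * r + 267 + x with hc
  have hc0 : 0 < c := by omega
  have hcZ : (c : ℤ) = 30 * r + 267 + x := by rw [hc]; push_cast; ring
  unfold fL at h1
  unfold fU at h2
  rw [← hN, ← hcZ] at h1 h2
  have hmlow : r ^ 2 * c + n ≤ N := by
    zify
    linarith
  obtain ⟨m, hm⟩ := Nat.exists_eq_add_of_le (le_trans (Nat.le_add_left n (r ^ 2 * c)) hmlow)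
  have hm1 : r ^ 2 * c ≤ m := by omega
  have hm2 : m < ((r + 16) ^ 2 + 1) * c := by
    zify
    have hm' : (N : ℤ) = n + m := by exact_mod_cast hm
    rw [hm'] at h1
    linarith
  set V := m / c with hV
  set ρ := m % c with hρ
  have hmV : c * V + ρ = m := Nat.div_add_mod m c
  have hρc : ρ < c := Nat.mod_lt _ hc0
  have hV1 : r ^ 2 ≤ V := (Nat.le_div_iff_mul_le hc0).mpr hm1
  have hV2 : V ≤ (r + 16) ^ 2 := by
    have : V < (r + 16) ^ 2 + 1 := (Nat.div_lt_iff_lt_mul hc0).mpr hm2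
    omega
  have hcr : c ≤ 32 * (r ^ 2 + 1) := by
    rw [hc]
    nlinarith
  set v2 := ρ / 32 with hv2
  set e := ρ % 32 with he
  have hρe : 32 * v2 + e = ρ := Nat.div_add_mod ρ 32
  have he32 : e < 32 := Nat.mod_lt _ (by norm_num)
  have hv2r : v2 ≤ r ^ 2 := by omega
  obtain ⟨v1, hv1⟩ := Nat.exists_eq_add_of_le (hv2r.trans hV1)
  have hv1s : v1 ≤ (r + 16) ^ 2 := by omega
  obtain ⟨η, hη⟩ := Nat.exists_eq_add_of_le (show e ≤ 31 by omega)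
  have hη32 : η < 32 := by omega
  obtain ⟨a1, b1, ha1, hb1, hR1⟩ := four hmul hlin (r + 16) v1 hv1s
  obtain ⟨a2, b2, ha2, hb2, hR2⟩ := four hmul hlin r v2 hv2r
  have hR := hmul _ _ _ _ _ _ _ _ (hmul _ _ _ _ _ _ _ _ (hF η hη32) hR1) hR2
  refine hval _ _ _ _ (16 * r + 159 + x) n hR (by omega) (by omega) ?_
  unfold fN at hN
  zify at *
  linear_combination hN - 6 * hm + 6 * hmV + 6 * hρe + 6 * hη - 6 * (c : ℤ) * hv1 -
    6 * ((v1 : ℤ) + v2) * hcZ -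
    (6 * (16 * (r : ℤ) + 159 + x) + 72 + 48 * r) * ha1 - 6 * hb1 -
    (6 * (16 * (r : ℤ) + 159 + x) + 6 * (12 + 8 * (r + 16))) * ha2 - 6 * hb2

theorem overlap_x (r x : ℤ) (hr : 0 ≤ r) (hx : 0 ≤ x) (hx2 : x ≤ 30) :
    fL r (x + 1) ≤ fU r x := by
  have h : fU r x - fL r (x + 1) =
      6 * (457 * r ^ 2 + 6806 * r) + (6 * 24849 - 3 * x ^ 2 - 261 * x) := by
    unfold fU fL fN
    ring
  have h1 : 0 ≤ r ^ 2 := sq_nonneg r
  have h2 : x ^ 2 ≤ 900 := by nlinarith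
  linarith

theorem overlap_r (r : ℤ) (hr : 0 ≤ r) : fL (r + 1) 0 ≤ fU r 30 := by
  have h : fU r 30 - fL (r + 1) 0 = 6 * (508 * r ^ 2 + 7518 * r + 24304) := by
    unfold fU fL fN
    ring
  have h1 : 0 ≤ r ^ 2 := sq_nonneg r
  linarith

theorem cover_x (r : ℕ) (n : ℤ) (X : ℕ) (hX : X ≤ 30) (h1 : fL r 0 ≤ 6 * n)
    (h2 : 6 * n ≤ fU r X) : ∃ x : ℕ, x ≤ 30 ∧ fL r x ≤ 6 * n ∧ 6 * n ≤ fU r x := by
  induction X with
  | zero => exact ⟨0, by norm_num, by rw [Nat.cast_zero]; exact h1, h2⟩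
  | succ X ih =>
    by_cases h : fL r ((X + 1 : ℕ) : ℤ) ≤ 6 * n
    · exact ⟨X + 1, hX, h, h2⟩
    · rw [not_le] at h
      apply ih (by omega)
      have h3 := overlap_x (r : ℤ) (X : ℤ) (Int.natCast_nonneg r)
        (Int.natCast_nonneg X) (by exact_mod_cast (by omega : X ≤ 30))
      push_cast at h
      exact h.le.trans h3

theorem upper_big (r : ℤ) (hr : 0 ≤ r) : 6 * r ≤ fU r 30 := by
  have h : fU r 30 = 31084 * r ^ 3 + 970842 * r ^ 2 + 9982352 * r + 33783978 := by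
    unfold fU fN
    ring
  have h1 : 0 ≤ r ^ 2 := sq_nonneg r
  have h2 : 0 ≤ r ^ 3 := by positivity
  linarith

theorem cover_r (n : ℤ) (R : ℕ) (h1 : fL ((4 : ℕ) : ℤ) 0 ≤ 6 * n) (h2 : 6 * n ≤ fU ((R + 4 : ℕ) : ℤ) 30) :
    ∃ r : ℕ, 4 ≤ r ∧ fL r 0 ≤ 6 * n ∧ 6 * n ≤ fU r 30 := by
  induction R with
  | zero => exact ⟨4, le_rfl, h1, h2⟩
  | succ R ih =>
    by_cases h : fL ((R + 1 + 4 : ℕ) : ℤ) 0 ≤ 6 * n
    · exact ⟨R + 1 + 4, by omega, h, h2⟩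
    · rw [not_le] at h
      apply ih
      have h3 := overlap_r ((R + 4 : ℕ) : ℤ) (by positivity)
      have h4 : ((R + 1 + 4 : ℕ) : ℤ) = ((R + 4 : ℕ) : ℤ) + 1 := by push_cast; ring
      rw [h4] at h
      exact h.le.trans h3

theorem large (hmul : ∀ L k a b L' k' a' b', RzL L k a b → RzL L' k' a' b' →
      RzL (L + L') (k + k') (a + a' + k * k') (b + b' + k * a' + a * k'))
    (hlin : ∀ a, RzL (a + 1) a 0 0)
    (hval : ∀ L k a b q n : ℕ, RzL L k a b → L + 1 ≤ q → 2 ≤ q →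
      6 * n = q * (q + 1) * (q + 2) + 3 * k * q * (q + 1) + 6 * a * q + 6 * b → IsVal n)
    (hF : ∀ η < 32, RzL 14 12 42 (35 + η)) : ∀ n ≥ 12166550, IsVal n := by
  intro n hn
  obtain ⟨r, hr, hr1, hr2⟩ := cover_r (n : ℤ) n (by
      have h4 : fL ((4 : ℕ) : ℤ) 0 = 6 * 12166550 := by
        unfold fL fN
        norm_num
      rw [h4]
      have : (12166550 : ℤ) ≤ n := by exact_mod_cast hn
      linarith) (by
      have h3 := upper_big ((n + 4 : ℕ) : ℤ) (by positivity)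
      refine le_trans ?_ h3
      push_cast
      linarith)
  obtain ⟨x, hx, hx1, hx2⟩ := cover_x r n 30 le_rfl hr1 hr2
  exact interval hmul hlin hval hF r x n hr hx hx1 hx2

end

end Pool.Agent.Helper23.M4
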