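import Mathlib
import Pool.Agent.Helper57.M4.Tabs
import Pool.Agent.Helper23.M4Large

set_option autoImplicit false

open Pool.Agent.Helper57.M4 (T8a T8 T10 T12)

namespace Pool.Agent.Helper23.M4

/-- the pair `(x, y)` is realised, in shifted coordinates -/
def Sat (RzL : ℕ → ℕ → ℕ → ℕ → Prop) (L K E2 E3 O x y : ℕ) : Prop :=
  ∃ a b, RzL L K a b ∧ a = E2 + x ∧ b + 12 * x + O = E3 + K * x + y

/-- all pairs coded by the bits of `S` are realised -/
def Good (RzL : ℕ → ℕ → ℕ → ℕ → Prop) (S L K E2 E3 O Y : ℕ) : Prop :=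
  ∀ i, S.testBit i = true → ∃ x y, i = 4096 * x + y ∧ y ≤ Y ∧ Sat RzL L K E2 E3 O x y

/-- sumset of a coded set and a list -/
def conv (S : ℕ) (T : List (ℕ × ℕ)) : ℕ :=
  T.foldr (fun e acc => (S <<< (4096 * e.1 + e.2)) ||| acc) 0

/-- change of coordinates of a table -/
def tr (k O : ℕ) (T : List (ℕ × ℕ)) : List (ℕ × ℕ) :=
  T.map fun e => (e.1, e.2 + 12 * e.1 + O - k * e.1)

/-- the change of coordinates is harmless -/
def trOk (k O Y : ℕ) (T : List (ℕ × ℕ)) : Bool :=
  T.all fun e => Nat.ble (k * e.1) (e.2 + 12 * e.1 + O) && Nat.ble (e.2 + 12 * e.1 + O - k * e.1) Y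

section

variable {RzL : ℕ → ℕ → ℕ → ℕ → Prop} {IsVal : ℕ → Prop}

theorem tr_good {L k O Y : ℕ} {T : List (ℕ × ℕ)} (h : ∀ e ∈ T, RzL L k e.1 e.2)
    (hc : trOk k O Y T = true) :
    ∀ e ∈ tr k O T, e.2 ≤ Y ∧ Sat RzL L k 0 0 O e.1 e.2 := by
  intro e he
  obtain ⟨f, hf, rfl⟩ := List.mem_map.1 he
  have h1 := List.all_eq_true.1 hc f hf
  rw [Bool.and_eq_true, Nat.ble_eq, Nat.ble_eq] at h1
  obtain ⟨h2, h3⟩ := h1
  refine ⟨h3, f.1, f.2, h f hf, by simp, ?_⟩
  change f.2 + 12 * f.1 + O = 0 + k * f.1 + (f.2 + 12 * f.1 + O - k * f.1)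
  omega

theorem sat_mul (hmul : ∀ L k a b L' k' a' b', RzL L k a b → RzL L' k' a' b' →
      RzL (L + L') (k + k') (a + a' + k * k') (b + b' + k * a' + a * k'))
    {L K E2 E3 O x y L' k O' x' y' : ℕ} (h : Sat RzL L K E2 E3 O x y)
    (h' : Sat RzL L' k 0 0 O' x' y') :
    Sat RzL (L + L') (K + k) (E2 + K * k) (E3 + E2 * k) (O + O') (x + x') (y + y') := by
  obtain ⟨a, b, h1, h2, h3⟩ := h
  obtain ⟨a', b', h1', h2', h3'⟩ := h'
  refine ⟨_, _, hmul _ _ _ _ _ _ _ _ h1 h1', ?_, ?_⟩
  · rw [h2, h2']; ring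
  · subst h2 h2'
    linear_combination h3 + h3'

theorem conv_good (hmul : ∀ L k a b L' k' a' b', RzL L k a b → RzL L' k' a' b' →
      RzL (L + L') (k + k') (a + a' + k * k') (b + b' + k * a' + a * k'))
    {S L K E2 E3 O Y L' k O' Y' : ℕ} (hS : Good RzL S L K E2 E3 O Y) (T : List (ℕ × ℕ))
    (hT : ∀ e ∈ T, e.2 ≤ Y' ∧ Sat RzL L' k 0 0 O' e.1 e.2) :
    Good RzL (conv S T) (L + L') (K + k) (E2 + K * k) (E3 + E2 * k) (O + O') (Y + Y') := by
  induction T with
  | nil =>
    intro i hi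
    simp [conv] at hi
  | cons e T ih =>
    intro i hi
    have hc : conv S (e :: T) = (S <<< (4096 * e.1 + e.2)) ||| conv S T := rfl
    rw [hc, Nat.testBit_or, Bool.or_eq_true] at hi
    rcases hi with hi | hi
    · rw [Nat.testBit_shiftLeft, Bool.and_eq_true] at hi
      obtain ⟨h1, h2⟩ := hi
      have h1' : 4096 * e.1 + e.2 ≤ i := by simpa using h1
      obtain ⟨x, y, h3, h4, h5⟩ := hS _ h2
      obtain ⟨h6, h7⟩ := hT e (List.mem_cons_self)
      refine ⟨x + e.1, y + e.2, by omega, by omega, sat_mul hmul h5 h7⟩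
    · exact ih (fun e he => hT e (List.mem_cons_of_mem _ he)) i hi

theorem one_good {L k O Y : ℕ} (T : List (ℕ × ℕ))
    (hT : ∀ e ∈ T, e.2 ≤ Y ∧ Sat RzL L k 0 0 O e.1 e.2) :
    Good RzL (conv 1 T) L k 0 0 O Y := by
  induction T with
  | nil =>
    intro i hi
    simp [conv] at hi
  | cons e T ih =>
    intro i hi
    have hc : conv 1 (e :: T) = (1 <<< (4096 * e.1 + e.2)) ||| conv 1 T := rfl
    rw [hc, Nat.testBit_or, Bool.or_eq_true] at hi
    rcases hi with hi | hi
    · rw [Nat.testBit_shiftLeft, Bool.and_eq_true] at hi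
      obtain ⟨h1, h2⟩ := hi
      have h1' : 4096 * e.1 + e.2 ≤ i := by simpa using h1
      have h2' : i - (4096 * e.1 + e.2) = 0 := by
        by_contra hne
        have : (1 : ℕ).testBit (i - (4096 * e.1 + e.2)) = false := by
          apply Nat.testBit_lt_two_pow
          exact Nat.one_lt_two_pow hne
        rw [this] at h2
        exact absurd h2 (by simp)
      obtain ⟨h6, h7⟩ := hT e (List.mem_cons_self)
      exact ⟨e.1, e.2, by omega, h6, h7⟩
    · exact ih (fun e he => hT e (List.mem_cons_of_mem _ he)) i hi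

/-- all bits from `(x, α)` to `(x, β)` are set -/
def bits (S x α β : ℕ) : Bool :=
  Nat.beq ((S >>> (4096 * x + α)) % 2 ^ (β + 1 - α)) (2 ^ (β + 1 - α) - 1)

theorem bits_spec {S x α β y : ℕ} (h : bits S x α β = true) (h1 : α ≤ y) (h2 : y ≤ β) :
    S.testBit (4096 * x + y) = true := by
  have h3 := Nat.eq_of_beq_eq_true h
  have h4 : (2 ^ (β + 1 - α) - 1).testBit (y - α) = true := by
    rw [Nat.testBit_two_pow_sub_one]
    simp
    omega
  rw [← h3, Nat.testBit_mod_two_pow, Bool.and_eq_true, Nat.testBit_shiftRight] at h4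
  have h5 : 4096 * x + α + (y - α) = 4096 * x + y := by omega
  rw [h5] at h4
  exact h4.2

/-- checks a run -/
def chk (S Q : ℕ) : ℕ → ℕ → List (ℕ × ℕ) → Bool
  | _, _, [] => true
  | x, b, (α, β) :: l =>
    Nat.ble (Q + α) b && (bits S (x + 1) α β && chk S Q (x + 1) (β + 1) l)

/-- end of a run -/
def fin : ℕ → ℕ → List (ℕ × ℕ) → ℕ × ℕ
  | x, b, [] => (x, b)
  | x, _, (_, β) :: l => fin (x + 1) (β + 1) l

/-- all numbers from `lo` to `hi - 1` are represented -/
def Cov (S Q lo hi : ℕ) : Prop :=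
  ∀ v, lo ≤ v → v < hi → ∃ x y, v = x * Q + y ∧ y < 4096 ∧ S.testBit (4096 * x + y) = true

theorem cov_chk {S Qm Q : ℕ} (hQ : Q ≤ Qm) (lo : ℕ) : ∀ (l : List (ℕ × ℕ)) (x b : ℕ),
    (∀ e ∈ l, e.2 < 4096) → Cov S Q lo (x * Q + b) → chk S Qm x b l = true →
    Cov S Q lo ((fin x b l).1 * Q + (fin x b l).2)
  | [], x, b, _, h, _ => h
  | (α, β) :: l, x, b, hl, h, hc => by
    have hc' : (Nat.ble (Qm + α) b && (bits S (x + 1) α β && chk S Qm (x + 1) (β + 1) l)) = true :=
      hc
    rw [Bool.and_eq_true, Bool.and_eq_true, Nat.ble_eq] at hc'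
    obtain ⟨h1, h2, h3⟩ := hc'
    apply cov_chk hQ lo l (x + 1) (β + 1) (fun e he => hl e (List.mem_cons_of_mem _ he)) _ h3
    intro v hv1 hv2
    by_cases hv : v < x * Q + b
    · exact h v hv1 hv
    · have hx : (x + 1) * Q = x * Q + Q := by ring
      have hβ : β < 4096 := hl (α, β) (List.mem_cons_self)
      refine ⟨x + 1, v - (x + 1) * Q, ?_, ?_, ?_⟩
      · rw [hx]; omega
      · rw [hx]; rw [hx] at hv2; omega
      · apply bits_spec h2
        · rw [hx]; omega
        · rw [hx]; rw [hx] at hv2; omega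

/-- start value for the parameter `q` -/
def bs (K E2 E3 O q : ℕ) : ℕ :=
  q * (q + 1) * (q + 2) / 6 + K * (q * (q + 1) / 2) + E2 * q + (E3 - O)

theorem bs_val (hval : ∀ L k a b q n : ℕ, RzL L k a b → L + 1 ≤ q → 2 ≤ q →
      6 * n = q * (q + 1) * (q + 2) + 3 * k * q * (q + 1) + 6 * a * q + 6 * b → IsVal n)
    {L K E2 E3 O x y q : ℕ} (hO : O ≤ E3) (hK : 12 ≤ K) (hq : L + 1 ≤ q) (hq2 : 2 ≤ q)
    (h : Sat RzL L K E2 E3 O x y) : IsVal (bs K E2 E3 O q + (x * (q + (K - 12)) + y)) := by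
  obtain ⟨a, b, h1, h2, h3⟩ := h
  apply hval L K a b q _ h1 hq hq2
  obtain ⟨g, hg⟩ := exists_six q
  obtain ⟨t, ht⟩ := exists_two q
  have e1 : q * (q + 1) * (q + 2) / 6 = g := by omega
  have e2 : q * (q + 1) / 2 = t := by omega
  obtain ⟨c, rfl⟩ := Nat.exists_eq_add_of_le hO
  obtain ⟨k, rfl⟩ := Nat.exists_eq_add_of_le hK
  unfold bs
  rw [e1, e2, Nat.add_sub_cancel_left, Nat.add_sub_cancel_left, ← hg]
  have h4 : b = c + k * x + y := by
    have : b + 12 * x + O = O + c + (12 * x + k * x) + y := by rw [h3]; ring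
    omega
  have h5 : 3 * (12 + k) * q * (q + 1) = 6 * ((12 + k) * t) := by
    have : 3 * (12 + k) * q * (q + 1) = 3 * (12 + k) * (q * (q + 1)) := by ring
    rw [this, ← ht]; ring
  rw [h5, h4, h2]
  ring

/-- first number of the interval for `q` -/
def lo (K E2 E3 O X0 : ℕ) (α : ℕ) (q : ℕ) : ℕ := bs K E2 E3 O q + (X0 * (q + (K - 12)) + α)

/-- one more than the last number of the interval for `q` -/
def hi (K E2 E3 O : ℕ) (e : ℕ × ℕ) (q : ℕ) : ℕ :=
  bs K E2 E3 O q + (e.1 * (q + (K - 12)) + e.2)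

/-- the intervals for `q` and `q + 1` touch, for `m` values of `q` -/
def touch (K E2 E3 O X0 α : ℕ) (e : ℕ × ℕ) : ℕ → ℕ → Bool
  | _, 0 => true
  | q, m + 1 => Nat.ble (lo K E2 E3 O X0 α (q + 1)) (hi K E2 E3 O e q) &&
      touch K E2 E3 O X0 α e (q + 1) m

theorem seg_aux {K E2 E3 O X0 α : ℕ} {e : ℕ × ℕ} : ∀ (m q n : ℕ),
    touch K E2 E3 O X0 α e q m = true → lo K E2 E3 O X0 α q ≤ n → n < hi K E2 E3 O e (q + m) →
    ∃ q', q ≤ q' ∧ q' ≤ q + m ∧ lo K E2 E3 O X0 α q' ≤ n ∧ n < hi K E2 E3 O e q'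
  | 0, q, n, _, h1, h2 => ⟨q, le_refl _, le_refl _, h1, h2⟩
  | m + 1, q, n, ht, h1, h2 => by
    have ht' : (Nat.ble (lo K E2 E3 O X0 α (q + 1)) (hi K E2 E3 O e q) &&
      touch K E2 E3 O X0 α e (q + 1) m) = true := ht
    rw [Bool.and_eq_true, Nat.ble_eq] at ht'
    by_cases h : n < hi K E2 E3 O e q
    · exact ⟨q, le_refl _, by omega, h1, h⟩
    · have h3 : q + 1 + m = q + (m + 1) := by omega
      obtain ⟨q', h4, h5, h6, h7⟩ := seg_aux m (q + 1) n ht'.2 (by omega) (by rw [h3]; exact h2)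
      exact ⟨q', by omega, by omega, h6, h7⟩

/-- all the checks for one segment -/
def segOk (S L K E3 O Y E2 X0 α β : ℕ) (l : List (ℕ × ℕ)) (q m : ℕ) : Bool :=
  Nat.ble O E3 && Nat.ble 12 K && Nat.ble (L + 1) q && Nat.ble 2 q && Nat.blt Y 4096 &&
    Nat.blt β 4096 && (l.all fun e => Nat.blt e.2 4096) && bits S X0 α β &&
    chk S (q + m + (K - 12)) X0 (β + 1) l &&
    touch K E2 E3 O X0 α (fin X0 (β + 1) l) q m

theorem seg (hval : ∀ L k a b q n : ℕ, RzL L k a b → L + 1 ≤ q → 2 ≤ q →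
      6 * n = q * (q + 1) * (q + 2) + 3 * k * q * (q + 1) + 6 * a * q + 6 * b → IsVal n)
    {S L K E2 E3 O Y : ℕ} (hS : Good RzL S L K E2 E3 O Y) (X0 α β : ℕ) (l : List (ℕ × ℕ))
    (q m : ℕ) (h : segOk S L K E3 O Y E2 X0 α β l q m = true) (n : ℕ)
    (h1 : lo K E2 E3 O X0 α q ≤ n) (h2 : n < hi K E2 E3 O (fin X0 (β + 1) l) (q + m)) :
    IsVal n := by
  unfold segOk at h
  simp only [Bool.and_eq_true, Nat.ble_eq, Nat.blt_eq, List.all_eq_true] at h
  obtain ⟨⟨⟨⟨⟨⟨⟨⟨⟨hO, hK⟩, hL⟩, h2q⟩, hY⟩, hβ⟩, hl⟩, hb⟩, hc⟩, ht⟩ := h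
  obtain ⟨q', h3, h4, h5, h6⟩ := seg_aux m q n ht h1 h2
  have hcov : Cov S (q' + (K - 12)) (X0 * (q' + (K - 12)) + α)
      ((fin X0 (β + 1) l).1 * (q' + (K - 12)) + (fin X0 (β + 1) l).2) := by
    apply cov_chk (Qm := q + m + (K - 12)) (by omega) _ l X0 (β + 1) hl _ hc
    intro v hv1 hv2
    refine ⟨X0, v - X0 * (q' + (K - 12)), by omega, by omega, ?_⟩
    apply bits_spec hb <;> omega
  unfold lo at h5
  unfold hi at h6
  obtain ⟨x, y, h7, h8, h9⟩ := hcov (n - bs K E2 E3 O q') (by omega) (by omega)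
  obtain ⟨x', y', e1, e2, e3⟩ := hS _ h9
  have e4 : x = x' := by omega
  have e5 : y = y' := by omega
  subst e4 e5
  have h10 := bs_val hval hO hK (show L + 1 ≤ q' by omega) (by omega) e3
  have h11 : bs K E2 E3 O q' + (x * (q' + (K - 12)) + y) = n := by omega
  rw [h11] at h10
  exact h10

end

def ivA : List (ℕ × ℕ) :=
  [(0, 0), (1, 0), (1, 0), (1, 0), (1, 0), (1, 0), (1, 0), (14, 14), (16, 16), (0, 0), (0, 0),
   (0, 0), (24, 24), (26, 26), (0, 0), (0, 0), (35, 39), (39, 40), (40, 46), (44, 48), (46, 51),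
   (48, 58), (51, 57), (54, 60), (63, 69), (60, 75), (63, 80), (35, 46), (74, 90), (78, 94),
   (11, 40), (12, 28), (14, 46), (12, 69), (14, 75), (20, 80), (13, 82), (18, 90), (26, 69),
   (22, 100), (24, 103), (26, 82), (30, 114), (26, 94), (28, 100), (30, 103), (30, 110),
   (30, 114), (30, 122), (30, 125), (30, 130), (34, 132), (35, 131), (38, 138), (40, 138),
   (44, 138), (46, 139), (48, 147), (48, 146), (54, 150), (56, 150), (60, 150), (63, 156),
   (66, 158), (70, 160), (77, 162), (82, 162), (85, 166), (90, 168), (95, 172), (101, 175),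
   (105, 178), (113, 181), (118, 184), (124, 186), (130, 190), (138, 194), (143, 198),
   (150, 202), (156, 206), (162, 209), (168, 214), (176, 218), (182, 223), (190, 228),
   (198, 232), (206, 238), (213, 241), (220, 245), (229, 249), (237, 254), (246, 260),
   (255, 262), (264, 270)]

def ivB : List (ℕ × ℕ) :=
  [(0, 0), (1, 0), (1, 0), (1, 0), (1, 0), (20, 20), (24, 24), (14, 14), (32, 33), (36, 38),
   (42, 43), (46, 48), (51, 52), (56, 58), (59, 64), (63, 68), (69, 76), (74, 82), (80, 87),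
   (42, 48), (46, 60), (46, 64), (51, 72), (54, 74), (56, 96), (59, 101), (60, 106), (66, 108),
   (71, 110), (18, 68), (11, 113), (12, 119), (14, 123), (12, 131), (14, 135), (20, 138),
   (13, 141), (18, 144), (26, 147), (22, 151), (24, 155), (26, 159), (30, 163), (26, 167),
   (28, 171), (30, 141), (30, 144), (30, 147), (30, 151), (30, 155), (30, 159), (34, 163),
   (35, 167), (38, 171), (40, 175), (44, 180), (46, 185), (48, 190), (48, 195), (54, 199),
   (56, 205), (60, 212), (61, 217), (66, 223), (70, 227), (74, 233), (76, 212), (78, 217),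
   (80, 223), (82, 227), (90, 233), (92, 235), (96, 237), (104, 245), (106, 243), (108, 243),
   (113, 250), (119, 244), (124, 252), (130, 251), (134, 255), (140, 255), (145, 259),
   (150, 261), (155, 263), (161, 265), (165, 267), (173, 267), (177, 271), (184, 273),
   (190, 277), (196, 280), (202, 283), (210, 286), (215, 289), (222, 291), (228, 295),
   (234, 299), (240, 303), (248, 307), (254, 311), (262, 314), (270, 319), (278, 323),
   (285, 328), (292, 333), (300, 337), (308, 343), (316, 346), (324, 350), (333, 355),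
   (341, 359), (350, 365), (359, 367), (368, 375)]

def ivC : List (ℕ × ℕ) :=
  [(0, 0), (1, 0), (1, 0), (1, 0), (1, 0), (20, 20), (24, 24), (14, 14), (32, 33), (36, 38),
   (42, 43), (46, 48), (51, 53), (56, 58), (59, 64), (63, 68), (69, 76), (74, 82), (80, 88),
   (60, 67), (46, 60), (46, 64), (51, 82), (51, 74), (56, 96), (59, 102), (60, 109), (66, 116),
   (70, 120), (18, 72), (11, 124), (12, 126), (14, 128), (4, 135), (4, 142), (20, 150), (4, 158),
   (4, 166), (4, 170), (4, 179), (4, 177), (4, 179), (4, 188), (4, 191), (4, 195), (4, 204),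
   (4, 206), (4, 216), (4, 219), (4, 226), (4, 225), (4, 228), (4, 237), (4, 243), (4, 248),
   (4, 250), (4, 216), (4, 219), (5, 226), (5, 226), (5, 232), (6, 237), (6, 243), (6, 248),
   (7, 250), (10, 258), (11, 262), (11, 268), (11, 271), (12, 278), (12, 282), (13, 290),
   (13, 293), (16, 271), (16, 278), (22, 282), (24, 290), (26, 293), (26, 298), (26, 300),
   (28, 299), (30, 306), (30, 306), (30, 306), (30, 307), (30, 315), (30, 314), (34, 318),
   (35, 318), (38, 318), (40, 324), (44, 326), (46, 328), (48, 330), (48, 330), (54, 334),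
   (56, 336), (60, 340), (61, 343), (66, 346), (70, 349), (74, 352), (76, 354), (78, 358),
   (80, 362), (82, 366), (90, 370), (92, 374), (96, 377), (100, 382), (106, 386), (108, 391),
   (112, 396), (119, 400), (124, 406), (130, 370), (134, 374), (138, 377), (144, 382),
   (149, 386), (154, 391), (159, 396), (165, 400), (169, 406), (177, 409), (182, 413),
   (186, 417), (192, 422), (198, 428), (204, 430), (209, 430), (214, 417), (219, 422),
   (224, 428), (229, 430), (237, 438), (241, 440), (248, 438), (254, 444), (260, 445),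
   (266, 446), (274, 447), (279, 446), (286, 450), (292, 450), (298, 454), (304, 456),
   (312, 458), (318, 460), (326, 462), (334, 462), (342, 466), (349, 468), (356, 472),
   (364, 475), (372, 478), (380, 481), (387, 484), (394, 486), (402, 490), (410, 494),
   (418, 498), (425, 502), (432, 506), (441, 509), (449, 514), (458, 518), (467, 523),
   (475, 528), (484, 532), (493, 538), (502, 541), (511, 545), (520, 549), (530, 554),
   (540, 560), (550, 562), (560, 570)]

def ivD : List (ℕ × ℕ) :=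
  [(1728, 1728), (1, 0), (1, 0), (1, 0), (1, 0), (1748, 1748), (1752, 1752), (1742, 1742),
   (1760, 1761), (1764, 1766), (1770, 1771), (1774, 1776), (1779, 1781), (1784, 1786),
   (1787, 1792), (1788, 1796), (1796, 1806), (1802, 1815), (1808, 1816), (1816, 1825),
   (1774, 1788), (1774, 1810), (1779, 1812), (1778, 1834), (1784, 1843), (1787, 1834),
   (1788, 1840), (1760, 1844), (1798, 1865), (1746, 1872), (1739, 1874), (1740, 1881),
   (1742, 1888), (1732, 1892), (1732, 1902), (1748, 1910), (1732, 1918), (1732, 1908),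
   (1732, 1916), (1732, 1923), (1732, 1930), (1732, 1939), (1732, 1941), (1732, 1948),
   (1732, 1956), (1732, 1954), (1732, 1962), (1732, 1968), (1732, 1964), (1732, 1970),
   (1732, 1978), (1732, 1974), (1732, 1984), (1732, 1990), (1732, 1990), (1732, 1996),
   (1732, 2000), (1732, 2006), (1733, 2012), (1733, 2012), (1733, 2018), (1734, 2020),
   (1734, 2026), (1734, 2031), (1735, 2036), (1738, 2040), (1739, 2044), (1739, 2050),
   (1739, 2054), (1740, 2062), (1740, 2067), (1741, 2072), (1741, 2075), (1744, 2072),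
   (1744, 2078), (1750, 2082), (1752, 2090), (1754, 2095), (1754, 2100), (1754, 2103),
   (1756, 2102), (1758, 2110), (1758, 2115), (1758, 2082), (1758, 2082), (1758, 2090),
   (1758, 2095), (1762, 2100), (1462, 2103), (1463, 2110), (1463, 2110), (1463, 2116),
   (1464, 2120), (1464, 2123), (1465, 2130), (1464, 2132), (1468, 2138), (1468, 2142),
   (1474, 2148), (1476, 2148), (1478, 2132), (1204, 2138), (1205, 2142), (1205, 2148),
   (1205, 2152), (1206, 2148), (1206, 1806), (1206, 1806), (1200, 1814), (1210, 1819),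
   (976, 1824), (1210, 1827), (976, 1834), (976, 1834), (976, 1840), (976, 1844), (976, 1847),
   (976, 1854), (974, 1856), (970, 1862), (976, 1866), (772, 1872), (772, 1872), (772, 1856),
   (772, 1862), (772, 1866), (772, 1872), (772, 1876), (770, 1872), (772, 1878), (772, 1882),
   (592, 1883), (770, 1884), (592, 1885), (592, 1884), (592, 1888), (592, 1888), (581, 1892),
   (588, 1894), (588, 1896), (446, 1898), (436, 1900), (436, 1900), (452, 1904), (436, 1906),
   (428, 1910), (434, 1913), (370, 1916), (318, 1919), (311, 1923), (312, 1928), (300, 1934),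
   (248, 1631), (300, 1632), (320, 1633), (224, 1632), (262, 1636), (194, 1636), (158, 1640),
   (164, 1642), (167, 1644), (168, 1646), (90, 1648), (178, 1648), (46, 1652), (42, 1654),
   (42, 1658), (48, 1661), (54, 1664), (20, 1667), (22, 1671), (32, 1676), (24, 1682),
   (12, 1686), (11, 1692), (12, 1691), (14, 1695), (4, 1699), (4, 1704), (4, 1710), (4, 1714),
   (4, 1420), (4, 1420), (4, 1424), (4, 1426), (4, 1430), (4, 1433), (4, 1436), (4, 1439),
   (4, 1443), (4, 1448), (4, 1454), (4, 1458), (4, 1464), (4, 1463), (4, 1467), (4, 1471),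
   (4, 1476), (4, 1482), (4, 1486), (4, 1492), (4, 1492), (5, 1496), (5, 1502), (5, 1467),
   (6, 1471), (6, 1476), (6, 1482), (7, 1486), (10, 1492), (11, 1492), (11, 1496), (11, 1502),
   (12, 1506), (12, 1512), (12, 1514), (13, 1282), (16, 1288), (16, 1288), (22, 1292),
   (24, 1298), (26, 1263), (26, 1267), (26, 1272), (28, 1278), (30, 1282), (30, 1288),
   (30, 1288), (30, 1292), (30, 1298), (30, 1302), (34, 1308), (35, 1310), (38, 1314),
   (40, 1320), (44, 1324), (46, 1083), (48, 1087), (48, 1092), (54, 1098), (56, 1102),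
   (60, 1108), (61, 1108), (66, 1112), (70, 1118), (74, 1122), (76, 1128), (78, 1130),
   (80, 1134), (82, 1140), (90, 1144), (92, 1144), (96, 1130), (100, 1134), (106, 1140),
   (108, 1144), (110, 1146), (118, 1146), (120, 1150), (124, 1151), (128, 1152), (130, 1153),
   (134, 1152), (140, 988), (142, 988), (146, 974), (150, 978), (156, 984), (160, 988),
   (164, 990), (168, 990), (172, 994), (176, 995), (182, 996), (188, 997), (194, 996),
   (198, 1000), (202, 1000), (208, 1004), (213, 1006), (218, 858), (223, 858), (229, 862),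
   (233, 863), (241, 864), (246, 865), (250, 864), (256, 868), (262, 868), (268, 872),
   (273, 874), (278, 876), (283, 878), (288, 880), (293, 880), (301, 756), (305, 760),
   (312, 760), (318, 764), (322, 766), (330, 768), (335, 770), (340, 772), (346, 772),
   (352, 776), (358, 778), (366, 782), (372, 785), (378, 788), (384, 688), (390, 688),
   (397, 692), (404, 694), (410, 698), (416, 701), (422, 704), (430, 707), (436, 711),
   (444, 716), (452, 722), (460, 726), (467, 732), (474, 731), (482, 656), (490, 662),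
   (498, 666), (505, 672), (512, 671), (520, 675), (528, 679), (536, 684), (543, 690),
   (550, 694), (559, 700), (567, 700), (576, 704), (585, 664), (593, 664), (602, 668),
   (611, 674), (620, 678), (629, 684), (638, 686), (648, 690), (658, 678), (668, 684),
   (678, 688)]

/-- coded sets -/
def SA : ℕ := conv (conv 1 (tr 10 0 T10)) (tr 12 0 T12)

/-- coded sets -/
def SB : ℕ := conv SA (tr 8 0 T8a)

/-- coded sets -/
def SC : ℕ := conv (conv SA (tr 12 0 T12)) (tr 8 0 T8)

/-- ladder tables -/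
def lad (s : ℕ) : List (ℕ × ℕ) := (List.range (s + 1)).map fun t => (s ^ 2 - t ^ 2, 0)

/-- coded sets -/
def SD : ℕ := conv (conv (conv SC (tr 6 0 (lad 3))) (tr 8 0 (lad 4))) (tr 24 1728 (lad 12))

theorem okA1 : segOk SA 26 22 0 0 290 120 33 (ivA.getD 33 (0, 0)).1 (ivA.getD 33 (0, 0)).2
    ((ivA.drop 34).take (78 - 33)) 27 (38 - 27) = true := by
  decide +kernel

theorem okA2 : segOk SA 26 22 0 0 290 120 39 (ivA.getD 39 (0, 0)).1 (ivA.getD 39 (0, 0)).2
    ((ivA.drop 40).take (76 - 39)) 39 (43 - 39) = true := by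
  decide +kernel

theorem okB : segOk SB 35 30 960 0 400 296 30 (ivB.getD 30 (0, 0)).1 (ivB.getD 30 (0, 0)).2
    ((ivB.drop 31).take (87 - 30)) 37 (76 - 37) = true := by
  decide +kernel

theorem okC : segOk SC 56 42 4512 0 600 656 41 (ivC.getD 41 (0, 0)).1 (ivC.getD 41 (0, 0)).2
    ((ivC.drop 42).take (140 - 41)) 66 (146 - 66) = true := by
  decide +kernel

theorem okD : segOk SD 100 80 46720 1728 2480 2636 87 (ivD.getD 87 (0, 0)).1
    (ivD.getD 87 (0, 0)).2 ((ivD.drop 88).take (307 - 87)) 112 (343 - 112) = true := by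
  decide +kernel

/-- every number from `16443` to `12166550` is a value -/
theorem mid {RzL : ℕ → ℕ → ℕ → ℕ → Prop} {IsVal : ℕ → Prop}
    (hmul : ∀ L k a b L' k' a' b', RzL L k a b → RzL L' k' a' b' →
      RzL (L + L') (k + k') (a + a' + k * k') (b + b' + k * a' + a * k'))
    (hlin : ∀ a, RzL (a + 1) a 0 0)
    (hval : ∀ L k a b q n : ℕ, RzL L k a b → L + 1 ≤ q → 2 ≤ q →
      6 * n = q * (q + 1) * (q + 2) + 3 * k * q * (q + 1) + 6 * a * q + 6 * b → IsVal n)
    (h8a : ∀ e ∈ T8a, RzL 9 8 e.1 e.2) (h8 : ∀ e ∈ T8, RzL 16 8 e.1 e.2)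
    (h10 : ∀ e ∈ T10, RzL 12 10 e.1 e.2) (h12 : ∀ e ∈ T12, RzL 14 12 e.1 e.2) :
    ∀ n, 16443 ≤ n → n ≤ 12166550 → IsVal n := by
  have hlad : ∀ s, ∀ e ∈ lad s, RzL (2 * s + 2) (2 * s) e.1 e.2 := by
    intro s e he
    obtain ⟨t, ht, rfl⟩ := List.mem_map.1 he
    rw [List.mem_range] at ht
    obtain ⟨a, h1, h2⟩ := pair hmul hlin s t (by omega)
    have h3 : s ^ 2 - t ^ 2 = a := by omega
    change RzL (2 * s + 2) (2 * s) (s ^ 2 - t ^ 2) 0
    rw [h3]
    exact h2
  have g10 := tr_good (O := 0) (Y := 150) h10 (by decide +kernel)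
  have g12 := tr_good (O := 0) (Y := 140) h12 (by decide +kernel)
  have g8a := tr_good (O := 0) (Y := 110) h8a (by decide +kernel)
  have g8 := tr_good (O := 0) (Y := 170) h8 (by decide +kernel)
  have gl3 := tr_good (O := 0) (Y := 60) (hlad 3) (by decide +kernel)
  have gl4 := tr_good (O := 0) (Y := 70) (hlad 4) (by decide +kernel)
  have gl12 := tr_good (O := 1728) (Y := 1750) (hlad 12) (by decide +kernel)
  have GA : Good RzL SA 26 22 120 0 0 290 := conv_good hmul (one_good _ g10) _ g12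
  have GB : Good RzL SB 35 30 296 960 0 400 := conv_good hmul GA _ g8a
  have GC : Good RzL SC 56 42 656 4512 0 600 := conv_good hmul (conv_good hmul GA _ g12) _ g8
  have GD : Good RzL SD 100 80 2636 46720 1728 2480 :=
    conv_good hmul (conv_good hmul (conv_good hmul GC _ gl3) _ gl4) _ gl12
  intro n h1 h2
  by_cases c1 : n ≤ 34688
  · exact seg hval GA _ _ _ _ _ _ okA1 n (le_trans (by decide +kernel) h1)
      (lt_of_le_of_lt c1 (by decide +kernel))
  by_cases c2 : n ≤ 44384
  · exact seg hval GA _ _ _ _ _ _ okA2 n (le_trans (by decide +kernel) (not_le.1 c1).le)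
      (lt_of_le_of_lt c2 (by decide +kernel))
  by_cases c3 : n ≤ 195757
  · exact seg hval GB _ _ _ _ _ _ okB n (le_trans (by decide +kernel) (not_le.1 c2).le)
      (lt_of_le_of_lt c3 (by decide +kernel))
  by_cases c4 : n ≤ 1105472
  · exact seg hval GC _ _ _ _ _ _ okC n (le_trans (by decide +kernel) (not_le.1 c3).le)
      (lt_of_le_of_lt c4 (by decide +kernel))
  · exact seg hval GD _ _ _ _ _ _ okD n (le_trans (by decide +kernel) (not_le.1 c4).le)
      (lt_of_le_of_lt h2 (by decide +kernel))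

end Pool.Agent.Helper23.M4
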